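import Pool.Agent.Work.MP_f1a024_nt.TU.Stmts

/-!
# Block TU, item AX: closure properties of approximable sequences
-/

set_option autoImplicit false

namespace Pool.Agent.Work.MP_f1a024_nt.TU

open Finset MvPolynomial Filter

theorem AX_free_add {κ : ℕ} {F : Finset Nat.Primes} {g h : Rv κ} (hg : Free F g)
    (hh : Free F h) : Free F (g + h) := by
  classical
  intro v hv
  rcases Finset.mem_union.1 (MvPolynomial.vars_add_subset g h hv) with h1 | h1
  · exact hg v h1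
  · exact hh v h1

theorem AX_free_mul {κ : ℕ} {F : Finset Nat.Primes} {g h : Rv κ} (hg : Free F g)
    (hh : Free F h) : Free F (g * h) := by
  classical
  intro v hv
  rcases Finset.mem_union.1 (MvPolynomial.vars_mul g h hv) with h1 | h1
  · exact hg v h1
  · exact hh v h1

/-- `c θ ^ m ≤ (c θ) ^ m` for `c ≥ 1`, `m ≥ 1` -/
theorem AX_pow (c θ : ℝ) (m : ℕ) (hc : 1 ≤ c) (hθ : 0 ≤ θ) (hm : 1 ≤ m) :
    c * θ ^ m ≤ (c * θ) ^ m := by
  rw [mul_pow]
  refine mul_le_mul_of_nonneg_right ?_ (pow_nonneg hθ m)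
  calc c = c ^ 1 := (pow_one c).symm
    _ ≤ c ^ m := pow_le_pow_right₀ hc hm

theorem AX_bdd {κ : ℕ} (X : Cx κ)
    (h9 : ∀ g : Rv κ, Bdd X fun l => ((evw (X.w l) g : ℚ) : ℝ)) (F : Finset Nat.Primes)
    (y : ℕ → ℝ) (hy : Apx X F y) : Bdd X y := by
  obtain ⟨g, -, hg⟩ := hy 1 one_pos
  obtain ⟨K, hK, hK'⟩ := h9 g
  refine ⟨2 * K, by linarith, ?_⟩
  filter_upwards [hg, hK', X.hm 1] with l h1 h2 h3
  rw [one_pow] at h1
  have h4 : |y l| ≤ |y l - ((evw (X.w l) g : ℚ) : ℝ)| + |((evw (X.w l) g : ℚ) : ℝ)| := by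
    have h5 : y l = (y l - ((evw (X.w l) g : ℚ) : ℝ)) + ((evw (X.w l) g : ℚ) : ℝ) := by ring
    calc |y l| = |(y l - ((evw (X.w l) g : ℚ) : ℝ)) + ((evw (X.w l) g : ℚ) : ℝ)| := by
          rw [← h5]
      _ ≤ _ := abs_add_le _ _
  have h6 : 1 ≤ K ^ X.m l := one_le_pow₀ hK
  calc |y l| ≤ 1 + K ^ X.m l := by linarith
    _ ≤ 2 * K ^ X.m l := by linarith
    _ ≤ (2 * K) ^ X.m l := AX_pow 2 K _ (by norm_num) (by linarith) h3

theorem AX_add {κ : ℕ} (X : Cx κ) (F : Finset Nat.Primes) (y z : ℕ → ℝ) (hy : Apx X F y)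
    (hz : Apx X F z) : Apx X F fun l => y l + z l := by
  intro θ hθ
  obtain ⟨g, hg1, hg2⟩ := hy (θ / 2) (by linarith)
  obtain ⟨h, hh1, hh2⟩ := hz (θ / 2) (by linarith)
  refine ⟨g + h, AX_free_add hg1 hh1, ?_⟩
  filter_upwards [hg2, hh2, X.hm 1] with l h1 h2 h3
  have h4 : y l + z l - ((evw (X.w l) (g + h) : ℚ) : ℝ) =
      (y l - ((evw (X.w l) g : ℚ) : ℝ)) + (z l - ((evw (X.w l) h : ℚ) : ℝ)) := by
    rw [map_add]
    push_cast
    ring
  rw [h4]
  calc |(y l - ((evw (X.w l) g : ℚ) : ℝ)) + (z l - ((evw (X.w l) h : ℚ) : ℝ))|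
      ≤ |y l - ((evw (X.w l) g : ℚ) : ℝ)| + |z l - ((evw (X.w l) h : ℚ) : ℝ)| := abs_add_le _ _
    _ ≤ 2 * (θ / 2) ^ X.m l := by linarith
    _ ≤ (2 * (θ / 2)) ^ X.m l := AX_pow 2 (θ / 2) _ (by norm_num) (by linarith) h3
    _ = θ ^ X.m l := by congr 1; ring

theorem AX_mul {κ : ℕ} (X : Cx κ)
    (h9 : ∀ g : Rv κ, Bdd X fun l => ((evw (X.w l) g : ℚ) : ℝ)) (F : Finset Nat.Primes)
    (y z : ℕ → ℝ) (hy : Apx X F y) (hz : Apx X F z) : Apx X F fun l => y l * z l := by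
  obtain ⟨K₁, hK₁, hy'⟩ := AX_bdd X h9 F y hy
  obtain ⟨K₂, hK₂, hz'⟩ := AX_bdd X h9 F z hz
  intro θ hθ
  set K : ℝ := max K₁ K₂ with hKdef
  have hK : 1 ≤ K := le_trans hK₁ (le_max_left _ _)
  set η : ℝ := min 1 (θ / (4 * K)) with hη
  have hη0 : 0 < η := lt_min one_pos (div_pos hθ (by linarith))
  have hη1 : η ≤ 1 := min_le_left _ _
  have hη2 : 4 * (K * η) ≤ θ := by
    have h1 : η ≤ θ / (4 * K) := min_le_right _ _
    have h2 : η * (4 * K) ≤ θ := (le_div_iff₀ (by linarith)).1 h1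
    linarith
  obtain ⟨g, hg1, hg2⟩ := hy η hη0
  obtain ⟨h, hh1, hh2⟩ := hz η hη0
  refine ⟨g * h, AX_free_mul hg1 hh1, ?_⟩
  filter_upwards [hg2, hh2, X.hm 1, hy', hz'] with l h1 h2 h3 h4 h5
  set G : ℝ := ((evw (X.w l) g : ℚ) : ℝ) with hG
  set H : ℝ := ((evw (X.w l) h : ℚ) : ℝ) with hH
  have hKm : 1 ≤ K ^ X.m l := one_le_pow₀ hK
  have hηm : η ^ X.m l ≤ 1 := pow_le_one₀ hη0.le hη1
  have hηm0 : 0 ≤ η ^ X.m l := pow_nonneg hη0.le _
  have h6 : |y l| ≤ K ^ X.m l :=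
    h4.trans (pow_le_pow_left₀ (by linarith) (le_max_left _ _) _)
  have h7 : |z l| ≤ K ^ X.m l :=
    h5.trans (pow_le_pow_left₀ (by linarith) (le_max_right _ _) _)
  have h8 : |H| ≤ K ^ X.m l + 1 := by
    have e : H = z l - (z l - H) := by ring
    calc |H| = |z l - (z l - H)| := by rw [← e]
      _ ≤ |z l| + |z l - H| := abs_sub _ _
      _ ≤ K ^ X.m l + 1 := by linarith
  have e1 : y l * z l - ((evw (X.w l) (g * h) : ℚ) : ℝ) = y l * (z l - H) + H * (y l - G) := by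
    rw [map_mul]
    push_cast
    rw [hG, hH]
    ring
  rw [e1]
  calc |y l * (z l - H) + H * (y l - G)|
      ≤ |y l * (z l - H)| + |H * (y l - G)| := abs_add_le _ _
    _ = |y l| * |z l - H| + |H| * |y l - G| := by rw [abs_mul, abs_mul]
    _ ≤ K ^ X.m l * η ^ X.m l + (K ^ X.m l + 1) * η ^ X.m l := by
        gcongr
    _ ≤ 4 * (K ^ X.m l * η ^ X.m l) := by nlinarith
    _ = 4 * (K * η) ^ X.m l := by rw [mul_pow]
    _ ≤ (4 * (K * η)) ^ X.m l := AX_pow 4 _ _ (by norm_num) (by positivity) h3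
    _ ≤ θ ^ X.m l := pow_le_pow_left₀ (by positivity) hη2 _

theorem AX_poly {κ : ℕ} (X : Cx κ) (F : Finset Nat.Primes) (g : Rv κ) (hg : Free F g) :
    Apx X F fun l => ((evw (X.w l) g : ℚ) : ℝ) := by
  intro θ hθ
  refine ⟨g, hg, Filter.Eventually.of_forall fun l => ?_⟩
  rw [sub_self, abs_zero]
  exact pow_nonneg hθ.le _

theorem AX_congr {κ : ℕ} (X : Cx κ) (F : Finset Nat.Primes) (y z : ℕ → ℝ)
    (hyz : ∀ᶠ l : ℕ in (X.𝒰 : Filter ℕ), y l = z l) (hy : Apx X F y) : Apx X F z := by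
  intro θ hθ
  obtain ⟨g, hg1, hg2⟩ := hy θ hθ
  refine ⟨g, hg1, ?_⟩
  filter_upwards [hg2, hyz] with l h1 h2
  rw [← h2]
  exact h1

theorem AX_zero {κ : ℕ} (X : Cx κ) (F : Finset Nat.Primes) : Apx X F fun _ => (0 : ℝ) := by
  have h1 : Free F (0 : Rv κ) := by
    intro v hv
    rw [MvPolynomial.vars_0] at hv
    exact absurd hv (Finset.notMem_empty v)
  refine AX_congr X F _ _ (Filter.Eventually.of_forall fun l => ?_) (AX_poly X F 0 h1)
  show ((evw (X.w l) 0 : ℚ) : ℝ) = 0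
  rw [map_zero]
  norm_num

theorem AX_one {κ : ℕ} (X : Cx κ) (F : Finset Nat.Primes) : Apx X F fun _ => (1 : ℝ) := by
  have h1 : Free F (1 : Rv κ) := by
    intro v hv
    rw [MvPolynomial.vars_one] at hv
    exact absurd hv (Finset.notMem_empty v)
  refine AX_congr X F _ _ (Filter.Eventually.of_forall fun l => ?_) (AX_poly X F 1 h1)
  show ((evw (X.w l) 1 : ℚ) : ℝ) = 1
  rw [map_one]
  norm_num

theorem prfAX (hC1 : C1) : AX := by
  classical
  intro κ X
  obtain ⟨-, -, -, -, -, -, -, -, h9⟩ := hC1 κ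
  have h9' : ∀ g : Rv κ, Bdd X fun l => ((evw (X.w l) g : ℚ) : ℝ) := h9 X
  refine ⟨fun F y hy => AX_bdd X h9' F y hy, fun F y z hy hz => AX_add X F y z hy hz,
    fun F y z hy hz => AX_mul X h9' F y z hy hz, fun F g hg => AX_poly X F g hg, ?_,
    fun F y z hyz hy => AX_congr X F y z hyz hy, ?_, ?_, ?_⟩
  · intro F F' y hF hy θ hθ
    obtain ⟨g, hg1, hg2⟩ := hy θ hθ
    exact ⟨g, fun v hv hv' => hg1 v hv (hF hv'), hg2⟩
  · intro F ι s y
    induction s using Finset.induction_on with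
    | empty =>
      intro _
      simp only [Finset.sum_empty]
      exact AX_zero X F
    | insert a s ha ih =>
      intro hy
      simp only [Finset.sum_insert ha]
      exact AX_add X F _ _ (hy a (Finset.mem_insert_self a s))
        (ih fun i hi => hy i (Finset.mem_insert_of_mem hi))
  · intro F ι s y
    induction s using Finset.induction_on with
    | empty =>
      intro _
      simp only [Finset.prod_empty]
      exact AX_one X F
    | insert a s ha ih =>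
      intro hy
      simp only [Finset.prod_insert ha]
      exact AX_mul X h9' F _ _ (hy a (Finset.mem_insert_self a s))
        (ih fun i hi => hy i (Finset.mem_insert_of_mem hi))
  · intro F y e hy
    induction e with
    | zero =>
      simp only [pow_zero]
      exact AX_one X F
    | succ e ih =>
      simp only [pow_succ]
      exact AX_mul X h9' F _ _ ih hy

end Pool.Agent.Work.MP_f1a024_nt.TU
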