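import Pool.Agent.Work.MP_f1a024_nt.TU.Stmts

/-!
# Block TU, item B0: lower bound for the values of a nonzero polynomial
-/

namespace Pool.Agent.Work.MP_f1a024_nt.TU

open Finset MvPolynomial Filter

/-- the polynomial with the coefficients `c` at the exponents `e` -/
noncomputable def B0_pol {κ s : ℕ} (e : Fin s → Ev κ) (c : Fin s → ℚ) : Rv κ :=
  ∑ i, monomial (e i) (c i)

theorem B0_pol_ne {κ s : ℕ} (e : Fin s → Ev κ) (he : Function.Injective e) (c : Fin s → ℚ)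
    (hc : c ≠ 0) : B0_pol e c ≠ 0 := by
  obtain ⟨i, hi⟩ := Function.ne_iff.1 hc
  intro h
  apply hi
  have h1 := congrArg (fun g : Rv κ => g.coeff (e i)) h
  simp only [B0_pol, coeff_sum, coeff_monomial, coeff_zero] at h1
  rw [Finset.sum_eq_single i] at h1
  · simpa using h1
  · intro j _ hj
    rw [if_neg (fun h => hj (he h))]
  · intro h
    exact absurd (Finset.mem_univ i) h

theorem B0_evw_pol (hC1 : C1) {κ s : ℕ} (w : Fin κ → ℕ) (e : Fin s → Ev κ) (c : Fin s → ℚ) :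
    evw w (B0_pol e c) = ∑ i, c i * mo w (e i) := by
  obtain ⟨-, -, -, -, h5, -⟩ := hC1 κ
  rw [B0_pol, map_sum]
  exact Finset.sum_congr rfl fun i _ => h5 w (e i) (c i)

/-- the matrix with the row `a` at `i₀` and unit rows elsewhere -/
def B0_mat {s : ℕ} (a : Fin s → ℚ) (i₀ : Fin s) : Matrix (Fin s) (Fin s) ℚ :=
  (1 : Matrix (Fin s) (Fin s) ℚ).updateRow i₀ a

theorem B0_mat_self {s : ℕ} (a : Fin s → ℚ) (i₀ : Fin s) (v : Fin s → ℚ) :
    (B0_mat a i₀).mulVec v i₀ = ∑ j, a j * v j := by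
  unfold B0_mat Matrix.mulVec dotProduct
  refine Finset.sum_congr rfl fun j _ => ?_
  rw [Matrix.updateRow_self]

theorem B0_mat_ne {s : ℕ} (a : Fin s → ℚ) (i₀ : Fin s) (v : Fin s → ℚ) (i : Fin s)
    (hi : i ≠ i₀) : (B0_mat a i₀).mulVec v i = v i := by
  have h1 : (B0_mat a i₀).mulVec v i = (1 : Matrix (Fin s) (Fin s) ℚ).mulVec v i := by
    unfold B0_mat Matrix.mulVec dotProduct
    refine Finset.sum_congr rfl fun j _ => ?_
    rw [Matrix.updateRow_ne hi]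
  rw [h1, Matrix.one_mulVec]

theorem B0_det {s : ℕ} (a : Fin s → ℚ) (i₀ : Fin s) (ha : a i₀ ≠ 0) : (B0_mat a i₀).det ≠ 0 := by
  intro h
  obtain ⟨v, hv, hv0⟩ := Matrix.exists_mulVec_eq_zero_iff.2 h
  apply hv
  have h1 : ∀ i, i ≠ i₀ → v i = 0 := by
    intro i hi
    have := congrFun hv0 i
    rwa [B0_mat_ne a i₀ v i hi] at this
  have h2 : v i₀ = 0 := by
    have h3 := congrFun hv0 i₀
    rw [B0_mat_self, Finset.sum_eq_single i₀] at h3
    · rcases mul_eq_zero.1 h3 with h4 | h4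
      · exact absurd h4 ha
      · exact h4
    · intro j _ hj
      rw [h1 j hj, mul_zero]
    · intro h
      exact absurd (Finset.mem_univ i₀) h
  funext i
  by_cases hi : i = i₀
  · rw [hi, h2]
    rfl
  · rw [h1 i hi]
    rfl

/-- one exponent: only one monomial -/
theorem B0_one (hC1 : C1) {κ : ℕ} (X : Cx κ) (g : Rv κ) (ε : ℝ) (hε : 0 < ε) (b : Ev κ)
    (hs : g.support = {b}) :
    ∀ᶠ l : ℕ in (X.𝒰 : Filter ℕ),
      Real.exp (-(ε * X.m l)) * ((mo (X.w l) b : ℚ) : ℝ) ≤ |((evw (X.w l) g : ℚ) : ℝ)| := by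
  obtain ⟨-, -, h3, h4, -⟩ := hC1 κ
  have hb : g.coeff b ≠ 0 := by
    rw [← mem_support_iff, hs]
    exact Finset.mem_singleton_self b
  have hb' : 0 < |((g.coeff b : ℚ) : ℝ)| := abs_pos.2 (by exact_mod_cast hb)
  obtain ⟨N, hN⟩ := exists_nat_gt (-(Real.log |((g.coeff b : ℚ) : ℝ)|) / ε)
  filter_upwards [X.hm N] with l hl
  have hmo : 0 < ((mo (X.w l) b : ℚ) : ℝ) := by exact_mod_cast (h3 (X.w l) b).1
  rw [h4 (X.w l) g, hs, Finset.sum_singleton]
  push_cast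
  rw [abs_mul, abs_of_pos hmo]
  refine mul_le_mul_of_nonneg_right ?_ hmo.le
  rw [← Real.exp_log hb']
  refine Real.exp_le_exp.2 ?_
  have h5 : -(Real.log |((g.coeff b : ℚ) : ℝ)|) / ε < X.m l :=
    lt_of_lt_of_le hN (by exact_mod_cast hl)
  rw [div_lt_iff₀ hε] at h5
  linarith

theorem prfB0 (_hNA : NA) (hC1 : C1) (hSU : SU) (hSTQ : Pool.Agent.Work.MP_f1a024_nt.RW.STQ) :
    B0 := by
  classical
  intro κ X g ε hg hε
  rw [Filter.eventually_all_finset]
  intro b₀ hb₀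
  obtain ⟨-, -, h3, h4, h5, h6, h7, h8, -⟩ := hC1 κ
  by_cases hs : g.support.card ≤ 1
  · have hs1 : g.support = {b₀} := by
      refine (Finset.eq_singleton_iff_unique_mem).2 ⟨hb₀, fun x hx => ?_⟩
      exact Finset.card_le_one.1 hs x hx b₀ hb₀
    exact B0_one hC1 X g ε hε b₀ hs1
  push Not at hs
  -- the indexing
  obtain ⟨e, he⟩ : ∃ e : Fin g.support.card → Ev κ, Function.Injective e ∧
      Finset.univ.image e = g.support := by
    refine ⟨fun i => ((g.support.equivFin.symm i : g.support) : Ev κ), ?_, ?_⟩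
    · intro i j hij
      exact g.support.equivFin.symm.injective (Subtype.ext hij)
    · ext b
      simp only [Finset.mem_image, Finset.mem_univ, true_and]
      constructor
      · rintro ⟨i, rfl⟩
        exact (g.support.equivFin.symm i).2
      · intro hb
        exact ⟨g.support.equivFin ⟨b, hb⟩, by simp⟩
  obtain ⟨he1, he2⟩ := he
  have hes : ∀ i, e i ∈ g.support := by
    intro i
    rw [← he2]
    exact Finset.mem_image_of_mem e (Finset.mem_univ i)
  obtain ⟨i₀, hi₀⟩ : ∃ i₀, e i₀ = b₀ := by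
    rw [← he2] at hb₀
    obtain ⟨i, -, hi⟩ := Finset.mem_image.1 hb₀
    exact ⟨i, hi⟩
  set PP : Finset Nat.Primes := g.support.biUnion fun b => b.support.image Prod.fst with hPP
  set δ : Ev κ := ∑ b ∈ g.support, b with hδ
  have hle : ∀ b ∈ g.support, b ≤ δ := by
    intro b hb
    exact Finset.single_le_sum (f := fun b : Ev κ => b) (fun _ _ => zero_le) hb
  have hPPb : ∀ b ∈ g.support, ∀ v ∈ b.support, v.1 ∈ PP := by
    intro b hb v hv
    exact Finset.mem_biUnion.2 ⟨b, hb, Finset.mem_image_of_mem Prod.fst hv⟩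
  have hPPδ : ∀ v ∈ δ.support, v.1 ∈ PP := by
    intro v hv
    have h1 : δ v ≠ 0 := Finsupp.mem_support_iff.1 hv
    rw [hδ, Finsupp.finsetSum_apply] at h1
    obtain ⟨b, hb, hb1⟩ := Finset.exists_ne_zero_of_sum_ne_zero h1
    exact hPPb b hb v (Finsupp.mem_support_iff.2 hb1)
  -- the constants
  obtain ⟨c, hc0, hc1, hc⟩ := h8 X δ
  set R : ℝ := 1 / c with hR
  have hR2 : 2 ≤ R := by
    rw [hR, le_div_iff₀ hc0]
    linarith
  have hlogR : 0 < Real.log R := Real.log_pos (by linarith)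
  set σ : ℝ := ε / Real.log R with hσ
  have hσ0 : 0 < σ := div_pos hε hlogR
  -- Subspace theorem
  obtain ⟨𝒢, h𝒢f, h𝒢0, h𝒢⟩ := hSTQ g.support.card PP
    (B0_mat (fun i => g.coeff (e i)) i₀) (fun _ => 1) σ (by omega)
    (B0_det _ i₀ (by simpa [hi₀] using mem_support_iff.1 hb₀))
    (fun _ _ => by rw [Matrix.det_one]; exact one_ne_zero) hσ0
  have hne : ∀ᶠ l : ℕ in (X.𝒰 : Filter ℕ), ∀ d ∈ 𝒢, ∑ i, d i * mo (X.w l) (e i) ≠ 0 := by
    rw [Filter.eventually_all_finite h𝒢f]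
    intro d hd
    filter_upwards [hSU κ X (B0_pol e d) (B0_pol_ne e he1 d (h𝒢0 d hd))] with l hl
    rwa [B0_evw_pol hC1] at hl
  filter_upwards [hne, hc] with l hl hcl
  by_contra hcon
  push Not at hcon
  have hpos : ∀ b : Ev κ, 0 < mo (X.w l) b := fun b => (h3 (X.w l) b).1
  have hx0 : (fun i => mo (X.w l) (e i)) ≠ 0 := by
    intro h
    have := congrFun h i₀
    exact (hpos (e i₀)).ne' this
  have hev : (B0_mat (fun i => g.coeff (e i)) i₀).mulVec (fun i => mo (X.w l) (e i)) i₀ =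
      evw (X.w l) g := by
    rw [B0_mat_self, h4 (X.w l) g]
    have h1 : ∑ b ∈ Finset.univ.image e, g.coeff b * mo (X.w l) b =
        ∑ j, g.coeff (e j) * mo (X.w l) (e j) := Finset.sum_image (fun i _ j _ h => he1 h)
    rw [← h1, he2]
  suffices hkey : ∃ d ∈ 𝒢, ∑ i, d i * mo (X.w l) (e i) = 0 by
    obtain ⟨d, hd, hd0⟩ := hkey
    exact hl d hd hd0
  refine h𝒢 (fun i => mo (X.w l) (e i)) 1 (R ^ X.m l)
    (fun p => ((padicNorm p (mo (X.w l) δ) : ℚ) : ℝ)) hx0 ?_ ?_ ?_ ?_ ?_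
  · -- integrality outside PP
    intro q hq i
    rw [h6 (X.w l) (e i) q]
    have : ∀ j, (e i) (q, j) = 0 := by
      intro j
      by_contra hne
      exact hq (hPPb (e i) (hes i) (q, j) (Finsupp.mem_support_iff.2 hne))
    simp [this]
  · intro i
    have h1 := hpos (e i)
    rw [abs_of_pos (by exact_mod_cast h1)]
    exact_mod_cast (h3 (X.w l) (e i)).2
  · intro p _ i
    have h1 : padicNorm p (mo (X.w l) (e i)) ≤ padicNorm p (mo (X.w l) δ) := by
      rw [h6 (X.w l) (e i) p, h6 (X.w l) δ p]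
      refine pow_le_pow_right₀ (by exact_mod_cast p.2.one_lt.le) ?_
      exact Finset.sum_le_sum fun j _ => Nat.mul_le_mul_left _ (hle (e i) (hes i) (p, j))
    exact_mod_cast h1
  · -- the height
    have h1 := h7 (X.w l) δ PP hPPδ
    have h2 : ∏ p ∈ PP, ((padicNorm p (mo (X.w l) δ) : ℚ) : ℝ) = (((mo (X.w l) δ)⁻¹ : ℚ) : ℝ) := by
      rw [← h1]
      push_cast
      rfl
    rw [h2, one_mul, hR, one_div, inv_pow]
    push_cast
    exact inv_anti₀ (pow_pos hc0 _) hcl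
  · -- the double product
    simp only [Matrix.one_mulVec]
    have h1 : ∏ p ∈ PP, ∏ i, ((padicNorm p (mo (X.w l) (e i)) : ℚ) : ℝ) =
        ∏ i, ((mo (X.w l) (e i) : ℚ) : ℝ)⁻¹ := by
      rw [Finset.prod_comm]
      refine Finset.prod_congr rfl fun i _ => ?_
      have h2 := h7 (X.w l) (e i) PP (hPPb (e i) (hes i))
      have h3 : (((mo (X.w l) (e i))⁻¹ : ℚ) : ℝ) = ((mo (X.w l) (e i) : ℚ) : ℝ)⁻¹ := by
        push_cast
        rfl
      rw [← h3, ← h2]
      push_cast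
      rfl
    have h2 : ∏ i, |(((B0_mat (fun i => g.coeff (e i)) i₀).mulVec
        (fun i => mo (X.w l) (e i)) i : ℚ) : ℝ)| =
        |((evw (X.w l) g : ℚ) : ℝ)| * ∏ i ∈ Finset.univ.erase i₀, ((mo (X.w l) (e i) : ℚ) : ℝ) := by
      rw [← Finset.mul_prod_erase Finset.univ _ (Finset.mem_univ i₀), hev]
      congr 1
      refine Finset.prod_congr rfl fun i hi => ?_
      rw [B0_mat_ne _ i₀ _ i (Finset.ne_of_mem_erase hi)]
      exact abs_of_pos (by exact_mod_cast hpos (e i))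
    have h3' : ∏ i, ((mo (X.w l) (e i) : ℚ) : ℝ)⁻¹ =
        ((mo (X.w l) b₀ : ℚ) : ℝ)⁻¹ *
          ∏ i ∈ Finset.univ.erase i₀, ((mo (X.w l) (e i) : ℚ) : ℝ)⁻¹ := by
      rw [← Finset.mul_prod_erase Finset.univ _ (Finset.mem_univ i₀), hi₀]
    have h4' : (∏ i ∈ Finset.univ.erase i₀, ((mo (X.w l) (e i) : ℚ) : ℝ)) *
        ∏ i ∈ Finset.univ.erase i₀, ((mo (X.w l) (e i) : ℚ) : ℝ)⁻¹ = 1 := by
      rw [← Finset.prod_mul_distrib]
      refine Finset.prod_eq_one fun i _ => ?_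
      exact mul_inv_cancel₀ (by exact_mod_cast (hpos (e i)).ne')
    have hb0 : 0 < ((mo (X.w l) b₀ : ℚ) : ℝ) := by exact_mod_cast hpos b₀
    have h5' : (R ^ X.m l) ^ (-σ) = Real.exp (-(ε * X.m l)) := by
      rw [← Real.rpow_natCast, ← Real.rpow_mul (by linarith),
        Real.rpow_def_of_pos (by linarith), hσ]
      congr 1
      field_simp
    rw [h1, h2, h3', h5']
    have h6' : |((evw (X.w l) g : ℚ) : ℝ)| *
        (∏ i ∈ Finset.univ.erase i₀, ((mo (X.w l) (e i) : ℚ) : ℝ)) *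
        (((mo (X.w l) b₀ : ℚ) : ℝ)⁻¹ *
          ∏ i ∈ Finset.univ.erase i₀, ((mo (X.w l) (e i) : ℚ) : ℝ)⁻¹) =
        |((evw (X.w l) g : ℚ) : ℝ)| * ((mo (X.w l) b₀ : ℚ) : ℝ)⁻¹ *
        ((∏ i ∈ Finset.univ.erase i₀, ((mo (X.w l) (e i) : ℚ) : ℝ)) *
          ∏ i ∈ Finset.univ.erase i₀, ((mo (X.w l) (e i) : ℚ) : ℝ)⁻¹) := by ring
    rw [h6', h4', mul_one, ← div_eq_mul_inv, div_le_iff₀ hb0]
    exact hcon.le

end Pool.Agent.Work.MP_f1a024_nt.TU
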