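import Pool.Agent.Work.MP_f1a024_nt.TU.Stmts

/-!
# Block TU, item C1: monomials
-/

namespace Pool.Agent.Work.MP_f1a024_nt.TU

open Finset MvPolynomial Filter

lemma C1_mo_eq {κ : ℕ} (w : Fin κ → ℕ) (b : Ev κ) : mo w b = ∏ v ∈ b.support, vz w v ^ b v := rfl

lemma C1_vz_pos {κ : ℕ} (w : Fin κ → ℕ) (v : Vr κ) : 0 < vz w v := by
  unfold vz
  have h : (0 : ℚ) < ((v.1 : ℕ) : ℚ) := by exact_mod_cast v.1.2.pos
  positivity

lemma C1_vz_le {κ : ℕ} (w : Fin κ → ℕ) (v : Vr κ) : vz w v ≤ 1 := by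
  unfold vz
  have h : (1 : ℚ) ≤ ((v.1 : ℕ) : ℚ) := by exact_mod_cast v.1.2.one_le
  exact inv_le_one_of_one_le₀ (one_le_pow₀ h)

lemma C1_add {κ : ℕ} (w : Fin κ → ℕ) (a b : Ev κ) : mo w (a + b) = mo w a * mo w b :=
  Finsupp.prod_add_index' (fun v => pow_zero _) (fun v m n => pow_add _ _ _)

lemma C1_pos {κ : ℕ} (w : Fin κ → ℕ) (b : Ev κ) : 0 < mo w b ∧ mo w b ≤ 1 := by
  rw [C1_mo_eq]
  exact ⟨Finset.prod_pos fun v _ => pow_pos (C1_vz_pos w v) _,
    Finset.prod_le_one (fun v _ => (pow_pos (C1_vz_pos w v) _).le)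
      fun v _ => pow_le_one₀ (C1_vz_pos w v).le (C1_vz_le w v)⟩

lemma C1_eval {κ : ℕ} (w : Fin κ → ℕ) (g : Rv κ) :
    evw w g = ∑ b ∈ g.support, g.coeff b * mo w b := by
  unfold evw
  rw [MvPolynomial.aeval_def, MvPolynomial.eval₂_eq]
  rfl

lemma C1_norm_prod {ι : Type*} (p : Nat.Primes) (s : Finset ι) (f : ι → ℚ) :
    padicNorm p (∏ i ∈ s, f i) = ∏ i ∈ s, padicNorm p (f i) := by
  classical
  have hp : Fact (p : ℕ).Prime := ⟨p.2⟩
  induction s using Finset.induction_on with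
  | empty => simp
  | insert a s ha ih => rw [Finset.prod_insert ha, Finset.prod_insert ha, padicNorm.mul, ih]

lemma C1_norm_pow (p : Nat.Primes) (x : ℚ) (n : ℕ) : padicNorm p (x ^ n) = padicNorm p x ^ n := by
  have hp : Fact (p : ℕ).Prime := ⟨p.2⟩
  induction n with
  | zero => simp
  | succ n ih => rw [pow_succ, pow_succ, padicNorm.mul, ih]

lemma C1_norm_vz {κ : ℕ} (w : Fin κ → ℕ) (v : Vr κ) (p : Nat.Primes) :
    padicNorm p (vz w v) = if v.1 = p then ((p : ℕ) : ℚ) ^ w v.2 else 1 := by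
  have hp : Fact (p : ℕ).Prime := ⟨p.2⟩
  have hv : ((v.1 : ℕ) : ℚ) ≠ 0 := by exact_mod_cast v.1.2.ne_zero
  have h1 : padicNorm p (vz w v) * padicNorm p (((v.1 : ℕ) : ℚ) ^ w v.2) = 1 := by
    rw [← padicNorm.mul]
    unfold vz
    rw [inv_mul_cancel₀ (pow_ne_zero _ hv)]
    exact padicNorm.one
  rw [C1_norm_pow] at h1
  split_ifs with h
  · rw [h] at h1
    rw [padicNorm.padicNorm_p_of_prime, inv_pow] at h1
    have hp0 : (((p : ℕ) : ℚ) ^ w v.2) ≠ 0 := by
      rw [← h]; exact pow_ne_zero _ hv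
    rw [mul_inv_eq_iff_eq_mul₀ hp0, one_mul] at h1
    exact h1
  · have hq : Fact (v.1 : ℕ).Prime := ⟨v.1.2⟩
    rw [padicNorm.padicNorm_of_prime_of_ne (fun h2 => h (Subtype.ext h2.symm)), one_pow,
      mul_one] at h1
    exact h1

lemma C1_norm_mo {κ : ℕ} (w : Fin κ → ℕ) (b : Ev κ) (p : Nat.Primes) :
    padicNorm p (mo w b) =
      ∏ v ∈ b.support, (if v.1 = p then ((p : ℕ) : ℚ) ^ w v.2 else 1) ^ b v := by
  rw [C1_mo_eq, C1_norm_prod]
  refine Finset.prod_congr rfl fun v _ => ?_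
  rw [C1_norm_pow, C1_norm_vz]

lemma C1_six {κ : ℕ} (w : Fin κ → ℕ) (b : Ev κ) (p : Nat.Primes) :
    padicNorm p (mo w b) = ((p : ℕ) : ℚ) ^ (∑ i, w i * b (p, i)) := by
  have hp : Fact (p : ℕ).Prime := ⟨p.2⟩
  classical
  induction b using Finsupp.induction_linear with
  | zero =>
    have h : mo w (0 : Ev κ) = 1 := Finsupp.prod_zero_index
    rw [h]
    simp
  | add a b ha hb =>
    rw [C1_add, padicNorm.mul, ha, hb, ← pow_add, ← Finset.sum_add_distrib]
    congr 1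
    refine Finset.sum_congr rfl fun i _ => ?_
    rw [Finsupp.add_apply, mul_add]
  | single v n =>
    have h : mo w (Finsupp.single v n) = vz w v ^ n :=
      Finsupp.prod_single_index (pow_zero _)
    rw [h, C1_norm_pow, C1_norm_vz]
    obtain ⟨q, j⟩ := v
    by_cases hq : q = p
    · subst hq
      rw [if_pos rfl, ← pow_mul]
      congr 1
      rw [Finset.sum_eq_single j]
      · simp
      · intro i _ hi
        rw [Finsupp.single_apply, if_neg (fun h => hi (by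
          have := congrArg Prod.snd h
          exact this.symm)), mul_zero]
      · intro h
        exact absurd (Finset.mem_univ j) h
    · rw [if_neg hq, one_pow]
      have h0 : ∑ i, w i * (Finsupp.single (q, j) n : Ev κ) (p, i) = 0 := by
        refine Finset.sum_eq_zero fun i _ => ?_
        rw [Finsupp.single_apply, if_neg (fun h => hq (congrArg Prod.fst h)), mul_zero]
      rw [h0, pow_zero]

lemma C1_seven {κ : ℕ} (w : Fin κ → ℕ) (b : Ev κ) (PP : Finset Nat.Primes)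
    (h : ∀ v ∈ b.support, v.1 ∈ PP) : ∏ p ∈ PP, padicNorm p (mo w b) = (mo w b)⁻¹ := by
  rw [Finset.prod_congr rfl fun p _ => C1_norm_mo w b p, Finset.prod_comm, C1_mo_eq,
    ← Finset.prod_inv_distrib]
  refine Finset.prod_congr rfl fun v hv => ?_
  rw [Finset.prod_pow, Finset.prod_ite_eq, if_pos (h v hv), ← inv_pow]
  congr 1
  unfold vz
  rw [inv_inv]

lemma C1_eight {κ : ℕ} (X : Cx κ) (b : Ev κ) : ∃ c : ℝ, 0 < c ∧ c ≤ 1 / 2 ∧
    ∀ᶠ l : ℕ in (X.𝒰 : Filter ℕ), c ^ X.m l ≤ ((mo (X.w l) b : ℚ) : ℝ) := by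
  obtain ⟨C, hC⟩ : ∃ C : ℝ, C = ∏ v ∈ b.support, ((((v.1 : ℕ) : ℝ) ^ X.K)⁻¹) ^ b v := ⟨_, rfl⟩
  have hpos : ∀ v : Vr κ, (1 : ℝ) ≤ ((v.1 : ℕ) : ℝ) := fun v => by exact_mod_cast v.1.2.one_le
  have hC0 : 0 < C := by
    rw [hC]
    refine Finset.prod_pos fun v _ => pow_pos (inv_pos.2 (pow_pos ?_ _)) _
    linarith [hpos v]
  have hC1 : C ≤ 1 := by
    rw [hC]
    refine Finset.prod_le_one (fun v _ => ?_) fun v _ => ?_
    · have := hpos v
      positivity
    · refine pow_le_one₀ ?_ (inv_le_one_of_one_le₀ (one_le_pow₀ (hpos v)))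
      have := hpos v
      positivity
  refine ⟨C / 2, by linarith, by linarith, ?_⟩
  filter_upwards [X.hw] with l hl
  have h1 : (C / 2) ^ X.m l ≤ C ^ X.m l := pow_le_pow_left₀ (by linarith) (by linarith) _
  refine h1.trans ?_
  rw [hC, ← Finset.prod_pow, C1_mo_eq]
  push_cast
  refine Finset.prod_le_prod (fun v _ => ?_) fun v _ => ?_
  · have := hpos v
    positivity
  · rw [← pow_mul, mul_comm (b v), pow_mul]
    refine pow_le_pow_left₀ ?_ ?_ _
    · have := hpos v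
      positivity
    · unfold vz
      push_cast
      rw [inv_pow, ← pow_mul]
      refine inv_anti₀ (pow_pos (by linarith [hpos v]) _) ?_
      exact pow_le_pow_right₀ (hpos v) (hl v.2)

lemma C1_nine {κ : ℕ} (X : Cx κ) (g : Rv κ) : Bdd X fun l => ((evw (X.w l) g : ℚ) : ℝ) := by
  obtain ⟨S, hS⟩ : ∃ S : ℝ, S = ∑ b ∈ g.support, |((g.coeff b : ℚ) : ℝ)| := ⟨_, rfl⟩
  have hS0 : 0 ≤ S := by
    rw [hS]
    exact Finset.sum_nonneg fun b _ => abs_nonneg _
  refine ⟨S + 1, by linarith, ?_⟩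
  filter_upwards [X.hm 1] with l hl
  have h1 : |((evw (X.w l) g : ℚ) : ℝ)| ≤ S := by
    rw [C1_eval]
    push_cast
    refine (Finset.abs_sum_le_sum_abs _ _).trans ?_
    rw [hS]
    refine Finset.sum_le_sum fun b _ => ?_
    rw [abs_mul]
    have h2 : |((mo (X.w l) b : ℚ) : ℝ)| ≤ 1 := by
      have h3 := C1_pos (X.w l) b
      rw [abs_of_nonneg (by exact_mod_cast h3.1.le)]
      exact_mod_cast h3.2
    exact mul_le_of_le_one_right (abs_nonneg _) h2
  calc |((evw (X.w l) g : ℚ) : ℝ)| ≤ S + 1 := by linarith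
    _ ≤ (S + 1) ^ X.m l := le_self_pow₀ (by linarith) (by omega)

theorem prfC1 : C1 := by
  intro κ
  refine ⟨C1_add, fun w => Finsupp.prod_zero_index, C1_pos, C1_eval, fun w b c => ?_, C1_six,
    C1_seven, C1_eight, C1_nine⟩
  unfold evw
  rw [MvPolynomial.aeval_monomial]
  rfl

end Pool.Agent.Work.MP_f1a024_nt.TU
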