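import Pool.Agent.Work.MP_f1a024_nt.TU.Stmts

/-!
# Block TU, item C2: different monomials are not proportional
-/

namespace Pool.Agent.Work.MP_f1a024_nt.TU

open Finset MvPolynomial Filter

theorem prfC2 (hC1 : C1) : C2 := by
  intro κ X a b c hab
  obtain ⟨-, -, h3, -, -, h6, -⟩ := hC1 κ
  by_contra hcon
  have H : ∀ᶠ l : ℕ in (X.𝒰 : Filter ℕ), mo (X.w l) a = c * mo (X.w l) b := by
    have h := (Ultrafilter.eventually_not (f := X.𝒰)).2 hcon
    refine h.mono ?_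
    intro l hl
    exact not_not.1 hl
  have hc : c ≠ 0 := by
    obtain ⟨l, hl⟩ := H.exists
    rintro rfl
    have h1 := (h3 (X.w l) a).1
    rw [hl, zero_mul] at h1
    exact lt_irrefl _ h1
  refine hab (Finsupp.ext ?_)
  rintro ⟨p, i⟩
  have : Fact (Nat.Prime (p : ℕ)) := ⟨p.2⟩
  have hrel : ∀ᶠ l : ℕ in (X.𝒰 : Filter ℕ),
      ∑ i, ((a (p, i) : ℤ) - (b (p, i) : ℤ)) * (X.w l i : ℤ) = -padicValRat p c := by
    refine H.mono ?_
    intro l hl
    have h1 := congrArg (padicNorm (p : ℕ)) hl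
    rw [padicNorm.mul, h6, h6, padicNorm.eq_zpow_of_nonzero hc] at h1
    have hp0 : (((p : ℕ) : ℚ)) ≠ 0 := Nat.cast_ne_zero.2 p.2.ne_zero
    have hp1 : (((p : ℕ) : ℚ)) ≠ 1 := by
      intro h
      exact p.2.one_lt.ne' (by exact_mod_cast h)
    have hpp : (0 : ℚ) < (((p : ℕ) : ℚ)) := Nat.cast_pos.2 p.2.pos
    rw [← zpow_natCast, ← zpow_natCast, ← zpow_add₀ hp0] at h1
    have h2 := zpow_right_injective₀ hpp hp1 h1
    push_cast at h2
    have h4 : ∑ i, ((a (p, i) : ℤ) - (b (p, i) : ℤ)) * (X.w l i : ℤ) =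
        ∑ i, (X.w l i : ℤ) * (a (p, i) : ℤ) - ∑ i, (X.w l i : ℤ) * (b (p, i) : ℤ) := by
      rw [← Finset.sum_sub_distrib]
      refine Finset.sum_congr rfl ?_
      intro j _
      ring
    rw [h4, h2]
    ring
  have h5 := X.hind (fun i => (a (p, i) : ℤ) - (b (p, i) : ℤ)) _ hrel
  have h7 := congrFun h5 i
  have h8 : (a (p, i) : ℤ) - (b (p, i) : ℤ) = 0 := h7
  omega

end Pool.Agent.Work.MP_f1a024_nt.TU
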