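import Pool.Agent.Work.MP_f1a024_nt.TU.Stmts

/-!
# Block TU, item CNTV: boxes
-/

set_option autoImplicit false

namespace Pool.Agent.Work.MP_f1a024_nt.TU

open Finset MvPolynomial Filter

theorem CNTV_card {κ : ℕ} (PP : Finset (Vr κ)) (f : Ev κ) (hf : ∀ p, p ∉ PP → f p = 0) :
    (Iic f).card = ∏ p ∈ PP, (f p + 1) := by
  rw [Finsupp.card_Iic]
  have h1 : ∏ i ∈ f.support, (Iic (f i)).card = ∏ i ∈ f.support, (f i + 1) :=
    Finset.prod_congr rfl fun i _ => Nat.card_Iic (f i)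
  rw [h1]
  refine Finset.prod_subset (fun p hp => ?_) fun p _ hp => ?_
  · by_contra h
    exact (Finsupp.mem_support_iff.1 hp) (hf p h)
  · rw [Finsupp.notMem_support_iff.1 hp, zero_add]

theorem CNTV_real (P g D : ℕ) (η : ℝ) (hD : g ≤ D) (h : (P : ℝ) * g ≤ η * ((D : ℝ) + 1)) :
    (1 - η) * ((D : ℝ) + 1) ^ P ≤ ((D : ℝ) + 1 - g) ^ P := by
  have hD1 : (0 : ℝ) < (D : ℝ) + 1 := by positivity
  have hgD : (g : ℝ) ≤ D := by exact_mod_cast hD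
  have ha : (-2 : ℝ) ≤ -((g : ℝ) / ((D : ℝ) + 1)) := by
    have : (g : ℝ) / ((D : ℝ) + 1) ≤ 1 := (div_le_one hD1).2 (by linarith)
    linarith
  have h1 := one_add_mul_le_pow ha P
  have h2 : (P : ℝ) * ((g : ℝ) / ((D : ℝ) + 1)) ≤ η := by
    rw [← mul_div_assoc, div_le_iff₀ hD1]
    exact h
  have h3 : 1 - η ≤ (1 + -((g : ℝ) / ((D : ℝ) + 1))) ^ P := by
    refine le_trans ?_ h1
    linarith
  have h4 : (1 + -((g : ℝ) / ((D : ℝ) + 1))) * ((D : ℝ) + 1) = (D : ℝ) + 1 - g := by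
    field_simp
    ring
  calc (1 - η) * ((D : ℝ) + 1) ^ P
      ≤ (1 + -((g : ℝ) / ((D : ℝ) + 1))) ^ P * ((D : ℝ) + 1) ^ P :=
        mul_le_mul_of_nonneg_right h3 (by positivity)
    _ = ((D : ℝ) + 1 - g) ^ P := by
        rw [← mul_pow, h4]

theorem CNTV_one {κ : ℕ} (PP : Finset (Vr κ)) (γ δ : Ev κ) (g D : ℕ) (η : ℝ) (hD : g ≤ D)
    (h : (PP.card : ℝ) * g ≤ η * ((D : ℝ) + 1)) (hδ : ∀ p ∈ PP, δ p = D)
    (hδ' : ∀ p, p ∉ PP → δ p = 0) (hγ : ∀ p, γ p ≤ g) :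
    (1 - η) * ((Iic δ).card : ℝ) ≤ ((Iic (δ - γ)).card : ℝ) := by
  rw [CNTV_card PP δ hδ', CNTV_card PP (δ - γ) fun p hp => by
    rw [Finsupp.tsub_apply, hδ' p hp, Nat.zero_sub]]
  have h1 : ∏ p ∈ PP, (δ p + 1) = (D + 1) ^ PP.card := by
    rw [Finset.prod_congr rfl fun p hp => by rw [hδ p hp], Finset.prod_const]
  rw [h1]
  push_cast
  refine (CNTV_real PP.card g D η hD h).trans ?_
  rw [← Finset.prod_const]
  have hgD : (g : ℝ) ≤ D := by exact_mod_cast hD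
  refine Finset.prod_le_prod (fun p _ => by linarith) fun p hp => ?_
  have h2 : (D : ℝ) ≤ (((⇑δ - ⇑γ) p : ℕ) : ℝ) + g := by
    have h3 : D ≤ (⇑δ - ⇑γ) p + g := by
      rw [Pi.sub_apply, hδ p hp]
      have := hγ p
      omega
    exact_mod_cast h3
  linarith

theorem prfCNTV : CNTV := by
  classical
  intro κ γ hκ
  obtain ⟨v₀, -⟩ : ∃ v₀ : Vr κ, True := ⟨(⟨2, Nat.prime_two⟩, ⟨0, hκ⟩), trivial⟩
  obtain ⟨PP, hPP⟩ : ∃ PP : Finset (Vr κ), PP = insert v₀ γ.support := ⟨_, rfl⟩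
  have hv₀ : v₀ ∈ PP := by
    rw [hPP]
    exact Finset.mem_insert_self _ _
  have hγ0 : ∀ p, p ∉ PP → γ p = 0 := by
    intro p hp
    refine Finsupp.notMem_support_iff.1 fun h => hp ?_
    rw [hPP]
    exact Finset.mem_insert_of_mem h
  obtain ⟨g, hg⟩ : ∃ g : ℕ, g = ∑ p ∈ PP, γ p := ⟨_, rfl⟩
  have hb : ∀ p, γ p ≤ g := by
    intro p
    by_cases hp : p ∈ PP
    · rw [hg]
      exact Finset.single_le_sum (f := fun p => γ p) (fun _ _ => Nat.zero_le _) hp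
    · rw [hγ0 p hp]
      exact Nat.zero_le _
  obtain ⟨D, hD⟩ : ∃ D : ℕ, D = 2 * (PP.card * g) + g + 1 := ⟨_, rfl⟩
  have hcond : (PP.card : ℝ) * g ≤ (1 / 2) * ((D : ℝ) + 1) := by
    have h1 : 2 * (PP.card * g) ≤ D + 1 := by omega
    have h2 : (2 : ℝ) * ((PP.card : ℝ) * g) ≤ (D : ℝ) + 1 := by exact_mod_cast h1
    linarith
  let δ : Ev κ := Finsupp.onFinset PP (fun p => if p ∈ PP then D else 0) fun p hp => by
    by_contra h
    exact hp (if_neg h)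
  have hδ : ∀ p ∈ PP, δ p = D := fun p hp => if_pos hp
  have hδ' : ∀ p, p ∉ PP → δ p = 0 := fun p hp => if_neg hp
  refine ⟨δ, fun h => ?_, fun p => ?_, ?_⟩
  · have h1 := hδ v₀ hv₀
    rw [h] at h1
    have h2 : (0 : Ev κ) v₀ = 0 := rfl
    omega
  · by_cases hp : p ∈ PP
    · rw [hδ p hp]
      have := hb p
      omega
    · rw [hγ0 p hp]
      exact Nat.zero_le _
  · have h1 := CNTV_one PP γ δ g D (1 / 2) (by omega) hcond hδ hδ' hb
    have h2 : ((Iic δ).card : ℝ) ≤ 2 * ((Iic (δ - γ)).card : ℝ) := by linarith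
    exact_mod_cast h2

end Pool.Agent.Work.MP_f1a024_nt.TU
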