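import Mathlib
import Pool.Agent.Work.Tools.Subspace.Stmts3
import Pool.Agent.Work.MP_f1a024_nt.AH.Stmts
import Pool.Agent.Work.MP_f1a024_nt.RW.Stmts

/-!
# Block TU: definitions

Exponents `w = (w_1, ..., w_κ)` of natural numbers, variables `z_(p, i)` (`p` prime, `i < κ`) with
the values `p ^ (-w_i)`. `mo w b` is the value of the monomial `z ^ b`, `evw w g` the value of the
polynomial `g`.
-/

namespace Pool.Agent.Work.MP_f1a024_nt.TU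

open Finset MvPolynomial Filter
open Pool.Agent.Work.MP_f1a024_nt.AH (tau PG val)

/-- the variables -/
abbrev Vr (κ : ℕ) : Type := Nat.Primes × Fin κ

/-- the exponents -/
abbrev Ev (κ : ℕ) : Type := Vr κ →₀ ℕ

/-- the polynomials -/
abbrev Rv (κ : ℕ) : Type := MvPolynomial (Vr κ) ℚ

/-- the value of the variable `v` -/
noncomputable def vz {κ : ℕ} (w : Fin κ → ℕ) (v : Vr κ) : ℚ := (((v.1 : ℕ) : ℚ) ^ w v.2)⁻¹

/-- the value of the monomial `z ^ b` -/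
noncomputable def mo {κ : ℕ} (w : Fin κ → ℕ) (b : Ev κ) : ℚ := b.prod fun v k => vz w v ^ k

/-- the value of a polynomial -/
noncomputable def evw {κ : ℕ} (w : Fin κ → ℕ) : Rv κ →ₐ[ℚ] ℚ := MvPolynomial.aeval (vz w)

/-- `g` contains no variable `z_(p, i)` with `p ∈ F` -/
def Free {κ : ℕ} (F : Finset Nat.Primes) (g : Rv κ) : Prop := ∀ v ∈ g.vars, v.1 ∉ F

/-- sequences of exponents `w l`, `l` running through an ultrafilter `𝒰`, at most `K * m l`, with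
`m l` tending to infinity, and without linear relations `∑ e_i w_i = c` -/
structure Cx (κ : ℕ) where
  /-- the ultrafilter -/
  𝒰 : Ultrafilter ℕ
  /-- the size -/
  m : ℕ → ℕ
  /-- the exponents -/
  w : ℕ → Fin κ → ℕ
  /-- the bound -/
  K : ℕ
  hm : ∀ N : ℕ, ∀ᶠ l : ℕ in (𝒰 : Filter ℕ), N ≤ m l
  hw : ∀ᶠ l : ℕ in (𝒰 : Filter ℕ), ∀ i, w l i ≤ K * m l
  hind : ∀ (e : Fin κ → ℤ) (c : ℤ), (∀ᶠ l : ℕ in (𝒰 : Filter ℕ), ∑ i, e i * (w l i : ℤ) = c) →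
    e = 0

/-- `y` is negligible: smaller than `θ ^ m` for every `θ > 0` -/
def Neg {κ : ℕ} (X : Cx κ) (y : ℕ → ℝ) : Prop :=
  ∀ θ : ℝ, 0 < θ → ∀ᶠ l : ℕ in (X.𝒰 : Filter ℕ), |y l| ≤ θ ^ X.m l

/-- `y` is at most exponential in `m` -/
def Bdd {κ : ℕ} (X : Cx κ) (y : ℕ → ℝ) : Prop :=
  ∃ K : ℝ, 1 ≤ K ∧ ∀ᶠ l : ℕ in (X.𝒰 : Filter ℕ), |y l| ≤ K ^ X.m l

/-- `y` is approximated by values of polynomials without variables over `F`, up to `θ ^ m` for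
every `θ > 0` -/
def Apx {κ : ℕ} (X : Cx κ) (F : Finset Nat.Primes) (y : ℕ → ℝ) : Prop :=
  ∀ θ : ℝ, 0 < θ → ∃ g : Rv κ, Free F g ∧
    ∀ᶠ l : ℕ in (X.𝒰 : Filter ℕ), |y l - ((evw (X.w l) g : ℚ) : ℝ)| ≤ θ ^ X.m l

/-- the supremum of all exponents of all `f k` -/
noncomputable def upv {κ : ℕ} {ι : Type} [Fintype ι] (f : ι → Rv κ) : Ev κ :=
  univ.sup fun k => (f k).support.sup id

/-- the box -/
noncomputable def bxv {κ : ℕ} (ι : Type) [Fintype ι] (δ : Ev κ) : Finset (ι × Ev κ) :=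
  univ ×ˢ Iic δ

/-- the shift of `f` by the exponent `a`, as a functional on the functions on the box -/
noncomputable def shv {κ : ℕ} {ι : Type} (f : ι → Rv κ) (a : Ev κ) (i : ι × Ev κ) : ℚ :=
  if a ≤ i.2 then (f i.1).coeff (i.2 - a) else 0

/-- the point `(x_k z ^ b)` -/
noncomputable def ptv {κ : ℕ} {ι : Type} (w : Fin κ → ℕ) (x : ι → ℤ) (i : ι × Ev κ) : ℚ :=
  (x i.1 : ℚ) * mo w i.2

/-- the coordinates `(k, a + β)`, `a ≤ δ'` -/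
noncomputable def eev {κ : ℕ} {ι : Type} [DecidableEq ι] (k : ι) (β δ' : Ev κ) :
    Finset (ι × Ev κ) :=
  (Iic δ').image fun a => (k, a + β)

/-- the forms at the infinite place: the shifts of `f` at the coordinates in `eev k β δ'`, the
coordinates themselves elsewhere -/
noncomputable def lfv {κ : ℕ} {ι : Type} [DecidableEq ι] (f : ι → Rv κ) (k : ι) (β δ' : Ev κ)
    (i j : ι × Ev κ) : ℚ :=
  if i ∈ eev k β δ' then shv f (i.2 - β) j else if i = j then 1 else 0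

/-- `tau` restricted to the integers prime to all `q ∈ Q` -/
noncomputable def tq (Q : Finset Nat.Primes) : ArithmeticFunction ℚ :=
  ⟨fun n => if ∀ q ∈ Q, ¬ (q : ℕ) ∣ n then tau n else 0, by simp⟩

/-- the sequences `n l j` are natural combinations of the `w l i` plus constants -/
def Rep {κ : ℕ} (X : Cx κ) {k : ℕ} (n : ℕ → Fin k → ℕ) (A : Fin k → Fin κ → ℕ) (c : Fin k → ℤ) :
    Prop :=
  ∀ᶠ l : ℕ in (X.𝒰 : Filter ℕ), ∀ j, (n l j : ℤ) = ∑ i, (A j i : ℤ) * (X.w l i : ℤ) + c j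

/-- the arguments: representable, different, at least `m` -/
def Arg {κ : ℕ} (X : Cx κ) {k : ℕ} (n : ℕ → Fin k → ℕ) : Prop :=
  (∃ A c, Rep X n A c) ∧
    ∀ᶠ l : ℕ in (X.𝒰 : Filter ℕ), Function.Injective (n l) ∧ ∀ j, X.m l ≤ n l j

/-- `∏_j T_Q(n_j) ^ (I_j)` -/
noncomputable def tI {k d : ℕ} (Q : Finset Nat.Primes) (n : Fin k → ℕ) (I : Fin k → Fin (d + 1)) :
    ℝ :=
  ∏ j, val (tq Q) (n j) ^ (I j : ℕ)

/-- `∑_I g_I T_Q ^ I` is negligible -/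
def RQ {κ : ℕ} (X : Cx κ) {k d : ℕ} (n : ℕ → Fin k → ℕ) (Q : Finset Nat.Primes)
    (g : (Fin k → Fin (d + 1)) → Rv κ) : Prop :=
  Neg X fun l => ∑ I, ((evw (X.w l) (g I) : ℚ) : ℝ) * tI Q (n l) I

/-- the Euler factors at `q`, cleared: `∏_j (1 - q^(-n_j))^(I_j) (1 + q^(-n_j))^(d - I_j)` -/
noncomputable def eu {k d : ℕ} (q : ℕ) (n : Fin k → ℕ) (I : Fin k → Fin (d + 1)) : ℝ :=
  ∏ j, (1 - ((q : ℝ) ^ n j)⁻¹) ^ (I j : ℕ) * (1 + ((q : ℝ) ^ n j)⁻¹) ^ (d - (I j : ℕ))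

/-- the sequences `n l j` are natural combinations of `κ` sequences of natural numbers, bounded by
a multiple of `m`, plus constants -/
def RepU (𝒰 : Ultrafilter ℕ) (m : ℕ → ℕ) {k : ℕ} (n : ℕ → Fin k → ℕ) (κ : ℕ) : Prop :=
  ∃ (w : ℕ → Fin κ → ℕ) (K : ℕ) (A : Fin k → Fin κ → ℕ) (c : Fin k → ℤ),
    (∀ᶠ l : ℕ in (𝒰 : Filter ℕ), ∀ i, w l i ≤ K * m l) ∧
      ∀ᶠ l : ℕ in (𝒰 : Filter ℕ), ∀ j, (n l j : ℤ) = ∑ i, (A j i : ℤ) * (w l i : ℤ) + c j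

end Pool.Agent.Work.MP_f1a024_nt.TU
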