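import Pool.Agent.Work.MP_f1a024_nt.TU.Stmts

/-!
# Block TU: the Euler factor at `q` (item EU)
-/

namespace Pool.Agent.Work.MP_f1a024_nt.TU

open Finset MvPolynomial Filter
open Pool.Agent.Work.MP_f1a024_nt.AH (tau PG val D1 D2 D4 D10a D10b)

/-- the arithmetic function with the values `1` at `1` and `c` at `q` -/
def EU_e (c : ℚ) (q : ℕ) : ArithmeticFunction ℚ :=
  ⟨fun n => if n = 0 then 0 else if n = 1 then 1 else if n = q then c else 0, by simp⟩

theorem EU_e_apply (c : ℚ) (q n : ℕ) :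
    EU_e c q n = if n = 0 then 0 else if n = 1 then 1 else if n = q then c else 0 := rfl

theorem EU_val_e (c : ℚ) (q : ℕ) (hq : q.Prime) (m : ℕ) :
    val (EU_e c q) m = 1 + (c : ℝ) * ((q : ℝ) ^ m)⁻¹ := by
  unfold AH.val
  rw [tsum_eq_sum (s := {1, q})]
  · rw [Finset.sum_pair hq.one_lt.ne]
    rw [EU_e_apply, EU_e_apply, if_neg one_ne_zero, if_pos rfl, if_neg hq.ne_zero,
      if_neg hq.one_lt.ne', if_pos rfl]
    simp [div_eq_mul_inv]
  · intro b hb
    simp only [Finset.mem_insert, Finset.mem_singleton, not_or] at hb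
    rw [EU_e_apply, if_neg hb.1, if_neg hb.2]
    simp

theorem EU_PG_e (c : ℚ) (q : ℕ) (hc : |(c : ℝ)| ≤ 1) : PG (EU_e c q) := by
  refine ⟨1, 0, fun n => ?_⟩
  rw [EU_e_apply]
  split_ifs <;> simp [hc]

theorem EU_mul (c : ℚ) (q : ℕ) (hq : q.Prime) (f : ArithmeticFunction ℚ) (n : ℕ) (hn : n ≠ 0) :
    (EU_e c q * f) n = f n + c * (if q ∣ n then f (n / q) else 0) := by
  rw [ArithmeticFunction.mul_apply, Nat.sum_divisorsAntidiagonal (f := fun a b => EU_e c q a * f b)]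
  have h1 : ∀ i ∈ n.divisors, EU_e c q i * f (n / i) =
      (if i = 1 then f (n / i) else 0) + (if i = q then c * f (n / i) else 0) := by
    intro i hi
    have hi0 : i ≠ 0 := by
      rintro rfl
      exact hn (Nat.eq_zero_of_zero_dvd (Nat.dvd_of_mem_divisors hi))
    rw [EU_e_apply, if_neg hi0]
    by_cases h : i = 1
    · rw [if_pos h, if_pos h, if_neg (by rw [h]; exact hq.one_lt.ne)]
      ring
    · rw [if_neg h, if_neg h]
      by_cases h' : i = q
      · rw [if_pos h', if_pos h']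
        ring
      · rw [if_neg h', if_neg h']
        ring
  rw [Finset.sum_congr rfl h1, Finset.sum_add_distrib, Finset.sum_ite_eq', Finset.sum_ite_eq']
  rw [if_pos (Nat.one_mem_divisors.2 hn), Nat.div_one]
  congr 1
  by_cases h : q ∣ n
  · rw [if_pos (Nat.mem_divisors.2 ⟨h, hn⟩), if_pos h]
  · rw [if_neg (fun h' => h (Nat.dvd_of_mem_divisors h')), if_neg h, mul_zero]

theorem EU_tq_apply (Q : Finset Nat.Primes) (n : ℕ) :
    tq Q n = if ∀ q ∈ Q, ¬ (q : ℕ) ∣ n then tau n else 0 := rfl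

theorem EU_PG_tq (h : PG tau) (Q : Finset Nat.Primes) : PG (tq Q) := by
  obtain ⟨C, A, hA⟩ := h
  refine ⟨C, A, fun n => ?_⟩
  rw [EU_tq_apply]
  split_ifs
  · exact hA n
  · rw [Rat.cast_zero, abs_zero]
    positivity

/-- the values at `q ^ b * n'` -/
theorem EU_tq_pow (hD10b : D10b) (Q : Finset Nat.Primes) (q : Nat.Primes) (hq : q ∉ Q) (b n' : ℕ)
    (hn' : ¬ (q : ℕ) ∣ n') : tq Q ((q : ℕ) ^ b * n') = tau ((q : ℕ) ^ b) * tq Q n' := by
  have h1 : (∀ r ∈ Q, ¬ (r : ℕ) ∣ (q : ℕ) ^ b * n') ↔ ∀ r ∈ Q, ¬ (r : ℕ) ∣ n' := by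
    constructor
    · intro h r hr hd
      exact h r hr (Dvd.dvd.mul_left hd _)
    · intro h r hr hd
      rcases (Nat.Prime.dvd_mul r.2).1 hd with h2 | h2
      · have h3 := (Nat.prime_dvd_prime_iff_eq r.2 q.2).1 (r.2.dvd_of_dvd_pow h2)
        exact hq ((Nat.Primes.coe_nat_inj r q).1 h3 ▸ hr)
      · exact h r hr h2
  rw [EU_tq_apply, EU_tq_apply]
  by_cases h : ∀ r ∈ Q, ¬ (r : ℕ) ∣ n'
  · rw [if_pos h, if_pos (h1.2 h)]
    refine hD10b.1.map_mul_of_coprime ?_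
    exact Nat.Coprime.pow_left _ ((Nat.Prime.coprime_iff_not_dvd q.2).2 hn')
  · rw [if_neg h, if_neg (fun h' => h (h1.1 h')), mul_zero]

theorem EU_key (hD10b : D10b) (hTPW : TPW) (Q : Finset Nat.Primes) (q : Nat.Primes)
    (hq : q ∉ Q) : EU_e 1 (q : ℕ) * tq Q = EU_e (-1) (q : ℕ) * tq (insert q Q) := by
  ext n
  by_cases hn : n = 0
  · subst hn
    rw [ArithmeticFunction.map_zero, ArithmeticFunction.map_zero]
  rw [EU_mul 1 q q.2 _ n hn, EU_mul (-1) q q.2 _ n hn]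
  by_cases hqn : (q : ℕ) ∣ n
  · rw [if_pos hqn, if_pos hqn]
    obtain ⟨a, n', hn', hnn⟩ := Nat.exists_eq_pow_mul_and_not_dvd hn (q : ℕ) q.2.one_lt.ne'
    have ha : a ≠ 0 := by
      rintro rfl
      rw [pow_zero, one_mul] at hnn
      rw [hnn] at hqn
      exact hn' hqn
    obtain ⟨b, rfl⟩ := Nat.exists_eq_succ_of_ne_zero ha
    have hdiv : n / (q : ℕ) = (q : ℕ) ^ b * n' := by
      rw [hnn, pow_succ, mul_assoc, mul_comm (q : ℕ) n', ← mul_assoc,
        Nat.mul_div_cancel _ q.2.pos]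
    have h0 : tq (insert q Q) n = 0 := by
      rw [EU_tq_apply, if_neg]
      intro h
      exact h q (Finset.mem_insert_self _ _) hqn
    rw [h0, hdiv]
    rw [hnn, EU_tq_pow hD10b Q q hq _ _ hn', EU_tq_pow hD10b Q q hq _ _ hn']
    rw [hTPW _ _ q.2 (Nat.succ_le_succ (Nat.zero_le b))]
    rcases Nat.eq_zero_or_pos b with hb | hb
    · subst hb
      rw [pow_zero, one_mul, one_mul, hD10b.1.map_one]
      have h2 : tq (insert q Q) n' = tq Q n' := by
        rw [EU_tq_apply, EU_tq_apply]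
        refine if_congr ?_ rfl rfl
        rw [Finset.forall_mem_insert]
        exact ⟨fun h => h.2, fun h => ⟨hn', h⟩⟩
      rw [h2, Nat.succ_eq_add_one, zero_add, pow_one]
      ring
    · have h2 : tq (insert q Q) ((q : ℕ) ^ b * n') = 0 := by
        rw [EU_tq_apply, if_neg]
        intro h
        exact h q (Finset.mem_insert_self _ _)
          (Dvd.dvd.mul_right (dvd_pow_self _ hb.ne') _)
      rw [h2, hTPW _ _ q.2 hb, pow_succ]
      ring
  · rw [if_neg hqn, if_neg hqn, mul_zero, mul_zero, add_zero, add_zero, EU_tq_apply, EU_tq_apply]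
    refine if_congr ?_ rfl rfl
    rw [Finset.forall_mem_insert]
    exact ⟨fun h => ⟨hqn, h⟩, fun h => h.2⟩

theorem prfEU (hD2 : D2) (hD10a : D10a) (hD10b : D10b) (hTPW : TPW) : EU := by
  intro Q q hq
  have hP1 := EU_PG_tq hD10a.1 Q
  have hP2 := EU_PG_tq hD10a.1 (insert q Q)
  have hE1 : PG (EU_e 1 (q : ℕ)) := EU_PG_e 1 q (by norm_num)
  have hE2 : PG (EU_e (-1) (q : ℕ)) := EU_PG_e (-1) q (by norm_num)
  obtain ⟨M1, h1⟩ := hD2.2.2 _ _ hE1 hP1
  obtain ⟨M2, h2⟩ := hD2.2.2 _ _ hE2 hP2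
  refine ⟨max M1 M2, fun n hn => ?_⟩
  have e1 := h1 n (le_trans (le_max_left _ _) hn)
  have e2 := h2 n (le_trans (le_max_right _ _) hn)
  rw [EU_val_e 1 q q.2] at e1
  rw [EU_val_e (-1) q q.2] at e2
  rw [EU_key hD10b hTPW Q q hq, e2] at e1
  rw [Rat.cast_one, one_mul] at e1
  rw [← e1]
  push_cast
  ring

end Pool.Agent.Work.MP_f1a024_nt.TU
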