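import Pool.Agent.Work.MP_f1a024_nt.TU.Stmts

namespace Pool.Agent.Work.MP_f1a024_nt.TU

open Finset MvPolynomial Filter

/-- the numerical inequality -/
theorem LA_num (N T c m : ℕ) (B θ₀ A L y : ℝ) (hB : 1 ≤ B) (hθ₀ : 0 < θ₀) (hA : 0 < A)
    (hL0 : 0 ≤ L) (hy : 0 < y) (hT : 1 ≤ T) (hc : c ≤ 2 * N * T)
    (hL : L ≤ (N + 1) * (B * (θ₀ / (8 * B ^ (2 * N + 1)))) ^ m)
    (hyA : θ₀ ^ m / 2 ≤ A * y) (hm : 2 * A * (N + 1) ≤ 2 ^ m) :
    L ^ T * (B ^ m) ^ (c - T) * (y⁻¹) ^ T ≤ (1 / 4 : ℝ) ^ m := by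
  have hB0 : 0 < B := lt_of_lt_of_le one_pos hB
  have hBm : 1 ≤ B ^ m := one_le_pow₀ hB
  have hθm : 0 < θ₀ ^ m := pow_pos hθ₀ m
  have hyi : y⁻¹ ≤ 2 * A / θ₀ ^ m := by
    rw [inv_le_comm₀ hy (by positivity), inv_div, div_le_iff₀ (by positivity)]
    nlinarith
  have h1 : (B ^ m) ^ (c - T) ≤ (B ^ m) ^ (2 * N * T) :=
    pow_le_pow_right₀ hBm (le_trans (Nat.sub_le _ _) hc)
  have h2 : L ^ T * (B ^ m) ^ (c - T) * (y⁻¹) ^ T ≤
      ((N + 1) * (B * (θ₀ / (8 * B ^ (2 * N + 1)))) ^ m) ^ T * (B ^ m) ^ (2 * N * T) *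
        (2 * A / θ₀ ^ m) ^ T := by
    apply mul_le_mul
    · apply mul_le_mul
      · exact pow_le_pow_left₀ hL0 hL T
      · exact h1
      · positivity
      · positivity
    · exact pow_le_pow_left₀ (by positivity) hyi T
    · positivity
    · positivity
  have h3 : ((N + 1) * (B * (θ₀ / (8 * B ^ (2 * N + 1)))) ^ m) ^ T * (B ^ m) ^ (2 * N * T) *
        (2 * A / θ₀ ^ m) ^ T = (2 * A * (N + 1) * (1 / 8) ^ m) ^ T := by
    have e1 : (B ^ m) ^ (2 * N * T) = ((B ^ (2 * N)) ^ m) ^ T := by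
      rw [← pow_mul, ← pow_mul, ← pow_mul]
      congr 1
      ring
    rw [e1, ← mul_pow, ← mul_pow]
    congr 1
    have e2 : (B * (θ₀ / (8 * B ^ (2 * N + 1)))) = (θ₀ / B ^ (2 * N)) * (1 / 8) := by
      rw [pow_succ]
      field_simp
    rw [e2, mul_pow, div_pow]
    have : (B ^ (2 * N)) ^ m ≠ 0 := by positivity
    field_simp
  have h4 : 2 * A * (N + 1) * (1 / 8 : ℝ) ^ m ≤ (1 / 4) ^ m := by
    have : (1 / 8 : ℝ) ^ m = (1 / 2) ^ m * (1 / 4) ^ m := by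
      rw [← mul_pow]; norm_num
    rw [this, ← mul_assoc]
    have h5 : 2 * A * (N + 1) * (1 / 2 : ℝ) ^ m ≤ 1 := by
      have : (1 / 2 : ℝ) ^ m = (2 ^ m)⁻¹ := by
        rw [one_div, inv_pow]
      rw [this, ← div_eq_mul_inv, div_le_one (by positivity)]
      exact hm
    exact mul_le_of_le_one_left (by positivity) h5
  rw [h3] at h2
  refine le_trans h2 ?_
  refine le_trans (pow_le_pow_left₀ (by positivity) h4 T) ?_
  have h6 : (1 / 4 : ℝ) ^ m ≤ 1 := pow_le_one₀ (by norm_num) (by norm_num)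
  calc ((1 / 4 : ℝ) ^ m) ^ T ≤ ((1 / 4 : ℝ) ^ m) ^ 1 :=
        pow_le_pow_of_le_one (by positivity) h6 hT
    _ = (1 / 4 : ℝ) ^ m := pow_one _

/-- a strictly largest monomial -/
theorem LA_top (hC2 : C2) {κ : ℕ} (X : Cx κ) (s : Finset (Ev κ)) (hs : s.Nonempty) :
    ∃ β ∈ s, ∀ᶠ l : ℕ in (X.𝒰 : Filter ℕ), ∀ c ∈ s, c ≠ β → mo (X.w l) c < mo (X.w l) β := by
  have h1 : ∀ᶠ l : ℕ in (X.𝒰 : Filter ℕ), ∀ a ∈ s, ∀ b ∈ s, a ≠ b →
      mo (X.w l) a ≠ mo (X.w l) b := by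
    rw [Filter.eventually_all_finset]
    intro a _
    rw [Filter.eventually_all_finset]
    intro b _
    by_cases hab : a = b
    · exact Filter.Eventually.of_forall fun l h => absurd hab h
    · filter_upwards [hC2 κ X a b 1 hab] with l hl _
      rwa [one_mul] at hl
  have h2 : ∀ᶠ l : ℕ in (X.𝒰 : Filter ℕ), ∃ β ∈ (s : Set (Ev κ)), ∀ c ∈ s, c ≠ β →
      mo (X.w l) c < mo (X.w l) β := by
    filter_upwards [h1] with l hl
    obtain ⟨β, hβ, hmax⟩ := s.exists_max_image (fun b => mo (X.w l) b) hs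
    exact ⟨β, hβ, fun c hc hcβ => lt_of_le_of_ne (hmax c hc) (hl c hc β hβ hcβ)⟩
  obtain ⟨β, hβ, h⟩ := (Ultrafilter.eventually_exists_mem_iff s.finite_toSet).1 h2
  exact ⟨β, hβ, h⟩

theorem prfLA (hNA : NA) (hC1 : C1) (hC2 : C2) (hCNTV : CNTV) (hLAS : LAS) : LA := by
  intro κ hκ X ι _ _ f x k hf hk hx hBd hneg
  obtain ⟨θ₀, hθ₀, hθ₁, hθk⟩ := (hNA κ X).2.2.1 (f k) hk
  -- the bound B
  choose K hK1 hKb using hBd
  set B : ℝ := 1 + ∑ i, K i with hBdef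
  have hK0 : ∀ i, 0 ≤ K i := fun i => le_trans zero_le_one (hK1 i)
  have hB1 : 1 ≤ B := by
    rw [hBdef]
    have : 0 ≤ ∑ i, K i := Finset.sum_nonneg fun i _ => hK0 i
    linarith
  have hKB : ∀ i, K i ≤ B := by
    intro i
    rw [hBdef]
    have : K i ≤ ∑ j, K j := Finset.single_le_sum (fun j _ => hK0 j) (Finset.mem_univ i)
    linarith
  have hB0 : 0 < B := lt_of_lt_of_le one_pos hB1
  have hxB : ∀ᶠ l : ℕ in (X.𝒰 : Filter ℕ), ∀ i, |(x l i : ℝ)| ≤ B ^ X.m l := by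
    rw [Filter.eventually_all]
    intro i
    filter_upwards [hKb i] with l hl
    exact le_trans hl (pow_le_pow_left₀ (hK0 i) (hKB i) _)
  set N : ℕ := Fintype.card ι with hN
  set θ : ℝ := θ₀ / (8 * B ^ (2 * N + 1)) with hθdef
  have hBN : 1 ≤ B ^ (2 * N + 1) := one_le_pow₀ hB1
  have hθ : 0 < θ := by rw [hθdef]; positivity
  have hθ8 : θ ≤ θ₀ / 8 := by
    rw [hθdef]
    apply div_le_div_of_nonneg_left hθ₀.le (by norm_num)
    linarith
  choose g _ hg using fun i => hf i θ hθ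
  have hgall : ∀ᶠ l : ℕ in (X.𝒰 : Filter ℕ), ∀ i,
      |f i l - ((evw (X.w l) (g i) : ℚ) : ℝ)| ≤ θ ^ X.m l := by
    rw [Filter.eventually_all]
    exact hg
  have hgk : ∀ᶠ l : ℕ in (X.𝒰 : Filter ℕ), θ₀ ^ X.m l / 2 ≤ |((evw (X.w l) (g k) : ℚ) : ℝ)| := by
    filter_upwards [hgall, hθk, X.hm 1] with l h1 h2 h3
    have h4 : θ ^ X.m l ≤ θ₀ ^ X.m l / 2 := by
      calc θ ^ X.m l ≤ (θ₀ / 8) ^ X.m l := pow_le_pow_left₀ hθ.le hθ8 _
        _ = θ₀ ^ X.m l / 8 ^ X.m l := div_pow _ _ _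
        _ ≤ θ₀ ^ X.m l / 2 := by
            apply div_le_div_of_nonneg_left (by positivity) (by norm_num)
            calc (2 : ℝ) ≤ 8 ^ 1 := by norm_num
              _ ≤ 8 ^ X.m l := pow_le_pow_right₀ (by norm_num) h3
    have h5 := h1 k
    have h6 : |f k l| - |((evw (X.w l) (g k) : ℚ) : ℝ)| ≤
        |f k l - ((evw (X.w l) (g k) : ℚ) : ℝ)| := abs_sub_abs_le_abs_sub _ _
    linarith
  have hgk0 : g k ≠ 0 := by
    intro h0
    obtain ⟨l, hl⟩ := hgk.exists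
    rw [h0, map_zero, Rat.cast_zero, abs_zero] at hl
    have : 0 < θ₀ ^ X.m l := pow_pos hθ₀ _
    linarith
  obtain ⟨β, hβ, hβtop⟩ := LA_top hC2 X (g k).support (MvPolynomial.support_nonempty.2 hgk0)
  -- the constant A
  set A : ℝ := ∑ b ∈ (g k).support, |((coeff b (g k) : ℚ) : ℝ)| with hAdef
  have hA : 0 < A := by
    rw [hAdef]
    refine lt_of_lt_of_le ?_ (Finset.single_le_sum (f := fun b => |((coeff b (g k) : ℚ) : ℝ)|)
      (fun b _ => abs_nonneg _) hβ)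
    have : coeff β (g k) ≠ 0 := MvPolynomial.mem_support_iff.1 hβ
    positivity
  have hAle : ∀ᶠ l : ℕ in (X.𝒰 : Filter ℕ),
      θ₀ ^ X.m l / 2 ≤ A * ((mo (X.w l) β : ℚ) : ℝ) := by
    filter_upwards [hgk, hβtop] with l h1 h2
    refine le_trans h1 ?_
    rw [(hC1 κ).2.2.2.1 (X.w l) (g k), Rat.cast_sum, hAdef, Finset.sum_mul]
    refine le_trans (Finset.abs_sum_le_sum_abs _ _) (Finset.sum_le_sum fun b hb => ?_)
    rw [Rat.cast_mul, abs_mul]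
    apply mul_le_mul_of_nonneg_left _ (abs_nonneg _)
    have hp : 0 < mo (X.w l) b := ((hC1 κ).2.2.1 (X.w l) b).1
    have hp' : (0 : ℝ) < ((mo (X.w l) b : ℚ) : ℝ) := by exact_mod_cast hp
    rw [abs_of_pos hp']
    by_cases hbβ : b = β
    · rw [hbβ]
    · have := (h2 b hb hbβ).le
      exact_mod_cast this
  -- the linear form
  have hΛ : ∀ᶠ l : ℕ in (X.𝒰 : Filter ℕ),
      |((∑ i, evw (X.w l) (g i) * (x l i : ℚ) : ℚ) : ℝ)| ≤ (N + 1) * (B * θ) ^ X.m l := by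
    filter_upwards [hneg θ hθ, hgall, hxB] with l h1 h2 h3
    have e1 : ((∑ i, evw (X.w l) (g i) * (x l i : ℚ) : ℚ) : ℝ) =
        ∑ i, (x l i : ℝ) * f i l -
          ∑ i, (x l i : ℝ) * (f i l - ((evw (X.w l) (g i) : ℚ) : ℝ)) := by
      rw [← Finset.sum_sub_distrib, Rat.cast_sum]
      refine Finset.sum_congr rfl fun i _ => ?_
      rw [Rat.cast_mul, Rat.cast_intCast]
      ring
    rw [e1]
    have h4 : |∑ i, (x l i : ℝ) * (f i l - ((evw (X.w l) (g i) : ℚ) : ℝ))| ≤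
        N * (B ^ X.m l * θ ^ X.m l) := by
      refine le_trans (Finset.abs_sum_le_sum_abs _ _) ?_
      calc ∑ i, |(x l i : ℝ) * (f i l - ((evw (X.w l) (g i) : ℚ) : ℝ))| ≤
          ∑ _i : ι, B ^ X.m l * θ ^ X.m l := by
            refine Finset.sum_le_sum fun i _ => ?_
            rw [abs_mul]
            exact mul_le_mul (h3 i) (h2 i) (abs_nonneg _) (by positivity)
        _ = N * (B ^ X.m l * θ ^ X.m l) := by
            rw [Finset.sum_const, Finset.card_univ, nsmul_eq_mul]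
    have h5 : θ ^ X.m l ≤ B ^ X.m l * θ ^ X.m l :=
      le_mul_of_one_le_left (by positivity) (one_le_pow₀ hB1)
    rw [mul_pow]
    calc |∑ i, (x l i : ℝ) * f i l -
          ∑ i, (x l i : ℝ) * (f i l - ((evw (X.w l) (g i) : ℚ) : ℝ))| ≤
        |∑ i, (x l i : ℝ) * f i l| +
          |∑ i, (x l i : ℝ) * (f i l - ((evw (X.w l) (g i) : ℚ) : ℝ))| := abs_sub _ _
      _ ≤ θ ^ X.m l + N * (B ^ X.m l * θ ^ X.m l) := add_le_add h1 h4
      _ ≤ (N + 1) * (B ^ X.m l * θ ^ X.m l) := by linarith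
  -- the box
  obtain ⟨δ, hδ0, hδ, hcard⟩ := hCNTV κ (upv g) hκ
  set T : ℕ := (Iic (δ - upv g)).card with hT
  have hT1 : 1 ≤ T := by
    rw [hT]
    exact Finset.card_pos.2 ⟨0, Finset.mem_Iic.2 zero_le⟩
  have hbx : (bxv ι δ).card ≤ 2 * N * T := by
    have : (bxv ι δ).card = N * (Iic δ).card := by
      rw [bxv, Finset.card_product, Finset.card_univ]
    rw [this]
    calc N * (Iic δ).card ≤ N * (2 * T) := Nat.mul_le_mul_left _ hcard
      _ = 2 * N * T := by ring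
  obtain ⟨M, hM⟩ := exists_nat_ge (2 * A * (N + 1))
  refine hLAS κ X ι g k β δ x B hβ hβtop hδ hδ0 hB1 (hx.and hxB) ?_
  filter_upwards [hΛ, hAle, X.hm M] with l h1 h2 h3
  have hp : 0 < mo (X.w l) β := ((hC1 κ).2.2.1 (X.w l) β).1
  have hp' : (0 : ℝ) < ((mo (X.w l) β : ℚ) : ℝ) := by exact_mod_cast hp
  have h2m : 2 * A * (N + 1) ≤ 2 ^ X.m l := by
    calc 2 * A * (N + 1) ≤ (M : ℝ) := hM
      _ ≤ (X.m l : ℝ) := by exact_mod_cast h3
      _ ≤ ((2 ^ X.m l : ℕ) : ℝ) := by exact_mod_cast Nat.lt_two_pow_self.le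
      _ = 2 ^ X.m l := by push_cast; rfl
  exact LA_num N T (bxv ι δ).card (X.m l) B θ₀ A _ _ hB1 hθ₀ hA (abs_nonneg _) hp' hT1 hbx h1 h2
    h2m

end Pool.Agent.Work.MP_f1a024_nt.TU
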