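import Pool.Agent.Work.MP_f1a024_nt.TU.Stmts

/-!
Item LAS of block TU: the Subspace theorem.
-/

namespace Pool.Agent.Work.MP_f1a024_nt.TU

open Finset MvPolynomial Filter
open Pool.Agent.Work.MP_f1a024_nt.AH (tau PG val D1 D2 D4 D10a D10b)

theorem LAS_powRpow (R : ℝ) (hR : 2 ≤ R) (m : ℕ) :
    (R ^ m) ^ (-(Real.log 4 / Real.log R)) = (1 / 4 : ℝ) ^ m := by
  have hR0 : 0 < R := by linarith
  have hlR : Real.log R ≠ 0 := (Real.log_pos (by linarith)).ne'
  rw [← Real.rpow_natCast R m, ← Real.rpow_mul hR0.le]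
  have h1 : (m : ℝ) * -(Real.log 4 / Real.log R) = -(Real.log 4 / Real.log R) * m := by ring
  rw [h1, Real.rpow_mul hR0.le, Real.rpow_natCast]
  congr 1
  rw [Real.rpow_def_of_pos hR0]
  have h2 : Real.log R * -(Real.log 4 / Real.log R) = - Real.log 4 := by
    field_simp
  rw [h2, Real.exp_neg, Real.exp_log (by norm_num)]
  norm_num

theorem LAS_coeff {κ : ℕ} {ι : Type} (c : ι × Ev κ → ℚ) (δ b : Ev κ) (i : ι) (hb : b ≤ δ) :
    (∑ b' ∈ Iic δ, monomial b' (c (i, b')) : Rv κ).coeff b = c (i, b) := by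
  classical
  rw [MvPolynomial.coeff_sum]
  simp only [MvPolynomial.coeff_monomial]
  rw [Finset.sum_ite_eq' (Iic δ) b (fun b' => c (i, b')), if_pos (Finset.mem_Iic.2 hb)]

theorem prfLAS (hC1 : C1) (hLAT : LAT) (hPRV : PRV)
    (hSub : Pool.Agent.Work.MP_f1a024_nt.RW.SubST) : LAS := by
  intro κ X ι _ _ f k β δ x B hβ hstr hup hδ hB hx hprod
  obtain ⟨c1, c2, c3, c4, c5, c6, c7, c8, c9⟩ := hC1 κ
  classical
  set PP : Finset Nat.Primes := δ.support.image (fun v => v.1) with hPP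
  have hPPδ : ∀ v ∈ δ.support, v.1 ∈ PP := fun v hv => Finset.mem_image_of_mem _ hv
  have hPPne : PP.Nonempty := by
    rw [hPP]
    apply Finset.Nonempty.image
    rw [Finsupp.support_nonempty_iff]
    exact hδ
  obtain ⟨c, hc0, hc1, hcev⟩ := c8 X δ
  set R : ℝ := B / c with hR
  have hR2 : 2 ≤ R := by
    rw [hR, le_div_iff₀ hc0]
    linarith
  set σ : ℝ := Real.log 4 / Real.log R with hσ
  have hσ0 : 0 < σ := div_pos (Real.log_pos (by norm_num)) (Real.log_pos (by linarith))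
  have hcard : (∅ : Finset Unit).card + 2 ≤ (bxv ι δ).card := by
    unfold bxv
    rw [Finset.card_product, Finset.card_empty, Finset.card_univ]
    have h1 : 0 < Fintype.card ι := Fintype.card_pos_iff.2 ⟨k⟩
    have h2 : 2 ≤ (Iic δ).card := by
      have h3 : ({0, δ} : Finset (Ev κ)) ⊆ Iic δ := by
        intro b hb
        rw [Finset.mem_insert, Finset.mem_singleton] at hb
        rw [Finset.mem_Iic]
        rcases hb with rfl | rfl
        · exact bot_le
        · exact le_rfl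
      have h4 : ({0, δ} : Finset (Ev κ)).card = 2 := Finset.card_pair (Ne.symm hδ)
      calc 2 = ({0, δ} : Finset (Ev κ)).card := h4.symm
        _ ≤ _ := Finset.card_le_card h3
    nlinarith
  obtain ⟨l₀, hl₀⟩ := hstr.exists
  obtain ⟨𝒢, h𝒢f, h𝒢n, hmain⟩ := hSub (ι × Ev κ) Unit (bxv ι δ) ∅ (fun _ _ => 0) PP ∅ (fun _ => ∅)
    (lfv f k β (δ - upv f)) hPPne hcard (Finset.empty_subset _) rfl
    (fun p _ => ⟨Finset.empty_subset _, rfl⟩)
    (by
      intro y _ hy
      rw [Finset.sdiff_empty] at hy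
      exact hLAT κ ι f k β δ (X.w l₀) hβ hl₀ hup y hy)
    (by
      intro p _ y _ hy
      rw [Finset.sdiff_empty] at hy
      exact hy) σ hσ0
  have hev : ∀ᶠ l : ℕ in (X.𝒰 : Filter ℕ), ∃ c ∈ 𝒢,
      ∑ i ∈ bxv ι δ, c i * ptv (X.w l) (x l) i = 0 := by
    filter_upwards [hx, hprod, hcev] with l h1 h2 h3
    obtain ⟨hxn, hxB⟩ := h1
    have hBm : 1 ≤ B ^ X.m l := one_le_pow₀ hB
    have hmem : ∀ i ∈ bxv ι δ, i.2 ≤ δ := by
      intro i hi
      unfold bxv at hi
      exact Finset.mem_Iic.1 (Finset.mem_product.1 hi).2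
    apply hmain (ptv (X.w l) (x l)) (B ^ X.m l) (R ^ X.m l)
      (fun p => ((padicNorm p (mo (X.w l) δ) : ℚ) : ℝ))
    · intro a ha
      exact absurd ha (Finset.notMem_empty _)
    · have h4 : ∃ i, x l i ≠ 0 := by
        by_contra hcon
        push Not at hcon
        exact hxn (funext hcon)
      obtain ⟨i, hi⟩ := h4
      refine ⟨(i, 0), ?_, ?_⟩
      · unfold bxv
        exact Finset.mem_product.2 ⟨Finset.mem_univ _, Finset.mem_Iic.2 bot_le⟩
      · unfold ptv
        show (x l i : ℚ) * mo (X.w l) 0 ≠ 0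
        rw [c2, mul_one]
        exact_mod_cast hi
    · intro q hq i hi
      have : Fact (Nat.Prime (q : ℕ)) := ⟨q.2⟩
      have hb := hmem i hi
      unfold ptv
      rw [padicNorm.mul, c6]
      have h5 : ∑ j, X.w l j * i.2 (q, j) = 0 := by
        apply Finset.sum_eq_zero
        intro j _
        have h6 : δ (q, j) = 0 := by
          by_contra hne
          exact hq (hPPδ (q, j) (Finsupp.mem_support_iff.2 hne))
        have h7 : i.2 (q, j) ≤ δ (q, j) := hb (q, j)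
        have h8 : i.2 (q, j) = 0 := by omega
        rw [h8, mul_zero]
      rw [h5, pow_zero, mul_one]
      exact padicNorm.of_int (x l i.1)
    · intro i _
      unfold ptv
      push_cast
      rw [abs_mul]
      obtain ⟨m1, m2⟩ := c3 (X.w l) i.2
      have m1' : (0 : ℝ) < ((mo (X.w l) i.2 : ℚ) : ℝ) := by exact_mod_cast m1
      have m2' : ((mo (X.w l) i.2 : ℚ) : ℝ) ≤ 1 := by exact_mod_cast m2
      rw [abs_of_pos m1']
      calc |(x l i.1 : ℝ)| * ((mo (X.w l) i.2 : ℚ) : ℝ) ≤ B ^ X.m l * 1 :=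
            mul_le_mul (hxB i.1) m2' m1'.le (by linarith)
        _ = B ^ X.m l := mul_one _
    · intro p _ i hi
      have : Fact (Nat.Prime (p : ℕ)) := ⟨p.2⟩
      have hb := hmem i hi
      have h5 : padicNorm p (ptv (X.w l) (x l) i) ≤ padicNorm p (mo (X.w l) δ) := by
        unfold ptv
        rw [padicNorm.mul, c6, c6]
        have h6 : padicNorm p ((x l i.1 : ℤ) : ℚ) ≤ 1 := padicNorm.of_int (x l i.1)
        have h7 : ∑ j, X.w l j * i.2 (p, j) ≤ ∑ j, X.w l j * δ (p, j) :=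
          Finset.sum_le_sum fun j _ => Nat.mul_le_mul_left _ (hb (p, j))
        have h8 : (1 : ℚ) ≤ ((p : ℕ) : ℚ) := by exact_mod_cast p.2.one_lt.le
        have h9 : (((p : ℕ) : ℚ)) ^ (∑ j, X.w l j * i.2 (p, j)) ≤
            ((p : ℕ) : ℚ) ^ (∑ j, X.w l j * δ (p, j)) := pow_le_pow_right₀ h8 h7
        calc padicNorm p ((x l i.1 : ℤ) : ℚ) * ((p : ℕ) : ℚ) ^ (∑ j, X.w l j * i.2 (p, j))
            ≤ 1 * ((p : ℕ) : ℚ) ^ (∑ j, X.w l j * δ (p, j)) :=
              mul_le_mul h6 h9 (by positivity) zero_le_one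
          _ = _ := one_mul _
      exact_mod_cast h5
    · have h5 : ∏ p ∈ PP, ((padicNorm p (mo (X.w l) δ) : ℚ) : ℝ) =
          (((mo (X.w l) δ)⁻¹ : ℚ) : ℝ) := by
        rw [← c7 (X.w l) δ PP hPPδ]
        push_cast
        rfl
      rw [h5]
      push_cast
      have m1' : (0 : ℝ) < ((mo (X.w l) δ : ℚ) : ℝ) := by exact_mod_cast (c3 (X.w l) δ).1
      have hcm : 0 < c ^ X.m l := pow_pos hc0 _
      have h6 : (((mo (X.w l) δ : ℚ) : ℝ))⁻¹ ≤ (c ^ X.m l)⁻¹ := inv_anti₀ hcm h3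
      calc B ^ X.m l * (((mo (X.w l) δ : ℚ) : ℝ))⁻¹ ≤ B ^ X.m l * (c ^ X.m l)⁻¹ :=
            mul_le_mul_of_nonneg_left h6 (by linarith)
        _ = R ^ X.m l := by rw [hR, div_pow, div_eq_mul_inv]
    · rw [Finset.sdiff_empty, hσ, LAS_powRpow R hR2]
      exact (hPRV κ ι f k β δ (X.w l) (x l) (B ^ X.m l) PP hBm hxB hβ hup hPPδ).trans h2
  rw [Ultrafilter.eventually_exists_mem_iff h𝒢f] at hev
  obtain ⟨c', hc', hrel⟩ := hev
  refine ⟨fun i => ∑ b ∈ Iic δ, monomial b (c' (i, b)), ?_, ?_⟩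
  · intro hg
    obtain ⟨y, -, hy⟩ := h𝒢n c' hc'
    apply hy
    apply Finset.sum_eq_zero
    intro i hi
    have hb : i.2 ≤ δ := by
      unfold bxv at hi
      exact Finset.mem_Iic.1 (Finset.mem_product.1 hi).2
    have h1 := LAS_coeff c' δ i.2 i.1 hb
    have h2 : (∑ b' ∈ Iic δ, monomial b' (c' (i.1, b')) : Rv κ) = 0 := congrFun hg i.1
    rw [h2, MvPolynomial.coeff_zero] at h1
    rw [← h1, zero_mul]
  · filter_upwards [hrel] with l h1
    have h2 : ∑ i, evw (X.w l) (∑ b ∈ Iic δ, monomial b (c' (i, b))) * (x l i : ℚ) =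
        ∑ i ∈ bxv ι δ, c' i * ptv (X.w l) (x l) i := by
      unfold bxv
      rw [Finset.sum_product]
      apply Finset.sum_congr rfl
      intro i _
      rw [map_sum, Finset.sum_mul]
      apply Finset.sum_congr rfl
      intro b _
      rw [c5]
      unfold ptv
      ring
    exact h2.trans h1

end Pool.Agent.Work.MP_f1a024_nt.TU
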