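import Pool.Agent.Work.MP_f1a024_nt.TU.Stmts

/-!
# Block TU: item LAT
-/

set_option autoImplicit false

namespace Pool.Agent.Work.MP_f1a024_nt.TU

open Finset MvPolynomial Filter

theorem LAT_upv {κ : ℕ} {ι : Type} [Fintype ι] (f : ι → Rv κ) (k : ι) (β : Ev κ)
    (h : β ∈ (f k).support) : β ≤ upv f := by
  unfold upv
  exact (Finset.le_sup (f := id) h).trans
    (Finset.le_sup (f := fun k => (f k).support.sup id) (Finset.mem_univ k))

theorem prfLAT (hC1 : C1) (hTRI : Pool.Agent.Work.MP_f1a024_nt.RW.TRI) : LAT := by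
  classical
  intro κ ι _ _ f k β δ w hβ hdom hδ y hy
  obtain ⟨hmul, -, hpos, -⟩ := hC1 κ
  have hβu : β ≤ upv f := LAT_upv f k β hβ
  have hbox : ∀ a ∈ Iic (δ - upv f), (k, a + β) ∈ bxv ι δ := by
    intro a ha
    have ha' : a ≤ δ - upv f := Finset.mem_Iic.1 ha
    refine Finset.mem_product.2 ⟨Finset.mem_univ _, Finset.mem_Iic.2 ?_⟩
    show a + β ≤ δ
    calc a + β ≤ (δ - upv f) + upv f := add_le_add ha' hβu
      _ = δ := tsub_add_cancel_of_le hδ
  have h1 : ∀ i ∈ bxv ι δ, y i ≠ 0 → ∃ a ∈ Iic (δ - upv f), (k, a + β) = i := by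
    intro i hi hne
    by_contra hcon
    have hi' : i ∉ eev k β (δ - upv f) := by
      intro hmem
      unfold eev at hmem
      exact hcon (Finset.mem_image.1 hmem)
    have h2 := hy i hi
    rw [Finset.sum_eq_single i] at h2
    · unfold lfv at h2
      rw [if_neg hi', if_pos rfl, one_mul] at h2
      exact hne h2
    · intro j _ hj
      unfold lfv
      rw [if_neg hi', if_neg (Ne.symm hj), zero_mul]
    · intro h
      exact absurd hi h
  have h2 : ∀ a ∈ Iic (δ - upv f), ∑ i ∈ bxv ι δ, shv f a i * y i = 0 := by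
    intro a ha
    have h3 := hy (k, a + β) (hbox a ha)
    have hmem : ((k, a + β) : ι × Ev κ) ∈ eev k β (δ - upv f) := by
      unfold eev
      exact Finset.mem_image.2 ⟨a, ha, rfl⟩
    rw [← h3]
    refine Finset.sum_congr rfl fun j _ => ?_
    unfold lfv
    rw [if_pos hmem]
    show shv f a j * y j = shv f (a + β - β) j * y j
    rw [add_tsub_cancel_right]
  refine hTRI (ι × Ev κ) (Ev κ) ℚᵒᵈ (bxv ι δ) (Iic (δ - upv f)) (fun a => shv f a)
    (fun a => (k, a + β)) (fun a => OrderDual.toDual (mo w a)) hbox ?_ ?_ y h1 h2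
  · intro a _
    show shv f a (k, a + β) ≠ 0
    unfold shv
    rw [if_pos (show a ≤ a + β from le_self_add)]
    show (f k).coeff (a + β - a) ≠ 0
    rw [add_tsub_cancel_left]
    exact MvPolynomial.mem_support_iff.1 hβ
  · intro a _ a' _ h
    unfold shv at h
    split_ifs at h with hle
    · have h3 : (f k).coeff (a' + β - a) ≠ 0 := h
      have h4 : a' + β - a ∈ (f k).support := MvPolynomial.mem_support_iff.2 h3
      have hle' : a ≤ a' + β := hle
      have h5 : a + (a' + β - a) = a' + β := add_tsub_cancel_of_le hle'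
      by_cases hc : a' + β - a = β
      · left
        rw [hc] at h5
        exact (add_right_cancel h5).symm
      · right
        have h6 := hdom _ h4 hc
        have h7 := congrArg (mo w) h5
        rw [hmul, hmul] at h7
        show mo w a' < mo w a
        have h8 : mo w a' * mo w β < mo w a * mo w β := by
          rw [← h7]
          exact mul_lt_mul_of_pos_left h6 (hpos w a).1
        exact lt_of_mul_lt_mul_right h8 (hpos w β).1.le
    · exact absurd rfl h

end Pool.Agent.Work.MP_f1a024_nt.TU
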