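import Pool.Agent.Work.MP_f1a024_nt.TU.Stmts

/-!
# Item LB of block TU: independence of the products of powers of the `t(n_j)`
-/

set_option autoImplicit false

namespace Pool.Agent.Work.MP_f1a024_nt.TU

open Finset MvPolynomial Filter
open Pool.Agent.Work.MP_f1a024_nt.AH (tau PG val D1 D2 D4 D10a D10b)

/-- values of a constant multiple -/
theorem LB_evC {κ : ℕ} (w : Fin κ → ℕ) (a : ℚ) (g : Rv κ) :
    evw w (C a * g) = a * evw w g := by
  unfold evw
  rw [map_mul, MvPolynomial.aeval_C]
  rfl

/-- a prime outside of a finite set and above a bound -/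
theorem LB_prime (S : Finset Nat.Primes) (N : ℕ) : ∃ q : Nat.Primes, q ∉ S ∧ N < (q : ℕ) := by
  obtain ⟨p, hp, hpp⟩ := Nat.exists_infinite_primes (N + ∑ r ∈ S, (r : ℕ) + 1)
  refine ⟨⟨p, hpp⟩, ?_, ?_⟩
  · intro hq
    have h1 : ((⟨p, hpp⟩ : Nat.Primes) : ℕ) ≤ ∑ r ∈ S, (r : ℕ) :=
      Finset.single_le_sum (f := fun r : Nat.Primes => (r : ℕ)) (fun _ _ => Nat.zero_le _) hq
    have h2 : p ≤ ∑ r ∈ S, (r : ℕ) := h1
    omega
  · show N < p
    omega

/-- the case of one nonzero coefficient -/
theorem LB_one (hNA : NA) (hC1 : C1) (hB0 : B0) (hTTA : TTA) (κ : ℕ) (X : Cx κ) (k d : ℕ)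
    (n : ℕ → Fin k → ℕ) (hn : Arg X n) (Q : Finset Nat.Primes) (I : Fin k → Fin (d + 1))
    (f : Rv κ) (hf : f ≠ 0) :
    ¬ Neg X fun l => ((evw (X.w l) f : ℚ) : ℝ) * tI Q (n l) I := by
  obtain ⟨-, -, -, -, -, -, -, -, -, -, h11⟩ := hNA κ X
  obtain ⟨b, hb⟩ : f.support.Nonempty := by
    rw [Finset.nonempty_iff_ne_empty]
    intro h
    exact hf (MvPolynomial.support_eq_empty.1 h)
  obtain ⟨-, -, -, -, -, -, -, h8, -⟩ := hC1 κ
  obtain ⟨c', hc', -, hev8⟩ := h8 X b
  have hevB := hB0 κ X f 1 hf one_pos
  have hevT : ∀ᶠ l : ℕ in (X.𝒰 : Filter ℕ), ∀ j : Fin k, 1 / 2 ≤ val (tq Q) (n l j) := by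
    rw [Filter.eventually_all]
    intro j
    exact (hTTA κ X k n hn Q j).2
  refine h11 _ (∏ j : Fin k, (1 / 2 : ℝ) ^ (I j : ℕ)) (Real.exp (-1) * c') ?_ ?_ ?_
  · exact Finset.prod_pos fun j _ => by positivity
  · positivity
  · filter_upwards [hev8, hevB, hevT] with l h8l hBl hTl
    have hB := hBl b hb
    have ht : ∏ j : Fin k, (1 / 2 : ℝ) ^ (I j : ℕ) ≤ tI Q (n l) I := by
      unfold tI
      refine Finset.prod_le_prod (fun j _ => by positivity) fun j _ => ?_
      exact pow_le_pow_left₀ (by norm_num) (hTl j) _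
    have htp : (0 : ℝ) ≤ ∏ j : Fin k, (1 / 2 : ℝ) ^ (I j : ℕ) :=
      Finset.prod_nonneg fun j _ => by positivity
    have hexp : Real.exp (-(1 * (X.m l : ℝ))) = Real.exp (-1) ^ X.m l := by
      rw [← Real.exp_nat_mul]
      congr 1
      ring
    have hbig : (Real.exp (-1) * c') ^ X.m l ≤ |((evw (X.w l) f : ℚ) : ℝ)| := by
      rw [mul_pow]
      refine le_trans ?_ hB
      rw [hexp]
      exact mul_le_mul_of_nonneg_left h8l (by positivity)
    rw [abs_mul, mul_comm]
    refine mul_le_mul hbig ?_ htp (abs_nonneg _)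
    exact le_trans ht (le_abs_self _)

/-- LB -/
theorem prfLB (hNA : NA) (hC1 : C1) (hB0 : B0) (hTTA : TTA) (hHQ : HQ) (hLBa : LBa)
    (hSEP : SEP) : LB := by
  intro κ X k d n hn
  obtain ⟨h1, h2, -, h4, -, -, -, h8, -, -, -⟩ := hNA κ X
  have key : ∀ (s : ℕ) (Q : Finset Nat.Primes) (g : (Fin k → Fin (d + 1)) → Rv κ),
      (univ.filter fun I => g I ≠ 0).card ≤ s → RQ X n Q g → g = 0 := by
    intro s
    induction s with
    | zero =>
      intro Q g hs _
      have h0 : (univ.filter fun I => g I ≠ 0) = ∅ := Finset.card_eq_zero.1 (Nat.le_zero.1 hs)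
      funext I
      by_contra hI
      have : I ∈ (univ.filter fun I => g I ≠ 0) := by
        rw [Finset.mem_filter]
        exact ⟨Finset.mem_univ _, hI⟩
      rw [h0] at this
      exact absurd this (Finset.notMem_empty _)
    | succ s ih =>
      intro Q g hs hR
      by_cases hcard : (univ.filter fun I => g I ≠ 0).card ≤ 1
      · by_contra hg
        obtain ⟨I₀, hI₀⟩ : ∃ I, g I ≠ 0 := by
          by_contra hcon
          push Not at hcon
          exact hg (funext hcon)
        have hall : ∀ I, I ≠ I₀ → g I = 0 := by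
          intro I hI
          by_contra hgI
          rw [Finset.card_le_one] at hcard
          exact hI (hcard I (by rw [Finset.mem_filter]; exact ⟨Finset.mem_univ _, hgI⟩) I₀
            (by rw [Finset.mem_filter]; exact ⟨Finset.mem_univ _, hI₀⟩))
        refine LB_one hNA hC1 hB0 hTTA κ X k d n hn Q I₀ (g I₀) hI₀ ?_
        refine h4 _ _ (Filter.Eventually.of_forall fun l => ?_) hR
        show ∑ I, ((evw (X.w l) (g I) : ℚ) : ℝ) * tI Q (n l) I =
          ((evw (X.w l) (g I₀) : ℚ) : ℝ) * tI Q (n l) I₀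
        rw [Finset.sum_eq_single I₀]
        · intro I _ hI
          rw [hall I hI, map_zero]
          simp
        · intro hI
          exact absurd (Finset.mem_univ _) hI
      · push Not at hcard
        obtain ⟨I₀, hI₀, I₁, hI₁, h01⟩ := Finset.one_lt_card.1 hcard
        rw [Finset.mem_filter] at hI₀ hI₁
        exfalso
        obtain ⟨q, hqS, hqN⟩ := LB_prime
          (Q ∪ univ.biUnion fun I => (g I).vars.image Prod.fst) (3 * k * d)
        rw [Finset.mem_union, not_or] at hqS
        have hfree : ∀ I, Free {q} (g I) := by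
          intro I v hv hvq
          rw [Finset.mem_singleton] at hvq
          refine hqS.2 ?_
          rw [Finset.mem_biUnion]
          refine ⟨I, Finset.mem_univ _, ?_⟩
          rw [Finset.mem_image]
          exact ⟨v, hv, hvq⟩
        choose h hh0 hhe using hHQ κ X k d n hn q
        have hne : h I₀ ≠ h I₁ := by
          intro heq
          have hev : ∀ᶠ l : ℕ in (X.𝒰 : Filter ℕ), I₀ = I₁ := by
            filter_upwards [hhe I₀, hhe I₁, hn.2, X.hm 1] with l ha hb hc hd
            refine hSEP k d (q : ℕ) (n l) I₀ I₁ hqN q.2.two_le hc.1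
              (fun j => le_trans hd (hc.2 j)) ?_
            rw [← ha, ← hb, heq]
          obtain ⟨l, hl⟩ := hev.exists
          exact h01 hl
        obtain ⟨μ, hμ⟩ : ∃ μ, (h I₀).coeff μ ≠ (h I₁).coeff μ := by
          by_contra hcon
          push Not at hcon
          exact hne (MvPolynomial.ext _ _ hcon)
        have R1 := hLBa κ X k d n hn Q q g h hR hqS.1 hfree hhe μ
        have R0 := hLBa κ X k d n hn Q q g h hR hqS.1 hfree hhe 0
        have hR' : RQ X n (insert q Q)
            fun I => C ((h I).coeff μ - (h I₀).coeff μ) * g I := by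
          have hb := h8 (-(((h I₀).coeff μ : ℚ) : ℝ))
          have hs0 := h2 _ _ R0 hb
          have hs1 := h1 _ _ R1 hs0
          refine h4 _ _ (Filter.Eventually.of_forall fun l => ?_) hs1
          show (∑ I, ((evw (X.w l) (C ((h I).coeff μ) * g I) : ℚ) : ℝ) *
              tI (insert q Q) (n l) I) +
            (∑ I, ((evw (X.w l) (C ((h I).coeff 0) * g I) : ℚ) : ℝ) *
              tI (insert q Q) (n l) I) * (-(((h I₀).coeff μ : ℚ) : ℝ)) =
            ∑ I, ((evw (X.w l) (C ((h I).coeff μ - (h I₀).coeff μ) * g I) : ℚ) : ℝ) *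
              tI (insert q Q) (n l) I
          rw [Finset.sum_mul, ← Finset.sum_add_distrib]
          refine Finset.sum_congr rfl fun I _ => ?_
          rw [LB_evC, LB_evC, LB_evC, hh0 I]
          push_cast
          ring
        have hg' := ih (insert q Q) _ ?_ hR'
        · have hz := congrFun hg' I₁
          have hz' : C ((h I₁).coeff μ - (h I₀).coeff μ) * g I₁ = 0 := hz
          rcases mul_eq_zero.1 hz' with hc | hc
          · rw [MvPolynomial.C_eq_zero] at hc
            exact hμ (sub_eq_zero.1 hc).symm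
          · exact hI₁.2 hc
        · have hsub : (univ.filter fun I => C ((h I).coeff μ - (h I₀).coeff μ) * g I ≠ 0) ⊂
              (univ.filter fun I => g I ≠ 0) := by
            rw [Finset.ssubset_iff_of_subset]
            · refine ⟨I₀, ?_, ?_⟩
              · rw [Finset.mem_filter]
                exact hI₀
              · rw [Finset.mem_filter]
                rintro ⟨-, hx⟩
                apply hx
                rw [sub_self, MvPolynomial.C_0, zero_mul]
            · intro I hI
              rw [Finset.mem_filter] at hI ⊢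
              refine ⟨hI.1, fun hx => hI.2 ?_⟩
              rw [hx, mul_zero]
          have := Finset.card_lt_card hsub
          omega
  intro g hg
  exact key _ ∅ g le_rfl hg

end Pool.Agent.Work.MP_f1a024_nt.TU
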