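import Pool.Agent.Work.MP_f1a024_nt.TU.Stmts

/-!
# Item LB1 of block TU: elimination
-/

set_option autoImplicit false

namespace Pool.Agent.Work.MP_f1a024_nt.TU

open Finset MvPolynomial Filter

theorem LB1_sum {ι : Type} [Fintype ι] [DecidableEq ι] {M : Type} [AddCommMonoid M] (F : ι → M)
    (j : ι) : ∑ i, F i = F j + ∑ i : {i // i ≠ j}, F i :=
  Fintype.sum_eq_add_sum_subtype_ne F j

/-- the eliminated sequences -/
noncomputable def LB1_f {κ : ℕ} (X : Cx κ) {ι : Type} (f : ι → ℕ → ℝ) (g : ι → Rv κ) (j : ι)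
    (i : ι) (l : ℕ) : ℝ :=
  ((evw (X.w l) (g j) : ℚ) : ℝ) * f i l - ((evw (X.w l) (g i) : ℚ) : ℝ) * f j l

theorem LB1_apx (hAX : AX) {κ : ℕ} (X : Cx κ) {ι : Type} (f : ι → ℕ → ℝ) (g : ι → Rv κ) (j i : ι)
    (hf : ∀ i, Apx X ∅ (f i)) : Apx X ∅ (LB1_f X f g j i) := by
  obtain ⟨-, hadd, hmul, hev, -, hcon, -⟩ := hAX κ X
  have hfree : ∀ g : Rv κ, Free ∅ g := fun g v _ => by simp
  have h1 := hmul ∅ _ _ (hev ∅ (g j) (hfree _)) (hf i)
  have h2 := hmul ∅ _ _ (hev ∅ (-(g i)) (hfree _)) (hf j)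
  refine hcon ∅ _ _ (Eventually.of_forall fun l => ?_) (hadd ∅ _ _ h1 h2)
  unfold LB1_f
  rw [map_neg, Rat.cast_neg]
  ring

/-- the combination of the eliminated sequences -/
theorem LB1_comb {κ : ℕ} (X : Cx κ) {ι : Type} [Fintype ι] [DecidableEq ι] (f : ι → ℕ → ℝ)
    (g : ι → Rv κ) (j : ι) (h : {i // i ≠ j} → Rv κ) (l : ℕ) :
    ∑ i, ((evw (X.w l) (if hi : i = j then -∑ i' : {i // i ≠ j}, h i' * g i'
        else h ⟨i, hi⟩ * g j) : ℚ) : ℝ) * f i l =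
      ∑ i : {i // i ≠ j}, ((evw (X.w l) (h i) : ℚ) : ℝ) * LB1_f X f g j i l := by
  rw [LB1_sum _ j, dif_pos rfl]
  have h1 : ∀ i : {i // i ≠ j}, ((evw (X.w l) (if hi : (i : ι) = j then
      -∑ i' : {i // i ≠ j}, h i' * g i' else h ⟨i, hi⟩ * g j) : ℚ) : ℝ) * f i l =
      ((evw (X.w l) (h i) : ℚ) : ℝ) * ((evw (X.w l) (g j) : ℚ) : ℝ) * f i l := by
    intro i
    rw [dif_neg i.2, map_mul, Rat.cast_mul]
  rw [Finset.sum_congr rfl fun i _ => h1 i, map_neg, map_sum, Rat.cast_neg, Rat.cast_sum,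
    neg_mul, Finset.sum_mul, ← Finset.sum_neg_distrib, ← Finset.sum_add_distrib]
  refine Finset.sum_congr rfl fun i _ => ?_
  unfold LB1_f
  rw [map_mul, Rat.cast_mul]
  ring

theorem LB1_aux (hNA : NA) (hC1 : C1) (hSU : SU) (hAX : AX) (hLA : LA) (N : ℕ) :
    ∀ (κ : ℕ), 0 < κ → ∀ (X : Cx κ) (ι : Type) [Fintype ι] [DecidableEq ι] (f : ι → ℕ → ℝ),
    Fintype.card ι = N → (∀ i, Apx X ∅ (f i)) →
    (∀ g : ι → Rv κ, (Neg X fun l => ∑ i, ((evw (X.w l) (g i) : ℚ) : ℝ) * f i l) → g = 0) →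
    ∀ x : ℕ → ι → ℤ, (∀ᶠ l : ℕ in (X.𝒰 : Filter ℕ), x l ≠ 0) →
      (∀ i, Bdd X fun l => (x l i : ℝ)) → ¬ Neg X fun l => ∑ i, (x l i : ℝ) * f i l := by
  induction N using Nat.strong_induction_on with
  | _ N IH =>
  intro κ hκ X ι _ _ f hcard hf hind x hx hxB hneg
  obtain ⟨-, hmulN, -, hconN, -, -, -, -, -, -, -⟩ := hNA κ X
  -- a member of `ι`
  obtain ⟨l₀, hl₀⟩ := hx.exists
  obtain ⟨k, -⟩ := Function.ne_iff.1 hl₀
  have hk : ¬ Neg X (f k) := by
    intro hk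
    have h1 : (Pi.single k 1 : ι → Rv κ) = 0 := by
      refine hind _ (hconN _ _ (Eventually.of_forall fun l => ?_) hk)
      rw [Finset.sum_eq_single k]
      · rw [Pi.single_eq_same, map_one, Rat.cast_one, one_mul]
      · intro i _ hik
        rw [Pi.single_eq_of_ne hik, map_zero, Rat.cast_zero, zero_mul]
      · intro h
        exact absurd (Finset.mem_univ k) h
    have h2 := congrFun h1 k
    rw [Pi.single_eq_same] at h2
    exact one_ne_zero h2
  obtain ⟨g, hg, hgx⟩ := hLA κ hκ X ι f x k hf hk hx hxB hneg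
  obtain ⟨j, hj⟩ := Function.ne_iff.1 hg
  have hj' : g j ≠ 0 := hj
  have hlt : Fintype.card {i // i ≠ j} < N := by
    rw [← hcard]
    exact Fintype.card_subtype_lt (x := j) (fun h => h rfl)
  refine IH _ hlt κ hκ X {i // i ≠ j} (fun i => LB1_f X f g j i) rfl
    (fun i => LB1_apx hAX X f g j i hf) ?_ (fun l i => x l i) ?_ (fun i => hxB i) ?_
  · -- independence
    intro h hh
    have h1 := hind (fun i => if hi : i = j then -∑ i' : {i // i ≠ j}, h i' * g i'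
        else h ⟨i, hi⟩ * g j)
      (hconN _ _ (Eventually.of_forall fun l => (LB1_comb X f g j h l).symm) hh)
    funext i
    have h2 : (if hi : (i : ι) = j then -∑ i' : {i // i ≠ j}, h i' * g i'
        else h ⟨i, hi⟩ * g j) = 0 := congrFun h1 i
    rw [dif_neg i.2] at h2
    exact (mul_eq_zero.1 h2).resolve_right hj'
  · -- the vector is not zero
    by_contra hcon
    have hcon' : ∀ᶠ l : ℕ in (X.𝒰 : Filter ℕ), ¬ ((fun i : {i // i ≠ j} => x l i) ≠ 0) :=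
      Ultrafilter.eventually_not.2 hcon
    obtain ⟨l, h1, h2, h3, h4⟩ := (hcon'.and (hgx.and ((hSU κ X (g j) hj').and hx))).exists
    have h1' : ∀ i : {i // i ≠ j}, x l i = 0 := by
      intro i
      have h5 : (fun i : {i // i ≠ j} => x l i) = 0 := not_not.1 h1
      exact congrFun h5 i
    rw [LB1_sum _ j, Finset.sum_eq_zero fun i _ => by rw [h1' i, Int.cast_zero, mul_zero],
      add_zero] at h2
    have h6 : x l j = 0 := by
      have h7 := (mul_eq_zero.1 h2).resolve_left h3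
      exact_mod_cast h7
    apply h4
    funext i
    by_cases hi : i = j
    · rw [hi]
      exact h6
    · exact h1' ⟨i, hi⟩
  · -- the combination is negligible
    have h1 := hmulN _ _ hneg ((hC1 κ).2.2.2.2.2.2.2.2 X (g j))
    refine hconN _ _ (hgx.mono fun l hl => ?_) h1
    have h2 : (∑ i, ((evw (X.w l) (g i) : ℚ) : ℝ) * (x l i : ℝ)) = 0 := by
      have h3 : ((∑ i, evw (X.w l) (g i) * (x l i : ℚ) : ℚ) : ℝ) = 0 := by
        rw [hl, Rat.cast_zero]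
      rw [← h3]
      push_cast
      rfl
    rw [LB1_sum _ j] at h2
    rw [LB1_sum _ j, add_mul, Finset.sum_mul]
    have h4 : ∑ i : {i // i ≠ j}, ((x l i : ℤ) : ℝ) * LB1_f X f g j i l =
        ∑ i : {i // i ≠ j}, ((x l i : ℤ) : ℝ) * f i l * ((evw (X.w l) (g j) : ℚ) : ℝ) -
          (∑ i : {i // i ≠ j}, ((evw (X.w l) (g i) : ℚ) : ℝ) * ((x l i : ℤ) : ℝ)) * f j l := by
      rw [Finset.sum_mul, ← Finset.sum_sub_distrib]
      refine Finset.sum_congr rfl fun i _ => ?_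
      unfold LB1_f
      ring
    rw [h4]
    have h5 : (∑ i : {i // i ≠ j}, ((evw (X.w l) (g i) : ℚ) : ℝ) * ((x l i : ℤ) : ℝ)) =
        -(((evw (X.w l) (g j) : ℚ) : ℝ) * ((x l j : ℤ) : ℝ)) := by linarith
    rw [h5]
    ring

theorem prfLB1 (hNA : NA) (hC1 : C1) (hSU : SU) (hAX : AX) (hLA : LA) : LB1 := by
  intro κ hκ X ι _ _ f
  exact LB1_aux hNA hC1 hSU hAX hLA (Fintype.card ι) κ hκ X ι f rfl

end Pool.Agent.Work.MP_f1a024_nt.TU
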