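import Pool.Agent.Work.MP_f1a024_nt.TU.Stmts

/-!
# Block TU, item LBa: separation of an Euler factor
-/

set_option autoImplicit false

namespace Pool.Agent.Work.MP_f1a024_nt.TU

open Finset MvPolynomial Filter
open Pool.Agent.Work.MP_f1a024_nt.AH (tau PG val D1 D2 D4 D10a D10b)

theorem LBa_free {κ : ℕ} (F : Finset Nat.Primes) (c : ℚ) (g : Rv κ) (hg : Free F g) :
    Free F (C c * g) := by
  classical
  intro v hv
  have h1 := MvPolynomial.vars_mul (C c) g hv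
  rw [MvPolynomial.vars_C, Finset.empty_union] at h1
  exact hg v h1

theorem LBa_evw {κ : ℕ} (w : Fin κ → ℕ) (c : ℚ) (g : Rv κ) :
    evw w (C c * g) = c * evw w g := by
  unfold evw
  rw [map_mul, MvPolynomial.aeval_C]
  rfl

theorem LBa_euler {k d : ℕ} (q : Nat.Primes) (Q : Finset Nat.Primes) (n : Fin k → ℕ)
    (I : Fin k → Fin (d + 1))
    (h : ∀ j, (1 + (((q : ℕ) : ℝ) ^ n j)⁻¹) * val (tq Q) (n j) =
      (1 - (((q : ℕ) : ℝ) ^ n j)⁻¹) * val (tq (insert q Q)) (n j)) :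
    tI Q n I * ∏ j, (1 + (((q : ℕ) : ℝ) ^ n j)⁻¹) ^ d = eu (q : ℕ) n I * tI (insert q Q) n I := by
  unfold tI eu
  rw [← Finset.prod_mul_distrib, ← Finset.prod_mul_distrib]
  apply Finset.prod_congr rfl
  intro j _
  have hd : (I j : ℕ) ≤ d := Nat.lt_succ_iff.mp (I j).isLt
  have e : (1 + (((q : ℕ) : ℝ) ^ n j)⁻¹) ^ d =
      (1 + (((q : ℕ) : ℝ) ^ n j)⁻¹) ^ (I j : ℕ) *
        (1 + (((q : ℕ) : ℝ) ^ n j)⁻¹) ^ (d - (I j : ℕ)) := by
    rw [← pow_add, Nat.add_sub_cancel' hd]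
  rw [e]
  calc val (tq Q) (n j) ^ (I j : ℕ) * ((1 + (((q : ℕ) : ℝ) ^ n j)⁻¹) ^ (I j : ℕ) *
        (1 + (((q : ℕ) : ℝ) ^ n j)⁻¹) ^ (d - (I j : ℕ)))
      = ((1 + (((q : ℕ) : ℝ) ^ n j)⁻¹) * val (tq Q) (n j)) ^ (I j : ℕ) *
        (1 + (((q : ℕ) : ℝ) ^ n j)⁻¹) ^ (d - (I j : ℕ)) := by
        rw [mul_pow]
        ring
    _ = _ := by
        rw [h j, mul_pow]
        ring

theorem LBa_aeval {κ : ℕ} (x : Fin κ → ℚ) (h : MvPolynomial (Fin κ) ℚ)
    (Λ : Finset (Fin κ →₀ ℕ)) (hΛ : h.support ⊆ Λ) :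
    ((MvPolynomial.aeval x h : ℚ) : ℝ) =
      ∑ μ ∈ Λ, ((h.coeff μ : ℚ) : ℝ) * ((μ.prod fun i s => x i ^ s : ℚ) : ℝ) := by
  rw [MvPolynomial.aeval_def, MvPolynomial.eval₂_eq, Rat.cast_sum]
  rw [Finset.sum_subset hΛ]
  · apply Finset.sum_congr rfl
    intro μ _
    rw [Rat.cast_mul]
    rfl
  · intro μ _ hμ
    rw [MvPolynomial.notMem_support_iff.mp hμ]
    simp

theorem LBa_bdd {κ : ℕ} (X : Cx κ) {k : ℕ} (d : ℕ) (q : Nat.Primes) (n : ℕ → Fin k → ℕ) :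
    Bdd X fun l => ∏ j, (1 + (((q : ℕ) : ℝ) ^ n l j)⁻¹) ^ d := by
  refine ⟨2 ^ (k * d), one_le_pow₀ (by norm_num), ?_⟩
  filter_upwards [X.hm 1] with l hl
  have hq : (1 : ℝ) ≤ ((q : ℕ) : ℝ) := by exact_mod_cast q.2.one_lt.le
  have hz : ∀ j, 0 ≤ (((q : ℕ) : ℝ) ^ n l j)⁻¹ ∧ (((q : ℕ) : ℝ) ^ n l j)⁻¹ ≤ 1 := by
    intro j
    exact ⟨by positivity, inv_le_one_of_one_le₀ (one_le_pow₀ hq)⟩
  have h0 : 0 ≤ ∏ j, (1 + (((q : ℕ) : ℝ) ^ n l j)⁻¹) ^ d :=
    Finset.prod_nonneg fun j _ => pow_nonneg (by linarith [(hz j).1]) _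
  rw [abs_of_nonneg h0]
  have h1 : ∏ j, (1 + (((q : ℕ) : ℝ) ^ n l j)⁻¹) ^ d ≤ ∏ _j : Fin k, (2 : ℝ) ^ d := by
    apply Finset.prod_le_prod
    · intro j _
      exact pow_nonneg (by linarith [(hz j).1]) _
    · intro j _
      exact pow_le_pow_left₀ (by linarith [(hz j).1]) (by linarith [(hz j).2]) _
  refine h1.trans ?_
  rw [Finset.prod_const, Finset.card_univ, Fintype.card_fin, ← pow_mul, mul_comm d k]
  have h2 : (1 : ℝ) ≤ 2 ^ (k * d) := one_le_pow₀ (by norm_num)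
  calc (2 : ℝ) ^ (k * d) = (2 ^ (k * d)) ^ 1 := (pow_one _).symm
    _ ≤ (2 ^ (k * d)) ^ X.m l := pow_le_pow_right₀ h2 hl

theorem prfLBa (hNA : NA) (hAX : AX) (hEU : EU) (hTTA : TTA) (hQI : QI) : LBa := by
  classical
  intro κ X k d n hArg Q q g h hRQ hqQ hfree hh μ
  obtain ⟨-, hN2, -, hN4, -⟩ := hNA κ X
  obtain ⟨-, -, hA3, hA4, hA5, -, hA7, hA8, hA9⟩ := hAX κ X
  set Λ : Finset (Fin κ →₀ ℕ) := Finset.univ.biUnion fun I => (h I).support with hΛdef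
  have hΛ : ∀ I, (h I).support ⊆ Λ := fun I =>
    Finset.subset_biUnion_of_mem (fun I => (h I).support) (Finset.mem_univ I)
  set a : (Fin κ →₀ ℕ) → ℕ → ℝ := fun μ l => ∑ I,
    ((evw (X.w l) (C ((h I).coeff μ) * g I) : ℚ) : ℝ) * tI (insert q Q) (n l) I with ha
  by_cases hμ : μ ∈ Λ
  · -- the hypotheses of `QI`
    have hApx : ∀ μ ∈ Λ, Apx X {q} (a μ) := by
      intro μ _
      have hT : ∀ I : Fin k → Fin (d + 1), Apx X {q} fun l => tI (insert q Q) (n l) I := by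
        intro I
        apply hA5 (insert q Q) {q} _ (by simp)
        unfold tI
        apply hA8 (insert q Q) (Fin k) Finset.univ
          (fun j l => val (tq (insert q Q)) (n l j) ^ (I j : ℕ))
        intro j _
        exact hA9 _ _ _ ((hTTA κ X k n hArg (insert q Q) j).1)
      apply hA7 {q} (Fin k → Fin (d + 1)) Finset.univ
        (fun I l => ((evw (X.w l) (C ((h I).coeff μ) * g I) : ℚ) : ℝ) *
          tI (insert q Q) (n l) I)
      intro I _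
      exact hA3 {q} _ _ (hA4 {q} _ (LBa_free {q} _ _ (hfree I))) (hT I)
    have hNeg : Neg X fun l => ∑ μ ∈ Λ,
        a μ l * ((μ.prod fun i s => vz (X.w l) (q, i) ^ s : ℚ) : ℝ) := by
      refine hN4 _ _ ?_ (hN2 _ _ hRQ (LBa_bdd X d q n))
      obtain ⟨M, hM⟩ := hEU Q q hqQ
      have hh' := Filter.eventually_all.mpr hh
      filter_upwards [X.hm M, hArg.2, hh'] with l hl hl2 hl3
      have hE : ∀ j, (1 + (((q : ℕ) : ℝ) ^ n l j)⁻¹) * val (tq Q) (n l j) =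
          (1 - (((q : ℕ) : ℝ) ^ n l j)⁻¹) * val (tq (insert q Q)) (n l j) := fun j =>
        hM _ (hl.trans (hl2.2 j))
      rw [Finset.sum_mul]
      have e1 : ∀ I : Fin k → Fin (d + 1),
          ((evw (X.w l) (g I) : ℚ) : ℝ) * tI Q (n l) I *
            ∏ j, (1 + (((q : ℕ) : ℝ) ^ n l j)⁻¹) ^ d =
          ∑ μ ∈ Λ, ((evw (X.w l) (C ((h I).coeff μ) * g I) : ℚ) : ℝ) *
            tI (insert q Q) (n l) I *
            ((μ.prod fun i s => vz (X.w l) (q, i) ^ s : ℚ) : ℝ) := by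
        intro I
        rw [mul_assoc, LBa_euler q Q (n l) I hE, ← hl3 I, LBa_aeval _ _ Λ (hΛ I),
          Finset.sum_mul, Finset.mul_sum]
        apply Finset.sum_congr rfl
        intro μ _
        rw [LBa_evw, Rat.cast_mul]
        ring
      rw [Finset.sum_congr rfl fun I _ => e1 I, Finset.sum_comm]
      apply Finset.sum_congr rfl
      intro μ _
      rw [ha]
      simp only
      rw [Finset.sum_mul]
    exact hQI κ X q Λ a hApx hNeg μ hμ
  · have h0 : ∀ I, (h I).coeff μ = 0 := by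
      intro I
      by_contra hne
      exact hμ (hΛ I (MvPolynomial.mem_support_iff.mpr hne))
    intro θ hθ
    refine Filter.Eventually.of_forall fun l => ?_
    have : ∑ I, ((evw (X.w l) (C ((h I).coeff μ) * g I) : ℚ) : ℝ) *
        tI (insert q Q) (n l) I = 0 := by
      apply Finset.sum_eq_zero
      intro I _
      rw [h0 I, LBa_evw]
      simp
    simp only [this, abs_zero]
    positivity

end Pool.Agent.Work.MP_f1a024_nt.TU
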