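import Pool.Agent.Work.MP_f1a024_nt.TU.Stmts

/-!
Item MA of block TU: the theorem from the lemmas LB1, LB.
-/

namespace Pool.Agent.Work.MP_f1a024_nt.TU

open Finset MvPolynomial Filter
open Pool.Agent.Work.MP_f1a024_nt.AH (tau PG val D1 D2 D4 D10a D10b)

/-- without excluded primes `tq` is `tau` -/
theorem MA_tq : tq ∅ = tau := by
  ext n
  simp [tq]

/-- the exponent attached to an index -/
noncomputable def MA_ex {k d : ℕ} (I : Fin k → Fin (d + 1)) : Fin k →₀ ℕ :=
  Finsupp.equivFunOnFinite.symm fun j => (I j : ℕ)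

theorem MA_ex_apply {k d : ℕ} (I : Fin k → Fin (d + 1)) (j : Fin k) : MA_ex I j = (I j : ℕ) := rfl

theorem MA_ex_inj {k d : ℕ} :
    Function.Injective (MA_ex : (Fin k → Fin (d + 1)) → (Fin k →₀ ℕ)) := by
  intro I J h
  funext j
  apply Fin.ext
  rw [← MA_ex_apply I j, ← MA_ex_apply J j, h]

theorem MA_ex_surj {k d : ℕ} (s : Fin k →₀ ℕ) (hs : ∀ j, s j ≤ d) :
    ∃ I : Fin k → Fin (d + 1), MA_ex I = s := by
  refine ⟨fun j => ⟨s j, Nat.lt_succ_of_le (hs j)⟩, ?_⟩
  ext j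
  rw [MA_ex_apply]

/-- a polynomial of degree at most `d` in each variable as a sum over the indices -/
theorem MA_aeval {k d : ℕ} (P : MvPolynomial (Fin k) ℤ) (hP : ∀ j, P.degreeOf j ≤ d)
    (g : Fin k → ℂ) :
    MvPolynomial.aeval g P = ∑ I : Fin k → Fin (d + 1),
      ((P.coeff (MA_ex I) : ℤ) : ℂ) * ∏ j, g j ^ (I j : ℕ) := by
  classical
  rw [MvPolynomial.aeval_def, MvPolynomial.eval₂_eq']
  have h1 : ∑ I : Fin k → Fin (d + 1), ((P.coeff (MA_ex I) : ℤ) : ℂ) * ∏ j, g j ^ (I j : ℕ) =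
      ∑ s ∈ (Finset.univ : Finset (Fin k → Fin (d + 1))).image MA_ex,
        ((P.coeff s : ℤ) : ℂ) * ∏ j, g j ^ (s j) := by
    rw [Finset.sum_image fun a _ b _ hab => MA_ex_inj hab]
    rfl
  rw [h1]
  have h2 : P.support ⊆ (Finset.univ : Finset (Fin k → Fin (d + 1))).image MA_ex := by
    intro s hs
    have hsd : ∀ j, s j ≤ d := fun j => (MvPolynomial.degreeOf_le_iff.mp (hP j)) s hs
    obtain ⟨I, hI⟩ := MA_ex_surj s hsd
    exact Finset.mem_image.mpr ⟨I, Finset.mem_univ I, hI⟩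
  refine Finset.sum_subset_zero_on_sdiff h2 (fun s hs => ?_) (fun s _ => ?_)
  · have hs2 : s ∉ P.support := (Finset.mem_sdiff.mp hs).2
    have hs3 : P.coeff s = 0 := by
      rwa [MvPolynomial.notMem_support_iff] at hs2
    rw [hs3]
    simp
  · rfl

theorem prfMA (_hNA : NA) (hAX : AX) (hD10a : D10a) (hTTA : TTA) (hUS : US) (hLB1 : LB1)
    (hLB : LB) : MA := by
  intro k d C B
  rcases Nat.eq_zero_or_pos k with hk | hk
  · subst hk
    refine ⟨1 / 2, by norm_num, by norm_num, 0, ?_⟩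
    intro m _ n _ _ P hP _ _
    obtain ⟨c, rfl⟩ := MvPolynomial.C_surjective (Fin 0) P
    have hc : c ≠ 0 := by
      rintro rfl
      exact hP (map_zero _)
    have h1 : (1 : ℝ) ≤ |(c : ℝ)| := by
      exact_mod_cast Int.one_le_abs hc
    have h2 : ((1 : ℝ) / 2) ^ m ≤ 1 := pow_le_one₀ (by norm_num) (by norm_num)
    have h3 : ‖MvPolynomial.aeval (fun j : Fin 0 =>
        riemannZeta (2 * (n j : ℂ)) / riemannZeta (n j : ℂ) ^ 2) (MvPolynomial.C c)‖ = |(c : ℝ)| := by
      rw [MvPolynomial.aeval_C]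
      simp
    rw [h3]
    exact h2.trans h1
  · by_contra hcon
    push Not at hcon
    have hch : ∀ l : ℕ, ∃ m : ℕ, l ≤ m ∧ ∃ n : Fin k → ℕ, Function.Injective n ∧
        (∀ j, m ≤ n j ∧ n j ≤ C * m) ∧ ∃ P : MvPolynomial (Fin k) ℤ, P ≠ 0 ∧
        (∀ j, P.degreeOf j ≤ d) ∧ (∀ s, |((P.coeff s : ℤ) : ℝ)| ≤ B ^ m) ∧
        ‖MvPolynomial.aeval (fun j => riemannZeta (2 * (n j : ℂ)) / riemannZeta (n j : ℂ) ^ 2) P‖ <
          (1 / ((l : ℝ) + 2)) ^ m := by
      intro l
      have hl : (0 : ℝ) < (l : ℝ) + 2 := by positivity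
      obtain ⟨m, hm, n, h1, h2, P, h3, h4, h5, h6⟩ := hcon (1 / ((l : ℝ) + 2)) (by positivity)
        (by
          rw [div_lt_one hl]
          have : (0 : ℝ) ≤ (l : ℝ) := Nat.cast_nonneg l
          linarith) l
      exact ⟨m, hm, n, h1, h2, P, h3, h4, h5, h6⟩
    choose m hm n hinj hn P hP hdeg hcoef hlt using hch
    have hU : ((Filter.hyperfilter ℕ : Ultrafilter ℕ) : Filter ℕ) ≤ atTop :=
      Nat.hyperfilter_le_atTop
    have hmU : ∀ N : ℕ, ∀ᶠ l : ℕ in ((Filter.hyperfilter ℕ : Ultrafilter ℕ) : Filter ℕ), N ≤ m l := by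
      intro N
      exact hU ((eventually_ge_atTop N).mono fun l hl => le_trans hl (hm l))
    obtain ⟨κ, X, hκ, hXU, hXm, A, c, hRep⟩ := hUS (Filter.hyperfilter ℕ) m k C n hk hmU
      (Filter.Eventually.of_forall fun l j => hn l j)
    have hev : ∀ p : ℕ → Prop, (∀ᶠ l : ℕ in (atTop : Filter ℕ), p l) →
        ∀ᶠ l : ℕ in (X.𝒰 : Filter ℕ), p l := by
      intro p hp
      rw [hXU]
      exact hU hp
    have harg : Arg X n := by
      refine ⟨⟨A, c, hRep⟩, Filter.Eventually.of_forall fun l => ⟨hinj l, fun j => ?_⟩⟩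
      rw [hXm]
      exact (hn l j).1
    obtain ⟨-, M0, hM0⟩ := hD10a
    -- the sequences
    have hf : ∀ I : Fin k → Fin (d + 1), Apx X ∅ fun l => tI ∅ (n l) I := by
      intro I
      have h9 := (hAX κ X).2.2.2.2.2.2.2.2
      have h8 := (hAX κ X).2.2.2.2.2.2.2.1
      exact h8 ∅ (Fin k) Finset.univ (fun j l => val (tq ∅) (n l j) ^ (I j : ℕ)) fun j _ =>
        h9 ∅ (fun l => val (tq ∅) (n l j)) (I j : ℕ) (hTTA κ X k n harg ∅ j).1
    have hx0 : ∀ l, (fun I : Fin k → Fin (d + 1) => (P l).coeff (MA_ex I)) ≠ 0 := by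
      intro l h0
      obtain ⟨s, hs⟩ := MvPolynomial.ne_zero_iff.mp (hP l)
      have hs1 : s ∈ (P l).support := MvPolynomial.mem_support_iff.mpr hs
      have hsd : ∀ j, s j ≤ d := fun j => (MvPolynomial.degreeOf_le_iff.mp (hdeg l j)) s hs1
      obtain ⟨I, hI⟩ := MA_ex_surj s hsd
      have h1 := congrFun h0 I
      simp only [hI, Pi.zero_apply] at h1
      exact hs h1
    have hxB : ∀ I : Fin k → Fin (d + 1),
        Bdd X fun l => (((P l).coeff (MA_ex I) : ℤ) : ℝ) := by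
      intro I
      refine ⟨max |B| 1, le_max_right _ _, Filter.Eventually.of_forall fun l => ?_⟩
      rw [hXm]
      calc |(((P l).coeff (MA_ex I) : ℤ) : ℝ)| ≤ B ^ m l := hcoef l _
        _ ≤ |B ^ m l| := le_abs_self _
        _ = |B| ^ m l := abs_pow _ _
        _ ≤ (max |B| 1) ^ m l := pow_le_pow_left₀ (abs_nonneg _) (le_max_left _ _) _
    have hneg : Neg X fun l => ∑ I : Fin k → Fin (d + 1),
        (((P l).coeff (MA_ex I) : ℤ) : ℝ) * tI ∅ (n l) I := by
      intro θ hθ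
      obtain ⟨N, hN⟩ := exists_nat_gt (1 / θ)
      refine hev _ ?_
      filter_upwards [eventually_ge_atTop N, eventually_ge_atTop M0] with l hl1 hl2
      have hval : ∀ j, ((val (tq ∅) (n l j) : ℝ) : ℂ) =
          riemannZeta (2 * (n l j : ℂ)) / riemannZeta (n l j : ℂ) ^ 2 := by
        intro j
        rw [MA_tq]
        exact hM0 (n l j) (le_trans hl2 (le_trans (hm l) (hn l j).1))
      have hsum : ((∑ I : Fin k → Fin (d + 1),
          (((P l).coeff (MA_ex I) : ℤ) : ℝ) * tI ∅ (n l) I : ℝ) : ℂ) =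
          MvPolynomial.aeval (fun j => riemannZeta (2 * (n l j : ℂ)) /
            riemannZeta (n l j : ℂ) ^ 2) (P l) := by
        rw [MA_aeval (P l) (hdeg l)]
        push_cast
        refine Finset.sum_congr rfl fun I _ => ?_
        unfold tI
        push_cast
        congr 1
        refine Finset.prod_congr rfl fun j _ => ?_
        rw [hval j]
      have hle : |∑ I : Fin k → Fin (d + 1),
          (((P l).coeff (MA_ex I) : ℤ) : ℝ) * tI ∅ (n l) I| ≤ (1 / ((l : ℝ) + 2)) ^ m l := by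
        rw [← Real.norm_eq_abs, ← Complex.norm_real, hsum]
        exact (hlt l).le
      rw [hXm]
      refine hle.trans ?_
      refine pow_le_pow_left₀ (by positivity) ?_ _
      have hl3 : (N : ℝ) ≤ (l : ℝ) := by exact_mod_cast hl1
      have hl4 : 1 / θ < (l : ℝ) + 2 := by linarith
      rw [div_le_iff₀ (by positivity)]
      rw [div_lt_iff₀ hθ] at hl4
      linarith
    exact hLB1 κ hκ X (Fin k → Fin (d + 1)) (fun I l => tI ∅ (n l) I) hf
      (fun g hg => hLB κ X k d n harg g hg) (fun l I => (P l).coeff (MA_ex I))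
      (Filter.Eventually.of_forall hx0) hxB hneg

end Pool.Agent.Work.MP_f1a024_nt.TU
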