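import Pool.Agent.Work.MP_f1a024_nt.TU.Stmts

/-!
# Block TU, item NA: algebra of negligible and of bounded sequences
-/

namespace Pool.Agent.Work.MP_f1a024_nt.TU

open Finset MvPolynomial Filter

theorem NA_pow_add (K K' : ℝ) (hK : 0 ≤ K) (hK' : 0 ≤ K') (m : ℕ) (hm : 1 ≤ m) :
    K ^ m + K' ^ m ≤ (K + K') ^ m := by
  obtain ⟨n, rfl⟩ : ∃ n, m = n + 1 := ⟨m - 1, by omega⟩
  have h1 : K ^ n ≤ (K + K') ^ n := pow_le_pow_left₀ hK (by linarith) n
  have h2 : K' ^ n ≤ (K + K') ^ n := pow_le_pow_left₀ hK' (by linarith) n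
  calc K ^ (n + 1) + K' ^ (n + 1) = K ^ n * K + K' ^ n * K' := by rw [pow_succ, pow_succ]
    _ ≤ (K + K') ^ n * K + (K + K') ^ n * K' :=
      add_le_add (mul_le_mul_of_nonneg_right h1 hK) (mul_le_mul_of_nonneg_right h2 hK')
    _ = (K + K') ^ (n + 1) := by rw [pow_succ]; ring

section
variable {κ : ℕ} (X : Cx κ)

theorem NA_add (y z : ℕ → ℝ) (hy : Neg X y) (hz : Neg X z) : Neg X fun l => y l + z l := by
  intro θ hθ
  filter_upwards [hy (θ / 2) (by positivity), hz (θ / 2) (by positivity), X.hm 1] with l h1 h2 h3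
  have h4 := NA_pow_add (θ / 2) (θ / 2) (by positivity) (by positivity) (X.m l) h3
  rw [add_halves] at h4
  exact (abs_add_le _ _).trans ((add_le_add h1 h2).trans h4)

theorem NA_mul (y z : ℕ → ℝ) (hy : Neg X y) (hz : Bdd X z) : Neg X fun l => y l * z l := by
  obtain ⟨K, hK, hz⟩ := hz
  intro θ hθ
  have hK0 : 0 < K := by linarith
  filter_upwards [hy (θ / K) (by positivity), hz] with l h1 h2
  rw [abs_mul]
  calc |y l| * |z l| ≤ (θ / K) ^ X.m l * K ^ X.m l :=
        mul_le_mul h1 h2 (abs_nonneg _) (by positivity)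
    _ = θ ^ X.m l := by
      rw [← mul_pow, div_mul_cancel₀ θ hK0.ne']

theorem NA_not (y : ℕ → ℝ) (hy : ¬ Neg X y) : ∃ θ : ℝ, 0 < θ ∧ θ < 1 ∧
    ∀ᶠ l : ℕ in (X.𝒰 : Filter ℕ), θ ^ X.m l < |y l| := by
  unfold Neg at hy
  rw [not_forall] at hy
  obtain ⟨θ, hy⟩ := hy
  rw [Classical.not_imp] at hy
  obtain ⟨hθ, hy⟩ := hy
  rw [← Ultrafilter.eventually_not] at hy
  refine ⟨min θ (1 / 2), lt_min hθ (by norm_num), (min_le_right _ _).trans_lt (by norm_num), ?_⟩
  filter_upwards [hy] with l h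
  rw [not_le] at h
  exact (pow_le_pow_left₀ (le_min hθ.le (by norm_num)) (min_le_left _ _) _).trans_lt h

theorem NA_congr (y z : ℕ → ℝ) (h : ∀ᶠ l : ℕ in (X.𝒰 : Filter ℕ), y l = z l) (hy : Neg X y) :
    Neg X z := by
  intro θ hθ
  filter_upwards [h, hy θ hθ] with l h1 h2
  rw [← h1]
  exact h2

theorem NA_sum (ι : Type) (s : Finset ι) (y : ι → ℕ → ℝ) (h : ∀ i ∈ s, Neg X (y i)) :
    Neg X fun l => ∑ i ∈ s, y i l := by
  classical
  induction s using Finset.induction_on with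
  | empty =>
    intro θ hθ
    refine Eventually.of_forall fun l => ?_
    simp only [Finset.sum_empty, abs_zero]
    positivity
  | insert a s ha ih =>
    have h1 := ih fun i hi => h i (Finset.mem_insert_of_mem hi)
    have h2 := NA_add X _ _ (h a (Finset.mem_insert_self a s)) h1
    refine NA_congr X _ _ (Eventually.of_forall fun l => ?_) h2
    rw [Finset.sum_insert ha]

theorem NA_badd (y z : ℕ → ℝ) (hy : Bdd X y) (hz : Bdd X z) : Bdd X fun l => y l + z l := by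
  obtain ⟨K, hK, hy⟩ := hy
  obtain ⟨K', hK', hz⟩ := hz
  refine ⟨K + K', by linarith, ?_⟩
  filter_upwards [hy, hz, X.hm 1] with l h1 h2 h3
  exact (abs_add_le _ _).trans ((add_le_add h1 h2).trans
    (NA_pow_add K K' (by linarith) (by linarith) _ h3))

theorem NA_bmul (y z : ℕ → ℝ) (hy : Bdd X y) (hz : Bdd X z) : Bdd X fun l => y l * z l := by
  obtain ⟨K, hK, hy⟩ := hy
  obtain ⟨K', hK', hz⟩ := hz
  refine ⟨K * K', by nlinarith, ?_⟩
  filter_upwards [hy, hz] with l h1 h2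
  rw [abs_mul, mul_pow]
  exact mul_le_mul h1 h2 (abs_nonneg _) (pow_nonneg (by linarith) _)

theorem NA_bconst (c : ℝ) : Bdd X fun _ => c := by
  refine ⟨max |c| 1, le_max_right _ _, ?_⟩
  filter_upwards [X.hm 1] with l h
  exact (le_max_left _ _).trans (le_self_pow₀ (le_max_right _ _) (by omega))

theorem NA_bcongr (y z : ℕ → ℝ) (h : ∀ l, y l = z l) (hy : Bdd X y) : Bdd X z := by
  have e : y = z := funext h
  rw [← e]
  exact hy

theorem NA_bsum (ι : Type) (s : Finset ι) (y : ι → ℕ → ℝ) (h : ∀ i ∈ s, Bdd X (y i)) :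
    Bdd X fun l => ∑ i ∈ s, y i l := by
  classical
  induction s using Finset.induction_on with
  | empty =>
    refine NA_bcongr X (fun _ => 0) _ (fun l => ?_) (NA_bconst X 0)
    rw [Finset.sum_empty]
  | insert a s ha ih =>
    have h1 := ih fun i hi => h i (Finset.mem_insert_of_mem hi)
    refine NA_bcongr X _ _ (fun l => ?_) (NA_badd X _ _ (h a (Finset.mem_insert_self a s)) h1)
    rw [Finset.sum_insert ha]

theorem NA_bprod (ι : Type) (s : Finset ι) (y : ι → ℕ → ℝ) (h : ∀ i ∈ s, Bdd X (y i)) :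
    Bdd X fun l => ∏ i ∈ s, y i l := by
  classical
  induction s using Finset.induction_on with
  | empty =>
    refine NA_bcongr X (fun _ => 1) _ (fun l => ?_) (NA_bconst X 1)
    rw [Finset.prod_empty]
  | insert a s ha ih =>
    have h1 := ih fun i hi => h i (Finset.mem_insert_of_mem hi)
    refine NA_bcongr X _ _ (fun l => ?_) (NA_bmul X _ _ (h a (Finset.mem_insert_self a s)) h1)
    rw [Finset.prod_insert ha]

theorem NA_low (y : ℕ → ℝ) (c θ : ℝ) (hc : 0 < c) (hθ : 0 < θ)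
    (h : ∀ᶠ l : ℕ in (X.𝒰 : Filter ℕ), c * θ ^ X.m l ≤ |y l|) : ¬ Neg X y := by
  intro hy
  obtain ⟨N, hN⟩ := exists_pow_lt_of_lt_one hc (show (1 / 2 : ℝ) < 1 by norm_num)
  have hev : ∀ᶠ l : ℕ in (X.𝒰 : Filter ℕ), False := by
    filter_upwards [h, hy (θ / 2) (by positivity), X.hm N] with l h1 h2 h3
    have h4 : c * θ ^ X.m l ≤ (1 / 2 : ℝ) ^ X.m l * θ ^ X.m l := by
      refine h1.trans (h2.trans (le_of_eq ?_))
      rw [← mul_pow]
      congr 1
      ring
    have h5 : c ≤ (1 / 2 : ℝ) ^ X.m l := le_of_mul_le_mul_right h4 (by positivity)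
    have h6 : (1 / 2 : ℝ) ^ X.m l ≤ (1 / 2 : ℝ) ^ N :=
      pow_le_pow_of_le_one (by norm_num) (by norm_num) h3
    linarith
  obtain ⟨l, hl⟩ := hev.exists
  exact hl

end

theorem prfNA : NA := by
  intro κ X
  exact ⟨NA_add X, NA_mul X, NA_not X, NA_congr X, NA_sum X, NA_badd X, NA_bmul X, NA_bconst X,
    NA_bsum X, NA_bprod X, NA_low X⟩

end Pool.Agent.Work.MP_f1a024_nt.TU
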