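import Pool.Agent.Work.MP_f1a024_nt.TU.Stmts

/-!
# Item PRV of block TU: the double product
-/

set_option autoImplicit false

namespace Pool.Agent.Work.MP_f1a024_nt.TU

open Finset MvPolynomial Filter

theorem PRV_lfv_in {κ : ℕ} {ι : Type} [DecidableEq ι] (f : ι → Rv κ) (k : ι) (β δ' : Ev κ)
    (i j : ι × Ev κ) (h : i ∈ eev k β δ') : lfv f k β δ' i j = shv f (i.2 - β) j := by
  unfold lfv
  rw [if_pos h]

theorem PRV_lfv_out {κ : ℕ} {ι : Type} [DecidableEq ι] (f : ι → Rv κ) (k : ι) (β δ' : Ev κ)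
    (i j : ι × Ev κ) (h : i ∉ eev k β δ') : lfv f k β δ' i j = if i = j then 1 else 0 := by
  unfold lfv
  rw [if_neg h]

theorem PRV_le_upv {κ : ℕ} {ι : Type} [Fintype ι] (f : ι → Rv κ) (k : ι) (β : Ev κ)
    (h : β ∈ (f k).support) : β ≤ upv f := by
  unfold upv
  calc β = id β := rfl
    _ ≤ (f k).support.sup id := Finset.le_sup (f := id) h
    _ ≤ univ.sup fun k => (f k).support.sup id :=
      Finset.le_sup (f := fun k => (f k).support.sup id) (Finset.mem_univ k)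

/-- the product at the finite places -/
theorem PRV_fin (hC1 : C1) {κ : ℕ} {ι : Type} [Fintype ι] (δ : Ev κ)
    (w : Fin κ → ℕ) (x : ι → ℤ) (PP : Finset Nat.Primes) (hδ : ∀ v ∈ δ.support, v.1 ∈ PP) :
    ∏ p ∈ PP, ∏ i ∈ bxv ι δ, ((padicNorm p (ptv w x i) : ℚ) : ℝ) ≤
      (∏ i ∈ bxv ι δ, ((mo w i.2 : ℚ) : ℝ))⁻¹ := by
  obtain ⟨-, -, -, -, -, -, h7, -, -⟩ := hC1 κ
  rw [Finset.prod_comm, ← Finset.prod_inv_distrib]
  refine Finset.prod_le_prod (fun i _ => ?_) fun i hi => ?_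
  · refine Finset.prod_nonneg fun p _ => ?_
    exact_mod_cast padicNorm.nonneg _
  · have hle : i.2 ≤ δ := by
      unfold bxv at hi
      rw [Finset.mem_product] at hi
      exact Finset.mem_Iic.1 hi.2
    have h1 : ∏ p ∈ PP, padicNorm p (mo w i.2) = (mo w i.2)⁻¹ := by
      refine h7 w i.2 PP fun v hv => hδ v ?_
      exact Finsupp.support_mono hle hv
    have h2 : ∏ p ∈ PP, padicNorm p (ptv w x i) ≤ ∏ p ∈ PP, padicNorm p (mo w i.2) := by
      refine Finset.prod_le_prod (fun p _ => padicNorm.nonneg _) fun p _ => ?_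
      have : Fact (p : ℕ).Prime := ⟨p.2⟩
      unfold ptv
      rw [padicNorm.mul]
      calc padicNorm p (x i.1 : ℚ) * padicNorm p (mo w i.2)
          ≤ 1 * padicNorm p (mo w i.2) :=
            mul_le_mul_of_nonneg_right (padicNorm.of_int (x i.1)) (padicNorm.nonneg _)
        _ = _ := one_mul _
    rw [h1] at h2
    exact_mod_cast h2

theorem prfPRV (hC1 : C1) (hSHV : SHV) : PRV := by
  intro κ ι _ _ f k β δ w x B PP hB hx hβ hf hPP
  have hpos : ∀ b : Ev κ, (0 : ℝ) < ((mo w b : ℚ) : ℝ) := fun b => by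
    exact_mod_cast ((hC1 κ).2.2.1 w b).1
  have hadd : ∀ a b : Ev κ, ((mo w (a + b) : ℚ) : ℝ) = ((mo w a : ℚ) : ℝ) * ((mo w b : ℚ) : ℝ) :=
    fun a b => by
      rw [(hC1 κ).1 w a b]
      push_cast
      rfl
  have hβ' : β ≤ upv f := PRV_le_upv f k β hβ
  set X := bxv ι δ with hX
  set E := eev k β (δ - upv f) with hE
  have hinj : ∀ a ∈ Iic (δ - upv f), ∀ b ∈ Iic (δ - upv f),
      (k, a + β) = (k, b + β) → a = b := by
    intro a _ b _ hab
    exact add_right_cancel (Prod.mk.inj hab).2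
  have hsub : E ⊆ X := by
    intro i hi
    rw [hE, eev, Finset.mem_image] at hi
    obtain ⟨a, ha, rfl⟩ := hi
    rw [hX, bxv, Finset.mem_product]
    refine ⟨Finset.mem_univ _, Finset.mem_Iic.2 ?_⟩
    calc a + β ≤ (δ - upv f) + upv f := add_le_add (Finset.mem_Iic.1 ha) hβ'
      _ = δ := tsub_add_cancel_of_le hf
  have hcard : E.card = (Iic (δ - upv f)).card := by
    rw [hE, eev]
    exact Finset.card_image_of_injOn fun a ha b hb hab => hinj a ha b hb hab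
  set R := X \ E with hR
  set T := (Iic (δ - upv f)).card with hT
  have hcardR : R.card = X.card - T := by
    rw [hR, Finset.card_sdiff_of_subset hsub, hcard]
  set Λ : ℝ := |((∑ i, evw w (f i) * (x i : ℚ) : ℚ) : ℝ)| with hΛ
  -- the shifts
  have hprod1 : ∏ i ∈ E, |((∑ j ∈ X, lfv f k β (δ - upv f) i j * ptv w x j : ℚ) : ℝ)| =
      (∏ a ∈ Iic (δ - upv f), ((mo w a : ℚ) : ℝ)) * Λ ^ T := by
    rw [hE, eev, Finset.prod_image hinj]
    have h1 : ∀ a ∈ Iic (δ - upv f),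
        |((∑ j ∈ X, lfv f k β (δ - upv f) (k, a + β) j * ptv w x j : ℚ) : ℝ)| =
          ((mo w a : ℚ) : ℝ) * Λ := by
      intro a ha
      have hmem : (k, a + β) ∈ eev k β (δ - upv f) := Finset.mem_image_of_mem _ ha
      have h2 : ∑ j ∈ X, lfv f k β (δ - upv f) (k, a + β) j * ptv w x j =
          ∑ j ∈ X, shv f a j * ptv w x j := by
        refine Finset.sum_congr rfl fun j _ => ?_
        rw [PRV_lfv_in f k β _ _ j hmem]
        simp only [add_tsub_cancel_right]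
      have hle : a + upv f ≤ δ := by
        calc a + upv f ≤ (δ - upv f) + upv f := add_le_add (Finset.mem_Iic.1 ha) le_rfl
          _ = δ := tsub_add_cancel_of_le hf
      rw [h2, hX, hSHV κ ι f a δ hle w x, Rat.cast_mul, abs_mul, abs_of_pos (hpos a)]
    rw [Finset.prod_congr rfl h1, Finset.prod_mul_distrib, Finset.prod_const]
  -- the coordinates
  have hprod2 : ∏ i ∈ R, |((∑ j ∈ X, lfv f k β (δ - upv f) i j * ptv w x j : ℚ) : ℝ)| ≤
      B ^ (X.card - T) * ∏ i ∈ R, ((mo w i.2 : ℚ) : ℝ) := by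
    calc ∏ i ∈ R, |((∑ j ∈ X, lfv f k β (δ - upv f) i j * ptv w x j : ℚ) : ℝ)|
        ≤ ∏ i ∈ R, (B * ((mo w i.2 : ℚ) : ℝ)) := by
          refine Finset.prod_le_prod (fun i _ => abs_nonneg _) fun i hi => ?_
          rw [hR, Finset.mem_sdiff] at hi
          have h1 : ∑ j ∈ X, lfv f k β (δ - upv f) i j * ptv w x j = ptv w x i := by
            rw [Finset.sum_eq_single i]
            · rw [PRV_lfv_out f k β _ _ i hi.2, if_pos rfl, one_mul]
            · intro j _ hj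
              rw [PRV_lfv_out f k β _ _ j hi.2, if_neg (fun h => hj h.symm), zero_mul]
            · intro h
              exact absurd hi.1 h
          rw [h1, ptv, Rat.cast_mul, abs_mul, abs_of_pos (hpos i.2), Rat.cast_intCast]
          exact mul_le_mul_of_nonneg_right (hx i.1) (hpos i.2).le
      _ = B ^ (X.card - T) * ∏ i ∈ R, ((mo w i.2 : ℚ) : ℝ) := by
          rw [Finset.prod_mul_distrib, Finset.prod_const, hcardR]
  have hPX : ∏ i ∈ X, ((mo w i.2 : ℚ) : ℝ) = (∏ i ∈ R, ((mo w i.2 : ℚ) : ℝ)) *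
      ((∏ a ∈ Iic (δ - upv f), ((mo w a : ℚ) : ℝ)) * ((mo w β : ℚ) : ℝ) ^ T) := by
    rw [← Finset.prod_sdiff hsub]
    congr 1
    rw [hE, eev, Finset.prod_image hinj]
    have h1 : ∀ a ∈ Iic (δ - upv f), (((mo w ((k, a + β) : ι × Ev κ).2 : ℚ)) : ℝ) =
        ((mo w a : ℚ) : ℝ) * ((mo w β : ℚ) : ℝ) := fun a _ => hadd a β
    rw [Finset.prod_congr rfl h1, Finset.prod_mul_distrib, Finset.prod_const]
  have hA : 0 < ∏ a ∈ Iic (δ - upv f), ((mo w a : ℚ) : ℝ) := Finset.prod_pos fun a _ => hpos a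
  have hRp : 0 < ∏ i ∈ R, ((mo w i.2 : ℚ) : ℝ) := Finset.prod_pos fun i _ => hpos i.2
  have hbp : 0 < ((mo w β : ℚ) : ℝ) ^ T := pow_pos (hpos β) _
  have hΛ0 : 0 ≤ Λ := abs_nonneg _
  have hB0 : (0 : ℝ) ≤ B := le_trans zero_le_one hB
  have hfin := PRV_fin hC1 δ w x PP hPP
  have hfin0 : 0 ≤ ∏ p ∈ PP, ∏ i ∈ bxv ι δ, ((padicNorm p (ptv w x i) : ℚ) : ℝ) := by
    refine Finset.prod_nonneg fun p _ => Finset.prod_nonneg fun i _ => ?_
    exact_mod_cast padicNorm.nonneg _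
  have hinf : (∏ i ∈ X, |((∑ j ∈ X, lfv f k β (δ - upv f) i j * ptv w x j : ℚ) : ℝ)|) ≤
      (B ^ (X.card - T) * ∏ i ∈ R, ((mo w i.2 : ℚ) : ℝ)) *
        ((∏ a ∈ Iic (δ - upv f), ((mo w a : ℚ) : ℝ)) * Λ ^ T) := by
    rw [← Finset.prod_sdiff hsub, hprod1]
    exact mul_le_mul_of_nonneg_right hprod2 (by positivity)
  calc (∏ i ∈ X, |((∑ j ∈ X, lfv f k β (δ - upv f) i j * ptv w x j : ℚ) : ℝ)|) *
        ∏ p ∈ PP, ∏ i ∈ X, ((padicNorm p (ptv w x i) : ℚ) : ℝ)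
      ≤ ((B ^ (X.card - T) * ∏ i ∈ R, ((mo w i.2 : ℚ) : ℝ)) *
        ((∏ a ∈ Iic (δ - upv f), ((mo w a : ℚ) : ℝ)) * Λ ^ T)) *
          (∏ i ∈ X, ((mo w i.2 : ℚ) : ℝ))⁻¹ :=
        mul_le_mul hinf hfin hfin0 (by positivity)
    _ = Λ ^ T * B ^ (X.card - T) * ((((mo w β : ℚ) : ℝ))⁻¹) ^ T := by
        rw [hPX, inv_pow]
        field_simp

end Pool.Agent.Work.MP_f1a024_nt.TU
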