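import Pool.Agent.Work.MP_f1a024_nt.TU.Stmts

set_option autoImplicit false

namespace Pool.Agent.Work.MP_f1a024_nt.TU

open Finset MvPolynomial Filter
open Pool.Agent.Work.MP_f1a024_nt.AH (tau PG val)

/-- the exponent of `z_q ^ μ` -/
noncomputable def QI_hat {κ : ℕ} (q : Nat.Primes) (μ : Fin κ →₀ ℕ) : Ev κ :=
  μ.mapDomain fun i => (q, i)

theorem QI_inj {κ : ℕ} (q : Nat.Primes) : Function.Injective fun i : Fin κ => ((q, i) : Vr κ) :=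
  fun _ _ h => (Prod.mk.inj h).2

theorem QI_hat_apply {κ : ℕ} (q : Nat.Primes) (μ : Fin κ →₀ ℕ) (i : Fin κ) :
    QI_hat q μ (q, i) = μ i :=
  Finsupp.mapDomain_apply (QI_inj q) μ i

theorem QI_mo {κ : ℕ} (q : Nat.Primes) (w : Fin κ → ℕ) (μ : Fin κ →₀ ℕ) :
    mo w (QI_hat q μ) = μ.prod fun i s => vz w (q, i) ^ s := by
  rw [mo, QI_hat, Finsupp.prod_mapDomain_index_inj (QI_inj q)]

theorem QI_free {κ : ℕ} {q : Nat.Primes} {g : Rv κ} (hg : Free {q} g) {b : Ev κ}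
    (hb : b ∈ g.support) (i : Fin κ) : b (q, i) = 0 := by
  by_contra h
  exact hg (q, i) ((mem_vars_iff_mem_support _).2 ⟨b, hb, Finsupp.mem_support_iff.2 h⟩) (Finset.mem_singleton_self q)

theorem QI_coeff {κ : ℕ} (q : Nat.Primes) (Λ : Finset (Fin κ →₀ ℕ)) (g : (Fin κ →₀ ℕ) → Rv κ)
    (hg : ∀ μ ∈ Λ, Free {q} (g μ)) (μ₀ : Fin κ →₀ ℕ) (h0 : μ₀ ∈ Λ) (b : Ev κ)
    (hb : b ∈ (g μ₀).support) :
    (∑ μ ∈ Λ, g μ * monomial (QI_hat q μ) 1).coeff (b + QI_hat q μ₀) = (g μ₀).coeff b := by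
  rw [coeff_sum, Finset.sum_eq_single μ₀]
  · rw [coeff_mul_monomial, mul_one]
  · intro μ hμ hne
    rw [coeff_mul_monomial']
    split_ifs with hle
    · have hz : (g μ).coeff (b + QI_hat q μ₀ - QI_hat q μ) = 0 := by
        by_contra hc
        apply hne
        have hs : b + QI_hat q μ₀ - QI_hat q μ ∈ (g μ).support := mem_support_iff.2 hc
        ext i
        have e1 := QI_free (hg μ hμ) hs i
        have e2 := QI_free (hg μ₀ h0) hb i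
        have e3 : (b + QI_hat q μ₀ - QI_hat q μ) + QI_hat q μ = b + QI_hat q μ₀ :=
          tsub_add_cancel_of_le hle
        have e4 := DFunLike.congr_fun e3 (q, i)
        rw [Finsupp.add_apply, Finsupp.add_apply, e1, e2, QI_hat_apply, QI_hat_apply] at e4
        omega
      rw [hz, zero_mul]
    · rfl
  · intro h
    exact absurd h0 h

theorem prfQI (hNA : NA) (hC1 : C1) (hB0 : B0) : QI := by
  intro κ X q Λ a ha hN μ₀ hμ₀
  obtain ⟨-, -, n3, -⟩ := hNA κ X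
  obtain ⟨c1, -, c3, c4, c5, -, -, c8, -⟩ := hC1 κ
  by_contra hneg
  obtain ⟨θ₀, h0, h1, hθ₀⟩ := n3 (a μ₀) hneg
  obtain ⟨c₀, hc0, hc2, hc₀⟩ := c8 X (QI_hat q μ₀)
  obtain ⟨θ, hθ⟩ : ∃ θ, θ = θ₀ * c₀ / 8 := ⟨_, rfl⟩
  have hθp : 0 < θ := by rw [hθ]; positivity
  have hθ2 : θ ≤ θ₀ / 2 := by
    rw [hθ]
    nlinarith
  have hex : ∀ μ : Fin κ →₀ ℕ, ∃ g : Rv κ, μ ∈ Λ → Free {q} g ∧
      ∀ᶠ l : ℕ in (X.𝒰 : Filter ℕ), |a μ l - ((evw (X.w l) g : ℚ) : ℝ)| ≤ θ ^ X.m l := by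
    intro μ
    by_cases hμ : μ ∈ Λ
    · obtain ⟨g, hg⟩ := ha μ hμ θ hθp
      exact ⟨g, fun _ => hg⟩
    · exact ⟨0, fun h => absurd h hμ⟩
  choose g hg using hex
  obtain ⟨f, hf⟩ : ∃ f, f = ∑ μ ∈ Λ, g μ * monomial (QI_hat q μ) (1 : ℚ) := ⟨_, rfl⟩
  have hcoeff : ∀ b ∈ (g μ₀).support, f.coeff (b + QI_hat q μ₀) = (g μ₀).coeff b := by
    intro b hb
    rw [hf]
    exact QI_coeff q Λ g (fun μ hμ => (hg μ hμ).1) μ₀ hμ₀ b hb
  -- the value of `f` is small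
  have hsmall : ∀ᶠ l : ℕ in (X.𝒰 : Filter ℕ),
      |((evw (X.w l) f : ℚ) : ℝ)| ≤ (1 + (Λ.card : ℝ)) * θ ^ X.m l := by
    have h2 : ∀ᶠ l : ℕ in (X.𝒰 : Filter ℕ), ∀ μ ∈ Λ,
        |a μ l - ((evw (X.w l) (g μ) : ℚ) : ℝ)| ≤ θ ^ X.m l :=
      (Filter.eventually_all_finset Λ).2 fun μ hμ => (hg μ hμ).2
    filter_upwards [hN θ hθp, h2] with l l1 l2
    have e1 : ((evw (X.w l) f : ℚ) : ℝ) = (∑ μ ∈ Λ, a μ l *
        ((μ.prod fun i s => vz (X.w l) (q, i) ^ s : ℚ) : ℝ)) - ∑ μ ∈ Λ,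
        (a μ l - ((evw (X.w l) (g μ) : ℚ) : ℝ)) *
          ((μ.prod fun i s => vz (X.w l) (q, i) ^ s : ℚ) : ℝ) := by
      rw [hf, map_sum, ← Finset.sum_sub_distrib, Rat.cast_sum]
      refine Finset.sum_congr rfl fun μ _ => ?_
      rw [map_mul, c5, one_mul, QI_mo, Rat.cast_mul]
      ring
    rw [e1]
    refine (abs_sub _ _).trans ?_
    have e2 : |∑ μ ∈ Λ, (a μ l - ((evw (X.w l) (g μ) : ℚ) : ℝ)) *
          ((μ.prod fun i s => vz (X.w l) (q, i) ^ s : ℚ) : ℝ)| ≤ Λ.card * θ ^ X.m l := by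
      refine (Finset.abs_sum_le_sum_abs _ _).trans ?_
      rw [← nsmul_eq_mul]
      refine Finset.sum_le_card_nsmul _ _ _ fun μ hμ => ?_
      obtain ⟨p1, p2⟩ := c3 (X.w l) (QI_hat q μ)
      rw [QI_mo] at p1 p2
      have p1' : (0 : ℝ) < ((μ.prod fun i s => vz (X.w l) (q, i) ^ s : ℚ) : ℝ) := by
        exact_mod_cast p1
      have p2' : ((μ.prod fun i s => vz (X.w l) (q, i) ^ s : ℚ) : ℝ) ≤ 1 := by
        exact_mod_cast p2
      rw [abs_mul, abs_of_pos p1']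
      calc _ ≤ θ ^ X.m l * 1 :=
            mul_le_mul (l2 μ hμ) p2' p1'.le (by positivity)
        _ = θ ^ X.m l := mul_one _
    linarith
  -- the value of `g μ₀` is large
  have hlarge : ∀ᶠ l : ℕ in (X.𝒰 : Filter ℕ),
      θ₀ ^ X.m l / 2 ≤ |((evw (X.w l) (g μ₀) : ℚ) : ℝ)| := by
    filter_upwards [hθ₀, (hg μ₀ hμ₀).2, X.hm 1] with l l1 l2 l3
    have e1 : θ ^ X.m l ≤ θ₀ ^ X.m l / 2 := by
      have e2 : θ ^ X.m l ≤ (θ₀ / 2) ^ X.m l := pow_le_pow_left₀ hθp.le hθ2 _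
      have e3 : (θ₀ / 2) ^ X.m l ≤ θ₀ ^ X.m l / 2 := by
        rw [div_pow]
        refine div_le_div_of_nonneg_left (by positivity) (by norm_num) ?_
        calc (2 : ℝ) = 2 ^ 1 := (pow_one _).symm
          _ ≤ 2 ^ X.m l := pow_le_pow_right₀ (by norm_num) l3
      linarith
    have e4 : |a μ₀ l| ≤ |a μ₀ l - ((evw (X.w l) (g μ₀) : ℚ) : ℝ)| +
        |((evw (X.w l) (g μ₀) : ℚ) : ℝ)| := by
      have := abs_add_le (a μ₀ l - ((evw (X.w l) (g μ₀) : ℚ) : ℝ))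
        ((evw (X.w l) (g μ₀) : ℚ) : ℝ)
      rwa [sub_add_cancel] at this
    linarith
  have hgne : g μ₀ ≠ 0 := by
    intro h
    obtain ⟨l, hl⟩ := hlarge.exists
    rw [h, map_zero, Rat.cast_zero, abs_zero] at hl
    have : 0 < θ₀ ^ X.m l / 2 := by positivity
    linarith
  have hfne : f ≠ 0 := by
    intro h
    obtain ⟨b, hb⟩ := support_nonempty.2 hgne
    have e := hcoeff b hb
    rw [h, coeff_zero] at e
    exact mem_support_iff.1 hb e.symm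
  obtain ⟨A, hA⟩ : ∃ A : ℝ, A = ∑ b ∈ (g μ₀).support, |(((g μ₀).coeff b : ℚ) : ℝ)| := ⟨_, rfl⟩
  have hA0 : 0 ≤ A := by
    rw [hA]
    exact Finset.sum_nonneg fun _ _ => abs_nonneg _
  -- the contradiction
  obtain ⟨N, hN2⟩ : ∃ N : ℕ, A * (1 + (Λ.card : ℝ)) * (3 / 8 : ℝ) ^ N < 1 / 2 := by
    obtain ⟨N, hN2⟩ := exists_pow_lt_of_lt_one
      (show (0 : ℝ) < (1 / 2) / (A * (1 + (Λ.card : ℝ)) + 1) by positivity)
      (show (3 / 8 : ℝ) < 1 by norm_num)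
    refine ⟨N, ?_⟩
    rw [lt_div_iff₀ (by positivity)] at hN2
    have : (0 : ℝ) < (3 / 8 : ℝ) ^ N := by positivity
    nlinarith
  obtain ⟨l, l1, l2, l3, l4, l5⟩ := (hsmall.and (hlarge.and (hc₀.and
    ((hB0 κ X f 1 hfne one_pos).and (X.hm N))))).exists
  have hmo : ∀ b ∈ (g μ₀).support, ((mo (X.w l) b : ℚ) : ℝ) ≤
      (1 + (Λ.card : ℝ)) * (3 / 8 * θ₀) ^ X.m l := by
    intro b hb
    have hb' : b + QI_hat q μ₀ ∈ f.support := by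
      rw [mem_support_iff, hcoeff b hb]
      exact mem_support_iff.1 hb
    have e1 := (l4 _ hb').trans l1
    rw [c1, Rat.cast_mul] at e1
    obtain ⟨p1, -⟩ := c3 (X.w l) b
    have p1' : (0 : ℝ) < ((mo (X.w l) b : ℚ) : ℝ) := by exact_mod_cast p1
    have e2 : ((mo (X.w l) b : ℚ) : ℝ) * (Real.exp (-(1 * X.m l)) * c₀ ^ X.m l) ≤
        (1 + (Λ.card : ℝ)) * θ ^ X.m l := by
      refine le_trans ?_ e1
      have e3 : (0 : ℝ) ≤ ((mo (X.w l) b : ℚ) : ℝ) * Real.exp (-(1 * X.m l)) := by positivity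
      nlinarith [mul_le_mul_of_nonneg_left l3 e3]
    have e4 : θ ^ X.m l ≤ (3 / 8 * θ₀) ^ X.m l * (Real.exp (-(1 * X.m l)) * c₀ ^ X.m l) := by
      have e5 : Real.exp (-(1 * (X.m l : ℝ))) = (Real.exp (-1)) ^ X.m l := by
        rw [← Real.exp_nat_mul]
        congr 1
        ring
      rw [e5, ← mul_pow, ← mul_pow]
      refine pow_le_pow_left₀ hθp.le ?_ _
      have e6 : (1 : ℝ) / 3 ≤ Real.exp (-1) := by
        rw [Real.exp_neg, one_div]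
        exact inv_anti₀ (Real.exp_pos 1) (by linarith [Real.exp_one_lt_d9])
      rw [hθ]
      have e7 : (0 : ℝ) ≤ 3 / 8 * θ₀ * c₀ := by positivity
      nlinarith [mul_le_mul_of_nonneg_left e6 e7]
    have e8 : (0 : ℝ) < Real.exp (-(1 * X.m l)) * c₀ ^ X.m l := by positivity
    refine le_of_mul_le_mul_right (e2.trans ?_) e8
    rw [mul_assoc]
    exact mul_le_mul_of_nonneg_left e4 (by positivity)
  have e9 : |((evw (X.w l) (g μ₀) : ℚ) : ℝ)| ≤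
      A * ((1 + (Λ.card : ℝ)) * (3 / 8 * θ₀) ^ X.m l) := by
    rw [c4, Rat.cast_sum, hA, Finset.sum_mul]
    refine (Finset.abs_sum_le_sum_abs _ _).trans (Finset.sum_le_sum fun b hb => ?_)
    obtain ⟨p1, -⟩ := c3 (X.w l) b
    have p1' : (0 : ℝ) < ((mo (X.w l) b : ℚ) : ℝ) := by exact_mod_cast p1
    rw [Rat.cast_mul, abs_mul, abs_of_pos p1']
    exact mul_le_mul_of_nonneg_left (hmo b hb) (abs_nonneg _)
  have e10 : θ₀ ^ X.m l / 2 ≤ A * ((1 + (Λ.card : ℝ)) * (3 / 8 * θ₀) ^ X.m l) := l2.trans e9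
  rw [mul_pow] at e10
  have e11 : (3 / 8 : ℝ) ^ X.m l ≤ (3 / 8 : ℝ) ^ N :=
    pow_le_pow_of_le_one (by norm_num) (by norm_num) l5
  have e12 : 0 < θ₀ ^ X.m l := by positivity
  have e13 : A * (1 + (Λ.card : ℝ)) * (3 / 8 : ℝ) ^ X.m l < 1 / 2 := by
    refine lt_of_le_of_lt ?_ hN2
    exact mul_le_mul_of_nonneg_left e11 (by positivity)
  have e14 : A * ((1 + (Λ.card : ℝ)) * ((3 / 8) ^ X.m l * θ₀ ^ X.m l)) =
      (A * (1 + (Λ.card : ℝ)) * (3 / 8 : ℝ) ^ X.m l) * θ₀ ^ X.m l := by ring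
  rw [e14] at e10
  nlinarith [mul_lt_mul_of_pos_right e13 e12]

end Pool.Agent.Work.MP_f1a024_nt.TU
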