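import Pool.Agent.Work.MP_f1a024_nt.TU.Stmts

/-!
# Block TU, item SEP (helper43)
-/

set_option autoImplicit false

namespace Pool.Agent.Work.MP_f1a024_nt.TU

open Finset

/-- `ψ` -/
noncomputable def SEP_psi (z : ℝ) : ℝ := Real.log (1 + z) - Real.log (1 - z)

theorem SEP_lower {z : ℝ} (h0 : 0 < z) (h1 : z ≤ 1 / 2) : z ≤ SEP_psi z := by
  unfold SEP_psi
  have a1 : 0 ≤ Real.log (1 + z) := Real.log_nonneg (by linarith)
  have a2 : Real.log (1 - z) ≤ (1 - z) - 1 := Real.log_le_sub_one_of_pos (by linarith)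
  linarith

theorem SEP_upper {z : ℝ} (h0 : 0 < z) (h1 : z ≤ 1 / 2) : SEP_psi z ≤ 3 * z := by
  unfold SEP_psi
  have a1 : Real.log (1 + z) ≤ (1 + z) - 1 := Real.log_le_sub_one_of_pos (by linarith)
  have hz : 0 < 1 - z := by linarith
  have a2 : Real.log ((1 - z)⁻¹) ≤ (1 - z)⁻¹ - 1 := Real.log_le_sub_one_of_pos (by positivity)
  rw [Real.log_inv] at a2
  have a3 : (1 - z)⁻¹ ≤ 1 + 2 * z := by
    rw [inv_le_iff_one_le_mul₀ hz]
    nlinarith
  linarith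

theorem SEP_log {k d q : ℕ} (n : Fin k → ℕ) (I : Fin k → Fin (d + 1)) (hq : 2 ≤ q)
    (hn : ∀ j, 1 ≤ n j) : Real.log (eu q n I) =
      ∑ j, (d : ℝ) * Real.log (1 + ((q : ℝ) ^ n j)⁻¹) -
        ∑ j, ((I j : ℕ) : ℝ) * SEP_psi ((q : ℝ) ^ n j)⁻¹ := by
  have hz : ∀ j, 0 < ((q : ℝ) ^ n j)⁻¹ ∧ ((q : ℝ) ^ n j)⁻¹ ≤ 1 / 2 := by
    intro j
    have hq' : (2 : ℝ) ≤ q := by exact_mod_cast hq
    refine ⟨by positivity, ?_⟩
    rw [one_div]
    refine inv_anti₀ (by norm_num) ?_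
    calc (2 : ℝ) ≤ q := hq'
      _ = (q : ℝ) ^ 1 := (pow_one _).symm
      _ ≤ (q : ℝ) ^ n j := pow_le_pow_right₀ (by linarith) (hn j)
  unfold eu
  rw [Real.log_prod fun j _ => by
    have := hz j
    have h1 : 0 < 1 - ((q : ℝ) ^ n j)⁻¹ := by linarith
    have h2 : 0 < 1 + ((q : ℝ) ^ n j)⁻¹ := by linarith
    positivity]
  rw [← Finset.sum_sub_distrib]
  refine Finset.sum_congr rfl fun j _ => ?_
  have := hz j
  have h1 : 0 < 1 - ((q : ℝ) ^ n j)⁻¹ := by linarith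
  have h2 : 0 < 1 + ((q : ℝ) ^ n j)⁻¹ := by linarith
  rw [Real.log_mul (by positivity) (by positivity), Real.log_pow, Real.log_pow,
    Nat.cast_sub (Nat.lt_succ_iff.1 (I j).2)]
  unfold SEP_psi
  ring

theorem prfSEP : SEP := by
  intro k d q n I J hq h2 hinj hn h
  have hq2 : (2 : ℝ) ≤ q := by exact_mod_cast h2
  set z : Fin k → ℝ := fun j => ((q : ℝ) ^ n j)⁻¹ with hzdef
  have hz : ∀ j, 0 < z j ∧ z j ≤ 1 / 2 := by
    intro j
    refine ⟨by positivity, ?_⟩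
    rw [one_div]
    refine inv_anti₀ (by norm_num) ?_
    calc (2 : ℝ) ≤ q := hq2
      _ = (q : ℝ) ^ 1 := (pow_one _).symm
      _ ≤ (q : ℝ) ^ n j := pow_le_pow_right₀ (by linarith) (hn j)
  have e1 := SEP_log n I h2 hn
  have e2 := SEP_log n J h2 hn
  rw [h, e2] at e1
  have e3 : ∑ j, ((I j : ℕ) : ℝ) * SEP_psi (z j) = ∑ j, ((J j : ℕ) : ℝ) * SEP_psi (z j) := by
    have : ∑ j, ((I j : ℕ) : ℝ) * SEP_psi ((q : ℝ) ^ n j)⁻¹ =
        ∑ j, ((J j : ℕ) : ℝ) * SEP_psi ((q : ℝ) ^ n j)⁻¹ := by linarith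
    exact this
  have e4 : ∑ j, (((I j : ℕ) : ℝ) - ((J j : ℕ) : ℝ)) * SEP_psi (z j) = 0 := by
    simp only [sub_mul]
    rw [Finset.sum_sub_distrib, e3, sub_self]
  by_contra hne
  obtain ⟨j1, hj1⟩ : ∃ j, I j ≠ J j := by
    by_contra hc
    push Not at hc
    exact hne (funext hc)
  obtain ⟨j0, hj0, hmin⟩ := Finset.exists_min_image
    (Finset.univ.filter fun j => I j ≠ J j) n ⟨j1, by simp [hj1]⟩
  rw [Finset.mem_filter] at hj0
  have hI0 : (I j0 : ℕ) ≠ (J j0 : ℕ) := fun hc => hj0.2 (Fin.ext hc)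
  have e5 := Finset.add_sum_erase Finset.univ
    (fun j => (((I j : ℕ) : ℝ) - ((J j : ℕ) : ℝ)) * SEP_psi (z j)) (Finset.mem_univ j0)
  rw [e4] at e5
  have hψ0 := SEP_lower (hz j0).1 (hz j0).2
  have hψpos : 0 < SEP_psi (z j0) := lt_of_lt_of_le (hz j0).1 hψ0
  -- the term at `j0`
  have h1 : 1 ≤ |((I j0 : ℕ) : ℝ) - ((J j0 : ℕ) : ℝ)| := by
    have h3 : (1 : ℤ) ≤ |((I j0 : ℕ) : ℤ) - ((J j0 : ℕ) : ℤ)| := by
      apply Int.one_le_abs
      intro hc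
      apply hI0
      omega
    exact_mod_cast h3
  have h4 : z j0 ≤ |(((I j0 : ℕ) : ℝ) - ((J j0 : ℕ) : ℝ)) * SEP_psi (z j0)| := by
    rw [abs_mul, abs_of_pos hψpos]
    calc z j0 ≤ 1 * SEP_psi (z j0) := by rw [one_mul]; exact hψ0
      _ ≤ _ := mul_le_mul_of_nonneg_right h1 hψpos.le
  have h5 : |(((I j0 : ℕ) : ℝ) - ((J j0 : ℕ) : ℝ)) * SEP_psi (z j0)| ≤
      ∑ j ∈ Finset.univ.erase j0, |(((I j : ℕ) : ℝ) - ((J j : ℕ) : ℝ)) * SEP_psi (z j)| := by
    have : (((I j0 : ℕ) : ℝ) - ((J j0 : ℕ) : ℝ)) * SEP_psi (z j0) =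
        -∑ j ∈ Finset.univ.erase j0, (((I j : ℕ) : ℝ) - ((J j : ℕ) : ℝ)) * SEP_psi (z j) := by
      linarith
    rw [this, abs_neg]
    exact Finset.abs_sum_le_sum_abs _ _
  have h6 : ∀ j ∈ Finset.univ.erase j0,
      |(((I j : ℕ) : ℝ) - ((J j : ℕ) : ℝ)) * SEP_psi (z j)| ≤ d * (3 * (z j0 / q)) := by
    intro j hj
    have hjne : j ≠ j0 := (Finset.mem_erase.1 hj).1
    by_cases hIJ : I j = J j
    · rw [hIJ, sub_self, zero_mul, abs_zero]
      have := (hz j0).1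
      positivity
    · have hnj : n j0 + 1 ≤ n j := by
        have a1 := hmin j (by simp [hIJ])
        have a2 : n j ≠ n j0 := fun hc => hjne (hinj hc)
        omega
      have hzj : z j ≤ z j0 / q := by
        have a3 : z j0 / q = ((q : ℝ) ^ (n j0 + 1))⁻¹ := by
          rw [hzdef]
          show ((q : ℝ) ^ n j0)⁻¹ / q = _
          rw [pow_succ, mul_inv, div_eq_mul_inv]
        rw [a3]
        exact inv_anti₀ (by positivity) (pow_le_pow_right₀ (by linarith) hnj)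
      have hψj := SEP_upper (hz j).1 (hz j).2
      have hψj0 := SEP_lower (hz j).1 (hz j).2
      have hψjp : 0 ≤ SEP_psi (z j) := (hz j).1.le.trans hψj0
      rw [abs_mul, abs_of_nonneg hψjp]
      have hd : |((I j : ℕ) : ℝ) - ((J j : ℕ) : ℝ)| ≤ d := by
        have a4 : ((I j : ℕ) : ℝ) ≤ d := by exact_mod_cast Nat.lt_succ_iff.1 (I j).2
        have a5 : ((J j : ℕ) : ℝ) ≤ d := by exact_mod_cast Nat.lt_succ_iff.1 (J j).2
        have a6 : (0 : ℝ) ≤ ((I j : ℕ) : ℝ) := Nat.cast_nonneg _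
        have a7 : (0 : ℝ) ≤ ((J j : ℕ) : ℝ) := Nat.cast_nonneg _
        rw [abs_le]
        constructor <;> linarith
      exact mul_le_mul hd (by linarith) hψjp (Nat.cast_nonneg _)
  have h7 := Finset.sum_le_card_nsmul _ _ _ h6
  rw [nsmul_eq_mul] at h7
  have h8 : ((Finset.univ.erase j0).card : ℝ) ≤ k := by
    have : (Finset.univ.erase j0).card ≤ k := by
      refine (Finset.card_erase_le).trans ?_
      simp
    exact_mod_cast this
  have h9 : z j0 ≤ k * (d * (3 * (z j0 / q))) := by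
    refine (h4.trans h5).trans (h7.trans ?_)
    refine mul_le_mul_of_nonneg_right h8 ?_
    have := (hz j0).1
    positivity
  have hqpos : (0 : ℝ) < q := by linarith
  have h10 : z j0 * q ≤ (3 * k * d) * z j0 := by
    have : k * (d * (3 * (z j0 / q))) = (3 * k * d) * z j0 / q := by ring
    rw [this, le_div_iff₀ hqpos] at h9
    exact h9
  have h11 : ((3 * k * d : ℕ) : ℝ) < q := by exact_mod_cast hq
  push_cast at h11
  have := (hz j0).1
  nlinarith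

end Pool.Agent.Work.MP_f1a024_nt.TU
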