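import Pool.Agent.Work.MP_f1a024_nt.TU.Stmts

/-!
# Block TU: item SHV (values of shifts)
-/

namespace Pool.Agent.Work.MP_f1a024_nt.TU

open Finset MvPolynomial Filter

theorem SHV_le_up {κ : ℕ} {ι : Type} [Fintype ι] (f : ι → Rv κ) (k : ι) {c : Ev κ}
    (hc : c ∈ (f k).support) : c ≤ upv f := by
  unfold upv
  have h1 : c ≤ (f k).support.sup id := Finset.le_sup (f := id) hc
  have h2 : (f k).support.sup id ≤ Finset.univ.sup fun k => (f k).support.sup id :=
    Finset.le_sup (f := fun k => (f k).support.sup id) (Finset.mem_univ k)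
  exact h1.trans h2

theorem SHV_one (hC1 : C1) {κ : ℕ} {ι : Type} [Fintype ι] (f : ι → Rv κ) (a δ : Ev κ)
    (h : a + upv f ≤ δ) (w : Fin κ → ℕ) (x : ι → ℤ) (k : ι) :
    ∑ b ∈ Iic δ, shv f a (k, b) * ptv w x (k, b) =
      mo w a * (evw w (f k) * (x k : ℚ)) := by
  obtain ⟨hmul, -, -, hev, -⟩ := hC1 κ
  have hsub : (f k).support.image (fun c => a + c) ⊆ Iic δ := by
    intro b hb
    obtain ⟨c, hc, rfl⟩ := Finset.mem_image.mp hb
    rw [Finset.mem_Iic]
    exact (add_le_add le_rfl (SHV_le_up f k hc)).trans h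
  have hz : ∀ b ∈ Iic δ, b ∉ (f k).support.image (fun c => a + c) →
      shv f a (k, b) * ptv w x (k, b) = 0 := by
    intro b _ hb
    have hs : shv f a (k, b) = 0 := by
      unfold shv
      by_cases hab : a ≤ b
      · rw [if_pos hab]
        by_contra hne
        refine hb (Finset.mem_image.mpr ⟨b - a, MvPolynomial.mem_support_iff.mpr hne, ?_⟩)
        exact add_tsub_cancel_of_le hab
      · rw [if_neg hab]
    rw [hs, zero_mul]
  have hinj : Function.Injective (fun c : Ev κ => a + c) := fun c c' hcc => by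
    have := congrArg (fun b => b - a) hcc
    simpa using this
  rw [← Finset.sum_subset hsub hz, Finset.sum_image (fun c _ c' _ hcc => hinj hcc),
    hev, Finset.sum_mul, Finset.mul_sum]
  refine Finset.sum_congr rfl fun c _ => ?_
  unfold shv ptv
  rw [if_pos (le_self_add : a ≤ a + c)]
  simp only [add_tsub_cancel_left]
  rw [hmul]
  ring

theorem prfSHV (hC1 : C1) : SHV := by
  intro κ ι _ f a δ h w x
  unfold bxv
  rw [Finset.sum_product, Finset.mul_sum]
  exact Finset.sum_congr rfl fun k _ => SHV_one hC1 f a δ h w x k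

end Pool.Agent.Work.MP_f1a024_nt.TU
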