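import Pool.Agent.Work.MP_f1a024_nt.TU.Stmts

/-!
# Block TU, item SU: the values of a nonzero polynomial are not zero
-/

namespace Pool.Agent.Work.MP_f1a024_nt.TU

open Finset MvPolynomial Filter

theorem prfSU (hC1 : C1) (hC2 : C2) (hUQ0 : UQ0) : SU := by
  classical
  intro κ X g hg
  obtain ⟨-, -, hpos, hev, -, hnorm, -, -, -⟩ := hC1 κ
  by_contra hcon
  have hz : ∀ᶠ l : ℕ in (X.𝒰 : Filter ℕ), evw (X.w l) g = 0 := by
    have h1 := (Ultrafilter.eventually_not (f := X.𝒰)
      (p := fun l => evw (X.w l) g ≠ 0)).2 hcon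
    exact h1.mono fun l hl => not_not.1 hl
  set S : Finset (Ev κ) := g.support with hS
  let b : Fin S.card ≃ S := S.equivFin.symm
  let PP : Finset Nat.Primes := S.biUnion fun a => a.support.image Prod.fst
  have hc : (fun i : Fin S.card => g.coeff (b i : Ev κ)) ≠ 0 := by
    intro h0
    have hne : S.Nonempty := by
      rw [hS]
      exact MvPolynomial.support_nonempty.2 hg
    obtain ⟨a, ha⟩ := hne
    have h1 := congrFun h0 (b.symm ⟨a, ha⟩)
    simp only [Equiv.apply_symm_apply, Pi.zero_apply] at h1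
    exact MvPolynomial.mem_support_iff.1 (hS ▸ ha) h1
  obtain ⟨L, hL, hU⟩ := hUQ0 PP S.card _ hc
  have hex : ∀ᶠ l : ℕ in (X.𝒰 : Filter ℕ), ∃ i j : Fin S.card, i ≠ j ∧
      mo (X.w l) (b i : Ev κ) / mo (X.w l) (b j : Ev κ) ∈ L := by
    refine hz.mono fun l hl => ?_
    refine hU (fun i => mo (X.w l) (b i : Ev κ)) ?_ ?_
    · intro i
      refine ⟨(hpos (X.w l) _).1.ne', fun q hq => ?_⟩
      rw [hnorm]
      have h0 : ∑ j, X.w l j * (b i : Ev κ) (q, j) = 0 := by
        refine Finset.sum_eq_zero fun j _ => ?_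
        have h1 : (b i : Ev κ) (q, j) = 0 := by
          by_contra h2
          apply hq
          rw [Finset.mem_biUnion]
          exact ⟨(b i : Ev κ), (b i).2, Finset.mem_image.2
            ⟨(q, j), Finsupp.mem_support_iff.2 h2, rfl⟩⟩
        rw [h1, mul_zero]
      rw [h0, pow_zero]
    · rw [hev] at hl
      rw [← hl]
      have h2 := Finset.sum_coe_sort S fun a => g.coeff a * mo (X.w l) a
      rw [← hS, ← h2]
      exact Equiv.sum_comp b fun a : S => g.coeff (a : Ev κ) * mo (X.w l) (a : Ev κ)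
  have hall : ∀ᶠ l : ℕ in (X.𝒰 : Filter ℕ), ∀ i j : Fin S.card, i ≠ j → ∀ t ∈ hL.toFinset,
      mo (X.w l) (b i : Ev κ) ≠ t * mo (X.w l) (b j : Ev κ) := by
    rw [Filter.eventually_all]
    intro i
    rw [Filter.eventually_all]
    intro j
    rw [Filter.eventually_imp_distrib_left]
    intro hij
    rw [Filter.eventually_all_finset]
    intro t _
    refine hC2 κ X _ _ t fun hb => hij ?_
    exact b.injective (Subtype.ext hb)
  obtain ⟨l, ⟨i, j, hij, hmem⟩, hl⟩ := (hex.and hall).exists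
  refine hl i j hij _ (hL.mem_toFinset.2 hmem) ?_
  rw [div_mul_cancel₀ _ (hpos (X.w l) _).1.ne']

end Pool.Agent.Work.MP_f1a024_nt.TU
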