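import Pool.Agent.Work.MP_f1a024_nt.TU.Defs

/-!
# Block TU: statements (THEOREM T')

For all `k, d, C, B` there are `θ < 1` and `M` such that for `m ≥ M`, for all different
`n_1, ..., n_k` in `[m, C m]` and all nonzero integer polynomials `P` of degree at most `d` in each
variable with coefficients bounded by `B ^ m`: `|P(t(n_1), ..., t(n_k))| ≥ θ ^ m`, where
`t(n) = ζ(2n)/ζ(n)^2`.

Notation in the proofs: `𝒰` is an ultrafilter on `ℕ` (`X.𝒰`), a.a. means `∀ᶠ l : ℕ in 𝒰`, `m` is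
`X.m l`, `w` is `X.w l`. Recall: for an ultrafilter, if a property does not hold a.a. then its
negation holds a.a. (`Ultrafilter.eventually_not`), if `P or Q` holds a.a. then `P` holds a.a. or `Q`
holds a.a. (`Ultrafilter.eventually_or`), and if a.a. `l` have some element of a FINITE set with a
property, then some element has the property for a.a. `l` (induction, or
`Ultrafilter.finite_biUnion_mem_iff`). Every item may assume all other items it quotes, as hypotheses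
(`theorem prfSU (h1 : C1) (h2 : C2) : SU`).
-/

namespace Pool.Agent.Work.MP_f1a024_nt.TU

open Finset MvPolynomial Filter
open Pool.Agent.Work.MP_f1a024_nt.AH (tau PG val D1 D2 D4 D10a D10b)

/-! ## Part 0: basic facts -/

/-- NA (EASY): algebra of negligible and of bounded sequences. All statements hold for `l` with
`m = X.m l ≥ 1` (`X.hm 1`). (1) use `θ / 2`: `2 (θ/2)^m ≤ θ^m`. (2) `|z| ≤ K^m`, use `θ / K`.
(3) otherwise there is `θ > 0` with not a.a. `|y| ≤ θ^m`, so a.a. `θ^m < |y|`; replace `θ` by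
`min θ (1/2)`. (4) clear. (5) `Finset` induction with (1), the sequence `0` is negligible.
(6) `K^m + K'^m ≤ (K + K')^m` for `m ≥ 1`. (7) `K K'`. (8) `max |c| 1`, as `m ≥ 1`. (9) `Finset`
induction with (6), (8). (10) `Finset` induction with (7), (8). (11) if also `|y| ≤ (θ/2)^m` a.a.
then `c θ^m ≤ (θ/2)^m`, so `c ≤ 2^(-m)` for arbitrarily large `m`, a contradiction. -/
def NA : Prop :=
  ∀ (κ : ℕ) (X : Cx κ),
    (∀ y z : ℕ → ℝ, Neg X y → Neg X z → Neg X fun l => y l + z l) ∧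
    (∀ y z : ℕ → ℝ, Neg X y → Bdd X z → Neg X fun l => y l * z l) ∧
    (∀ y : ℕ → ℝ, ¬ Neg X y → ∃ θ : ℝ, 0 < θ ∧ θ < 1 ∧
      ∀ᶠ l : ℕ in (X.𝒰 : Filter ℕ), θ ^ X.m l < |y l|) ∧
    (∀ y z : ℕ → ℝ, (∀ᶠ l : ℕ in (X.𝒰 : Filter ℕ), y l = z l) → Neg X y → Neg X z) ∧
    (∀ (ι : Type) (s : Finset ι) (y : ι → ℕ → ℝ), (∀ i ∈ s, Neg X (y i)) →
      Neg X fun l => ∑ i ∈ s, y i l) ∧
    (∀ y z : ℕ → ℝ, Bdd X y → Bdd X z → Bdd X fun l => y l + z l) ∧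
    (∀ y z : ℕ → ℝ, Bdd X y → Bdd X z → Bdd X fun l => y l * z l) ∧
    (∀ c : ℝ, Bdd X fun _ => c) ∧
    (∀ (ι : Type) (s : Finset ι) (y : ι → ℕ → ℝ), (∀ i ∈ s, Bdd X (y i)) →
      Bdd X fun l => ∑ i ∈ s, y i l) ∧
    (∀ (ι : Type) (s : Finset ι) (y : ι → ℕ → ℝ), (∀ i ∈ s, Bdd X (y i)) →
      Bdd X fun l => ∏ i ∈ s, y i l) ∧
    ∀ (y : ℕ → ℝ) (c θ : ℝ), 0 < c → 0 < θ →
      (∀ᶠ l : ℕ in (X.𝒰 : Filter ℕ), c * θ ^ X.m l ≤ |y l|) → ¬ Neg X y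

/-- C1 (EASY): monomials. (1) `Finsupp.prod_add_index'`, (2) `Finsupp.prod_zero_index`, (3) the
factors `vz w v ^ k` are in `(0, 1]`, (4) `MvPolynomial.aeval_def`, `eval₂_eq'` or `aeval_eq_...`,
`as_sum`; (5) `aeval_monomial`. (6) `padicNorm` is multiplicative (`padicNorm.mul`, a product over
the support of `b`); `padicNorm p (vz w (q, i)) = p ^ w_i` for `q = p` and `1` for `q ≠ p`
(`padicNorm.padicNorm_p`, `padicNorm.padicNorm_of_prime_of_ne`, powers, inverses); so only the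
`v = (p, i)` in the support count; the exponents add up to `∑_i w_i b_(p,i)` (the sum over all `i`:
terms outside the support are `0`). (7) the product over `p ∈ PP`: both sides are multiplicative in
`b`; or by (6) the left side is `∏_{p ∈ PP} p ^ (∑_i w_i b_(p,i))` and
`(mo w b)⁻¹ = ∏_v (v.1 ^ w_(v.2)) ^ (b v)` is the same (group the `v` according to the prime,
`Finset.prod_fiberwise_of_maps_to` or `Finset.prod_product`). (8) `c = ∏_v ((1/v.1)^K)^(b v) / 2`, because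
`w_i ≤ K m` a.a. (`X.hw`); so `mo w b ≥ (2c)^m ≥ c^m` and `c ≤ 1/2`. (9) by (3), (4)
`|evw w g| ≤ ∑ |coeff|`, and `m ≥ 1` a.a. -/
def C1 : Prop :=
  ∀ κ : ℕ, (∀ (w : Fin κ → ℕ) (a b : Ev κ), mo w (a + b) = mo w a * mo w b) ∧
    (∀ w : Fin κ → ℕ, mo w 0 = 1) ∧
    (∀ (w : Fin κ → ℕ) (b : Ev κ), 0 < mo w b ∧ mo w b ≤ 1) ∧
    (∀ (w : Fin κ → ℕ) (g : Rv κ), evw w g = ∑ b ∈ g.support, g.coeff b * mo w b) ∧
    (∀ (w : Fin κ → ℕ) (b : Ev κ) (c : ℚ), evw w (monomial b c) = c * mo w b) ∧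
    (∀ (w : Fin κ → ℕ) (b : Ev κ) (p : Nat.Primes),
      padicNorm p (mo w b) = ((p : ℕ) : ℚ) ^ (∑ i, w i * b (p, i))) ∧
    (∀ (w : Fin κ → ℕ) (b : Ev κ) (PP : Finset Nat.Primes), (∀ v ∈ b.support, v.1 ∈ PP) →
      ∏ p ∈ PP, padicNorm p (mo w b) = (mo w b)⁻¹) ∧
    (∀ (X : Cx κ) (b : Ev κ), ∃ c : ℝ, 0 < c ∧ c ≤ 1 / 2 ∧
      ∀ᶠ l : ℕ in (X.𝒰 : Filter ℕ), c ^ X.m l ≤ ((mo (X.w l) b : ℚ) : ℝ)) ∧
    ∀ (X : Cx κ) (g : Rv κ), Bdd X fun l => ((evw (X.w l) g : ℚ) : ℝ)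

/-- C2 (EASY-MEDIUM): different monomials are not proportional. Otherwise a.a.
`mo w a = c mo w b` (ultrafilter), and `c ≠ 0` (C1: `mo w a > 0`). Let `p` be a prime. The `p`-adic norms
(C1 (6)) give `p ^ (∑ w_i a_(p,i)) = p ^ (-v) * p ^ (∑ w_i b_(p,i))` with
`v = padicValRat p c` (`padicNorm.eq_zpow_of_nonzero`), so
`∑_i (a_(p,i) - b_(p,i)) w_i = -v` a.a. (integers; `zpow_right_injective₀`). By `X.hind`
`a_(p,i) = b_(p,i)` for all `i`. As `p` is arbitrary, `a = b`, a contradiction. -/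
def C2 : Prop :=
  ∀ (κ : ℕ) (X : Cx κ) (a b : Ev κ) (c : ℚ), a ≠ b →
    ∀ᶠ l : ℕ in (X.𝒰 : Filter ℕ), mo (X.w l) a ≠ c * mo (X.w l) b

/-- UQ0 (MEDIUM): relations between `S`-units over `ℚ`. This is `Tools.Subspace.ClaimU0` for
`K = ℚ` and `S` the image of `PP` under the bijection `P` of `RW.PLC` (its hypothesis on `USol` is
`Tools.Subspace.ClaimU3`): an `x i ≠ 0` with `padicNorm q (x i) = 1` for all `q ∉ PP` is in `nU S`,
because a finite place `v ∉ S` is `P q` with `q ∉ PP`, and `P q (x i) = padicNorm q (x i)`. Prove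
`theorem prfUQ0 (h0 : RW.PLC) (h1 : Tools.Subspace.ClaimU0) (h2 : Tools.Subspace.ClaimU3) : UQ0`
(full names `Pool.Agent.Work.MP_f1a024_nt.RW.PLC`, `Pool.Agent.Work.Tools.Subspace.ClaimU0`). -/
def UQ0 : Prop :=
  ∀ (PP : Finset Nat.Primes) (n : ℕ) (b : Fin n → ℚ), b ≠ 0 → ∃ L : Set ℚ, L.Finite ∧
    ∀ x : Fin n → ℚ, (∀ i, x i ≠ 0 ∧ ∀ q : Nat.Primes, q ∉ PP → padicNorm q (x i) = 1) →
      ∑ i, b i * x i = 0 → ∃ i j, i ≠ j ∧ x i / x j ∈ L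

/-- SU (MEDIUM): the values of a nonzero polynomial are not zero. Let `s = #supp g > 0`, let
`b : Fin s → Ev κ` be injective with image `supp g` (`Finset.equivFin`), `c_i ≠ 0` the coefficients,
and `PP` the set of the primes `v.1`, `v ∈ supp (b_i)`. If the claim is false, a.a.
`0 = evw w g = ∑_i c_i mo w (b_i)` (C1). The `x_i = mo w (b_i)` satisfy the hypotheses of UQ0 (C1
(3), (6): for `q ∉ PP` all `b_i (q, j) = 0`). So a.a. there are `i ≠ j` with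
`mo w (b_i) / mo w (b_j) ∈ L`; as there are finitely many `(i, j, λ)`, `λ ∈ L`, for some `i ≠ j`,
`λ` a.a. `mo w (b_i) = λ mo w (b_j)`, which contradicts C2. -/
def SU : Prop :=
  ∀ (κ : ℕ) (X : Cx κ) (g : Rv κ), g ≠ 0 →
    ∀ᶠ l : ℕ in (X.𝒰 : Filter ℕ), evw (X.w l) g ≠ 0

/-- B0 (MEDIUM): lower bound for the values of a nonzero polynomial (a theorem of Evertse). Let
`s = #supp g`. If `s = 1` then `evw w g = c mo w b`, `c ≠ 0`, and `|c| ≥ exp(-ε m)` a.a.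
Let `s ≥ 2`. Suppose the claim fails: a.a. some `b ∈ supp g` has
`|evw w g| < exp(-ε m) mo w b`; let `b₀ ∈ supp g` have the largest `mo w b₀`; by the ultrafilter the same
`b₀` may be taken for a.a. `l`, and a.a. `|evw w g| < exp(-ε m) mo w b₀`. Apply `RW.STQ` with `n = s`
(coordinates indexed by `Fin s ≃ supp g`), `PP` the set of primes in the exponents, `A p = 1`,
`A₀` the matrix with the row `(c_b)_b` (coefficients of `g`) at `b₀` and the unit rows elsewhere (its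
determinant is `c_{b₀} ≠ 0`; e.g. it is injective: if all `x_b = 0`, `b ≠ b₀`, and `∑ c_b x_b = 0`
then `x_{b₀} = 0`). The point is `x_b = mo w b`; `|x_b| ≤ 1 = G`; for `q ∉ PP` `padicNorm q (x_b) = 1`;
with `δ = ∑_{b ∈ supp g} b` put `g p = padicNorm p (mo w δ)`, so `padicNorm p (x_b) ≤ g p` (C1 (6)) and
`∏ g p = (mo w δ)⁻¹ ≤ R ^ m =: H`, `R = 1/c ≥ 2` with the `c` of C1 (8) for `δ`. The product in
STQ is `|evw w g| ∏_{b ≠ b₀} mo w b ∏_b (mo w b)⁻¹ = |evw w g| / mo w b₀ < exp(-ε m)` (C1 (7)) and this is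
`H ^ (-σ)` for `σ = ε / log R`. So a.a. `∑_b d_b mo w b = 0` for some `d ≠ 0` from a finite set, so
for one `d ≠ 0` a.a.; this contradicts SU for the polynomial `∑ d_b z^b ≠ 0`. -/
def B0 : Prop :=
  ∀ (κ : ℕ) (X : Cx κ) (g : Rv κ) (ε : ℝ), g ≠ 0 → 0 < ε →
    ∀ᶠ l : ℕ in (X.𝒰 : Filter ℕ), ∀ b ∈ g.support,
      Real.exp (-(ε * X.m l)) * ((mo (X.w l) b : ℚ) : ℝ) ≤ |((evw (X.w l) g : ℚ) : ℝ)|

/-! ## Part I: the Subspace theorem -/

/-- SHV (EASY-MEDIUM, a copy of `RW.SH`): values of shifts. The sum over the box is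
`∑_k ∑_{b ≤ δ, a ≤ b} coeff_{b-a}(f_k) x_k mo w b` (`Finset.sum_product`). Every `c` in the
support of `f_k` satisfies `c ≤ upv f` (`Finset.le_sup`), so `a + c ≤ a + upv f ≤ δ`: the terms with
nonzero coefficient are exactly `b = a + c`, `c ∈ supp f_k` (`Finset.sum_bij_ne_zero`, or
`Finset.sum_image` for the injective map `c ↦ a + c`, after `Finset.sum_subset`). As
`mo w (a + c) = mo w a mo w c`, the sum is `mo w a ∑_k x_k ∑_c coeff_c(f_k) mo w c`, and the inner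
sum is `evw w (f_k)` (C1). See `RW/SH.lean`. -/
def SHV : Prop :=
  ∀ (κ : ℕ) (ι : Type) [Fintype ι] (f : ι → Rv κ) (a δ : Ev κ), a + upv f ≤ δ →
    ∀ (w : Fin κ → ℕ) (x : ι → ℤ),
      ∑ i ∈ bxv ι δ, shv f a i * ptv w x i = mo w a * ∑ k, evw w (f k) * (x k : ℚ)

/-- LAT (EASY-MEDIUM, like `RW.TW`): the forms are independent. For `i` in the box, `i ∉ eev`, the
form `lfv i` is the coordinate, so `y i = 0`. For `i = (k, a + β) ∈ eev`, `a ≤ δ - upv f`,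
`i.2 - β = a` and the form is `shv f a`, so `∑_j shv f a j y j = 0`. Apply `RW.TRI` (generic) with `𝔹`
the box, `𝒜 = Iic (δ - upv f)`, `φ a = shv f a`, `e a = (k, a + β)`, `L = ℚᵒᵈ`,
`ρ a = toDual (mo w a)`. `e a` is in the box: `β ≤ upv f ≤ δ`, so `a + β ≤ δ`.
`φ a (e a) = coeff_β (f k) ≠ 0`. If `φ a (e a') ≠ 0` then `a ≤ a' + β` and
`c = a' + β - a ∈ supp (f k)`, `a + c = a' + β`, so `mo w a mo w c = mo w a' mo w β` (C1). If `c = β`
then `a = a'`. Otherwise `mo w c < mo w β`, so `mo w a' < mo w a`, that is `ρ a < ρ a'`. -/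
def LAT : Prop :=
  ∀ (κ : ℕ) (ι : Type) [Fintype ι] [DecidableEq ι] (f : ι → Rv κ) (k : ι) (β δ : Ev κ)
    (w : Fin κ → ℕ), β ∈ (f k).support → (∀ c ∈ (f k).support, c ≠ β → mo w c < mo w β) →
    upv f ≤ δ → ∀ y : ι × Ev κ → ℚ,
      (∀ i ∈ bxv ι δ, ∑ j ∈ bxv ι δ, lfv f k β (δ - upv f) i j * y j = 0) →
      ∀ i ∈ bxv ι δ, y i = 0

/-- PRV (MEDIUM, like `RW.PRI` and `RW.PRP`): the double product. Put `T = #Iic (δ - upv f)`. The
set `eev` is contained in the box (`β ≤ upv f ≤ δ`) and has `T` elements. For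
`i = (k, a + β) ∈ eev` the form is `shv f a` with the value `mo w a Λ` (SHV,
`Λ = ∑_k evw w (f k) x_k`), for the other `i = (k', b)` the form is the coordinate, of absolute value
`|x_k'| mo w b ≤ B mo w b`. So the product over the box is at most
`|Λ|^T (∏_{a ≤ δ - upv f} mo w a) B^(#box - T) ∏_{i ∈ box \ eev} mo w i.2`, and
`∏_{i ∈ eev} mo w i.2 = (mo w β)^T ∏_a mo w a` (`Finset.prod_image`), so this is
`|Λ|^T B^(#box - T) (mo w β)^(-T) ∏_{i ∈ box} mo w i.2`. At the finite places: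
`padicNorm p (x_k mo w b) ≤ padicNorm p (mo w b)` (`padicNorm.of_int`), and the product over
`p ∈ PP` of `padicNorm p (mo w b)` is `(mo w b)⁻¹` for `b ≤ δ` (C1 (7); `supp b ⊆ supp δ`). So the
product over the finite places is at most `(∏_{i ∈ box} mo w i.2)⁻¹`. -/
def PRV : Prop :=
  ∀ (κ : ℕ) (ι : Type) [Fintype ι] [DecidableEq ι] (f : ι → Rv κ) (k : ι) (β δ : Ev κ)
    (w : Fin κ → ℕ) (x : ι → ℤ) (B : ℝ) (PP : Finset Nat.Primes), 1 ≤ B →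
    (∀ i, |(x i : ℝ)| ≤ B) → β ∈ (f k).support → upv f ≤ δ → (∀ v ∈ δ.support, v.1 ∈ PP) →
    (∏ i ∈ bxv ι δ,
        |((∑ j ∈ bxv ι δ, lfv f k β (δ - upv f) i j * ptv w x j : ℚ) : ℝ)|) *
        ∏ p ∈ PP, ∏ i ∈ bxv ι δ, ((padicNorm p (ptv w x i) : ℚ) : ℝ) ≤
      |((∑ i, evw w (f i) * (x i : ℚ) : ℚ) : ℝ)| ^ (Iic (δ - upv f)).card *
        B ^ ((bxv ι δ).card - (Iic (δ - upv f)).card) *
        ((((mo w β : ℚ) : ℝ))⁻¹) ^ (Iic (δ - upv f)).card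

/-- CNTV (EASY-MEDIUM, like `RW.CNT`, see `RW/CNT.lean`): boxes. Let `v₀` be any variable
(`κ > 0`), `PV = supp γ ∪ {v₀}`, `P = #PV`, `g` a bound for the values of `γ`, and `δ = D` on `PV`,
`0` elsewhere, `D ≥ 1`, `D ≥ g`, `D + 1 ≥ 2 P g`. Then `#Iic δ = (D+1)^P` (`Finsupp.card_Iic`) and
`#Iic (δ - γ) = ∏_{v ∈ PV} (D - γ_v + 1) ≥ (D + 1 - g)^P = (D+1)^P (1 - g/(D+1))^P ≥
(D+1)^P (1 - P g / (D+1)) ≥ (D+1)^P / 2` (Bernoulli: `one_add_mul_le_pow`). -/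
def CNTV : Prop :=
  ∀ (κ : ℕ) (γ : Ev κ), 0 < κ → ∃ δ : Ev κ, δ ≠ 0 ∧ γ ≤ δ ∧
    (Iic δ).card ≤ 2 * (Iic (δ - γ)).card

/-- LAS (MEDIUM): the Subspace theorem. Apply `RW.SubST` with `𝒜 = ∅` (`α = Unit`, any `φ`),
`𝔹 = bxv ι δ` (at least `2` elements: `δ ≠ 0`), `PP` the set of the primes `v.1`, `v ∈ supp δ` (not
empty), `E₀ = ∅`, `E = ∅`, `L = lfv f k β (δ - upv f)`, independent by LAT at `w = X.w l₀` for any
`l₀` with the strict inequalities. With the `c` of C1 (8) for `δ` put `R = B / c ≥ 2` and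
`σ = log 4 / log R`. For a.a. `l` take the point `ptv w (x l)`: it is not zero at `(i, 0)` if
`x l i ≠ 0`; `padicNorm q ≤ 1` for `q ∉ PP` (C1 (6), the exponents `b ≤ δ` vanish at `(q, i)`;
`padicNorm.of_int`); `G = B^m` (C1 (3)); `g p = padicNorm p (mo w δ)` (C1 (6) is monotone in `b`);
`G ∏ g p = B^m (mo w δ)⁻¹ ≤ R^m =: H` (C1 (7), (8)). By PRV (with `B^m` for `B`) and the
hypothesis the double product is at most `(1/4)^m = H^(-σ)`. So a.a. there is `c ∈ 𝒢` with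
`∑_{i ∈ box} c_i ptv_i = 0`, and as `𝒢` is finite the same `c` for a.a. `l`. Put
`g_i = ∑_{b ≤ δ} monomial b (c (i, b))`; then `∑_i evw w (g_i) x_i = ∑_{(i,b) ∈ box} c (i, b) mo w b x_i = 0`
(C1 (5)), and `g ≠ 0` because `c` is not zero on the box (there is `y` with `∑_{box} c_i y_i ≠ 0`) and
`coeff_b (g_i) = c (i, b)` for `b ≤ δ`. -/
def LAS : Prop :=
  ∀ (κ : ℕ) (X : Cx κ) (ι : Type) [Fintype ι] [DecidableEq ι] (f : ι → Rv κ) (k : ι)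
    (β δ : Ev κ) (x : ℕ → ι → ℤ) (B : ℝ), β ∈ (f k).support →
    (∀ᶠ l : ℕ in (X.𝒰 : Filter ℕ),
      ∀ c ∈ (f k).support, c ≠ β → mo (X.w l) c < mo (X.w l) β) →
    upv f ≤ δ → δ ≠ 0 → 1 ≤ B →
    (∀ᶠ l : ℕ in (X.𝒰 : Filter ℕ), x l ≠ 0 ∧ ∀ i, |(x l i : ℝ)| ≤ B ^ X.m l) →
    (∀ᶠ l : ℕ in (X.𝒰 : Filter ℕ),
      |((∑ i, evw (X.w l) (f i) * (x l i : ℚ) : ℚ) : ℝ)| ^ (Iic (δ - upv f)).card *
        (B ^ X.m l) ^ ((bxv ι δ).card - (Iic (δ - upv f)).card) *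
        ((((mo (X.w l) β : ℚ) : ℝ))⁻¹) ^ (Iic (δ - upv f)).card ≤ (1 / 4 : ℝ) ^ X.m l) →
    ∃ g : ι → Rv κ, g ≠ 0 ∧
      ∀ᶠ l : ℕ in (X.𝒰 : Filter ℕ), ∑ i, evw (X.w l) (g i) * (x l i : ℚ) = 0

/-- LA (MEDIUM): Lemma A. NA (3) gives `θ₀ ∈ (0,1)` with `θ₀^m < |f_k|` a.a. Let `B ≥ 1` with
`|x_i| ≤ B^m` a.a. for all `i`, `N = card ι ≥ 1`, `θ = θ₀ / (8 B^(2N+1))`. Take `g_i ∈ Rv`
with `|f_i - evw w g_i| ≤ θ^m` a.a. As `|evw w g_k| ≥ θ₀^m - θ^m ≥ θ₀^m / 2 > 0` a.a. (`m ≥ 1`),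
`g_k ≠ 0`. By C2 (`c = 1`) a.a. all `mo w b`, `b ∈ supp g_k`, are different, so a.a. one of them is
strictly the largest, and by the ultrafilter there is `β ∈ supp g_k` with, a.a., `mo w c < mo w β` for
all other `c ∈ supp g_k`. With `A = ∑ |coeff_b g_k| > 0`: `θ₀^m / 2 ≤ |evw w g_k| ≤ A mo w β`. Further
`Λ = ∑ evw w (g_i) x_i` satisfies `|Λ| ≤ |∑ x_i f_i| + ∑ |x_i| |f_i - evw w g_i| ≤
θ^m + N B^m θ^m ≤ (N+1) (B θ)^m`. CNTV with `γ = upv g` gives `δ`, `T = #Iic (δ - γ) ≥ 1`,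
`#bxv = N #Iic δ ≤ 2 N T`. The product in LAS is at most
`((N+1) (Bθ)^m)^T (B^m)^(2NT) (2A θ₀^(-m))^T = (2A(N+1) (B^(2N+1) θ / θ₀)^m)^T =
(2A(N+1) 8^(-m))^T`, which is at most `(4^(-m))^T ≤ 4^(-m)` as soon as `2A(N+1) ≤ 2^m`. Now
LAS. -/
def LA : Prop :=
  ∀ (κ : ℕ), 0 < κ → ∀ (X : Cx κ) (ι : Type) [Fintype ι] [DecidableEq ι] (f : ι → ℕ → ℝ)
    (x : ℕ → ι → ℤ) (k : ι), (∀ i, Apx X ∅ (f i)) → ¬ Neg X (f k) →
    (∀ᶠ l : ℕ in (X.𝒰 : Filter ℕ), x l ≠ 0) → (∀ i, Bdd X fun l => (x l i : ℝ)) →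
    (Neg X fun l => ∑ i, (x l i : ℝ) * f i l) → ∃ g : ι → Rv κ, g ≠ 0 ∧
      ∀ᶠ l : ℕ in (X.𝒰 : Filter ℕ), ∑ i, evw (X.w l) (g i) * (x l i : ℚ) = 0

/-! ## Part II: approximable sequences -/

/-- AX (EASY-MEDIUM): closure properties. (1) `|y| ≤ |evw w g| + θ^m`, C1 (9) and NA. (2) use
`θ / 2` for both, `Free` is closed under sums and products
(`MvPolynomial.vars_add_subset`, `vars_mul`). (3) By (1) `|y|, |z| ≤ K^m`; approximate up to
`θ'^m` with `θ' = θ / (2 (K + 1))`, `θ' ≤ 1`: `|y z - g h| ≤ |y| |z - h| + |h| |y - g| ≤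
K^m θ'^m + (K^m + θ'^m) θ'^m ≤ 2 (K+1)^m θ'^m ≤ θ^m` (`m ≥ 1`; `g`, `h` for the values). (4) clear. (5)
`Free F g` implies `Free F' g`. (6) clear. (7), (8) `Finset` induction (the constants `0`, `1` are the
values of the polynomials `0`, `1`, without variables), (9) from (8) or by induction. -/
def AX : Prop :=
  ∀ (κ : ℕ) (X : Cx κ),
    (∀ (F : Finset Nat.Primes) (y : ℕ → ℝ), Apx X F y → Bdd X y) ∧
    (∀ (F : Finset Nat.Primes) (y z : ℕ → ℝ), Apx X F y → Apx X F z →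
      Apx X F fun l => y l + z l) ∧
    (∀ (F : Finset Nat.Primes) (y z : ℕ → ℝ), Apx X F y → Apx X F z →
      Apx X F fun l => y l * z l) ∧
    (∀ (F : Finset Nat.Primes) (g : Rv κ), Free F g →
      Apx X F fun l => ((evw (X.w l) g : ℚ) : ℝ)) ∧
    (∀ (F F' : Finset Nat.Primes) (y : ℕ → ℝ), F' ⊆ F → Apx X F y → Apx X F' y) ∧
    (∀ (F : Finset Nat.Primes) (y z : ℕ → ℝ), (∀ᶠ l : ℕ in (X.𝒰 : Filter ℕ), y l = z l) →
      Apx X F y → Apx X F z) ∧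
    (∀ (F : Finset Nat.Primes) (ι : Type) (s : Finset ι) (y : ι → ℕ → ℝ),
      (∀ i ∈ s, Apx X F (y i)) → Apx X F fun l => ∑ i ∈ s, y i l) ∧
    (∀ (F : Finset Nat.Primes) (ι : Type) (s : Finset ι) (y : ι → ℕ → ℝ),
      (∀ i ∈ s, Apx X F (y i)) → Apx X F fun l => ∏ i ∈ s, y i l) ∧
    ∀ (F : Finset Nat.Primes) (y : ℕ → ℝ) (e : ℕ), Apx X F y → Apx X F fun l => y l ^ e

/-- LB1 (MEDIUM): Lemma B1, elimination. Induction on `card ι` (for all `ι`, `f`, `x`). Suppose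
`∑ x_i f_i` is negligible. `ι` is not empty (`x l ≠ 0`); let `k ∈ ι`. `f_k` is not negligible: otherwise
the second hypothesis for `g = (0, .., 1, .., 0)` gives `g = 0`. LA gives `g ≠ 0` with
`∑ evw w (g_i) x_i = 0` a.a.; let `g_j ≠ 0`, and on `ι' = {i // i ≠ j}` put
`f'_i = evw w (g_j) f_i - evw w (g_i) f_j`. These are in `Apx X ∅` (AX; `Free ∅ g` always holds, the
difference is a sum with `evw w (-g_i) f_j`). Independence: if `∑_{i ≠ j} evw w (h_i) f'_i` is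
negligible, it is `∑_i evw w (H_i) f_i` with `H_i = h_i g_j` for `i ≠ j` and
`H_j = - ∑_{i ≠ j} h_i g_i`; so `H = 0`, `h_i g_j = 0`, `h_i = 0` (`Rv` is a domain). The `x_i`, `i ≠ j`,
are not all `0` a.a.: otherwise (ultrafilter) a.a. `x_i = 0` for all `i ≠ j`, so
`evw w (g_j) x_j = 0`, so `x_j = 0` (SU), so `x l = 0`. Finally
`∑_{i ≠ j} x_i f'_i = evw w (g_j) ∑_{i ≠ j} x_i f_i - f_j ∑_{i ≠ j} x_i evw w (g_i) =
evw w (g_j) ∑_{i ≠ j} x_i f_i + f_j x_j evw w (g_j) = evw w (g_j) ∑_i x_i f_i` a.a., which is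
negligible (NA (2), C1 (9)). This contradicts the induction hypothesis. -/
def LB1 : Prop :=
  ∀ (κ : ℕ), 0 < κ → ∀ (X : Cx κ) (ι : Type) [Fintype ι] [DecidableEq ι] (f : ι → ℕ → ℝ),
    (∀ i, Apx X ∅ (f i)) →
    (∀ g : ι → Rv κ, (Neg X fun l => ∑ i, ((evw (X.w l) (g i) : ℚ) : ℝ) * f i l) → g = 0) →
    ∀ x : ℕ → ι → ℤ, (∀ᶠ l : ℕ in (X.𝒰 : Filter ℕ), x l ≠ 0) →
      (∀ i, Bdd X fun l => (x l i : ℝ)) → ¬ Neg X fun l => ∑ i, (x l i : ℝ) * f i l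

/-- TPW (EASY): `tau` at prime powers. `tau = sq * μ * μ`. For every arithmetic function `f` and
`a ≥ 1`, `(f * μ)(p^a) = f (p^a) - f (p^(a-1))`: the divisors of `p^a` are the `p^i`
(`Nat.divisorsAntidiagonal` of a prime power, `Nat.Prime.sum_divisorsAntidiagonal...` or
`ArithmeticFunction.mul_apply` with `Nat.sum_divisorsAntidiagonal`, `Nat.divisors_prime_pow`), and
`μ 1 = 1`, `μ p = -1`, `μ (p^i) = 0` for `i ≥ 2` (`ArithmeticFunction.moebius_apply_prime_pow`). `sq (p^a)`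
is `1` if `a` is even and `0` otherwise. So `(sq * μ)(p^a) = (-1)^a` for `a ≥ 0`, and
`tau (p^a) = (-1)^a - (-1)^(a-1) = 2 (-1)^a` for `a ≥ 1`. -/
def TPW : Prop := ∀ (p a : ℕ), p.Prime → 1 ≤ a → tau (p ^ a) = 2 * (-1) ^ a

/-- EU (MEDIUM): the Euler factor at `q`. Write `Q' = insert q Q`. For all `n > 0`, `n = q^a n'` with
`q ∤ n'`: `tq Q n = tau (q^a) tq Q' n'`, because `tau` is multiplicative (D10b) and, for `r ∈ Q`
(`r ≠ q` prime), `r ∣ n` iff `r ∣ n'`. So, with `f_q(n) = f (n / q)` if `q ∣ n` and `0` otherwise (`e * f`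
for the arithmetic function `e` with `e q = 1` and `0` elsewhere), TPW gives
`tq Q n + (tq Q)_q n = tq Q' n - (tq Q')_q n` for all `n`: at `a = 0` both sides are `tau n'` (or `0`);
at `a = 1` the left side is `(-2 + 1) tq Q' n'` and the right side is `- tq Q' n'` (since
`tq Q' n = 0`); at `a ≥ 2` the left side is `(2 (-1)^a + 2 (-1)^(a-1)) tq Q' n' = 0` and so is the
right side. The functions `tq Q` have polynomial growth (`|tq Q n| ≤ |tau n|`, D10a), so by D2 (and the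
value `q^(-n)` of `e` at every `n`) the values satisfy
`val (tq Q) n + q^(-n) val (tq Q) n = val (tq Q') n - q^(-n) val (tq Q') n` for large `n`. (D2 has
only differences: `val f - val (tq Q')` with `f = tq Q`; or sum the identity directly, all series being
summable by D2 (1), with `∑_n f (n/q) [q ∣ n] / n^m = q^(-m) ∑_n f n / n^m`.) -/
def EU : Prop :=
  ∀ (Q : Finset Nat.Primes) (q : Nat.Primes), q ∉ Q → ∃ M : ℕ, ∀ n ≥ M,
    (1 + (((q : ℕ) : ℝ) ^ n)⁻¹) * val (tq Q) n =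
      (1 - (((q : ℕ) : ℝ) ^ n)⁻¹) * val (tq (insert q Q)) n

/-- TTA (MEDIUM): `t` at the arguments. `tq Q` has polynomial growth (`|tq Q n| ≤ |tau n|`, D10a),
`tq Q 0 = 0`, `tq Q 1 = 1`. First claim: given `θ > 0` take `N ≥ 2` with `1/N ≤ θ/2` and D4:
`|val (tq Q) n - ∑_{s < N} tq Q s / s^n| ≤ C (1/N)^n` for `n ≥ M`. For `n = n l j ≥ m ≥ M` a.a. this is at most
`C (1/N)^m ≤ C (θ/2)^m ≤ θ^m` a.a. (`m` large). For `1 ≤ s < N` and `n = ∑_i A_i w_i + c` (integers):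
`s^(-n) = s^(-c) ∏_p ∏_i (p^(-w_i))^(A_i v_p(s))`, that is
`tq Q s / s^n = evw w (monomial b_s (tq Q s * s^(-c)))` with `b_s (p, i) = A_i v_p(s)` (`Nat.factorization`;
build `b_s` as `∑_{p ∈ s.primeFactors} ∑_i Finsupp.single (p, i) (A_i v_p(s))` and use C1; a zpow for
`s^(-c)`). If `tq Q s ≠ 0` then no `q ∈ Q` divides `s`, so this polynomial is `Free Q`. Sum over
`s`. Second claim: D4 with `N = 2`: `|val (tq Q) n - 1| ≤ C 2^(-n) ≤ 1/2` for large `n` (the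
terms `s = 0, 1` are `0/0^n = 0` and `1`). -/
def TTA : Prop :=
  ∀ (κ : ℕ) (X : Cx κ) (k : ℕ) (n : ℕ → Fin k → ℕ), Arg X n → ∀ (Q : Finset Nat.Primes) (j : Fin k),
    (Apx X Q fun l => val (tq Q) (n l j)) ∧
      ∀ᶠ l : ℕ in (X.𝒰 : Filter ℕ), 1 / 2 ≤ val (tq Q) (n l j)

/-- HQ (EASY-MEDIUM): the cleared Euler factors are polynomials in the `z_(q, i)`. With
`n_j = ∑_i A_ji w_i + c_j` let `ζ_j = monomial (∑_i single i A_ji) (q^(-c_j))`, with the value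
`q^(-c_j) ∏_i (q^(-w_i))^(A_ji) = q^(-n_j)` a.a. Its exponent is not `0`: otherwise all `A_ji = 0` and
`n_j = c_j` a.a., but `n_j ≥ m` tends to infinity. So `constantCoeff ζ_j = 0`. Put
`h = ∏_j (1 - ζ_j)^(I_j) (1 + ζ_j)^(d - I_j)`; `constantCoeff` (`= coeff 0`) is a ring homomorphism, so
`coeff 0 h = 1`, and the value is `eu q n I`. -/
def HQ : Prop :=
  ∀ (κ : ℕ) (X : Cx κ) (k d : ℕ) (n : ℕ → Fin k → ℕ), Arg X n → ∀ (q : Nat.Primes)
    (I : Fin k → Fin (d + 1)), ∃ h : MvPolynomial (Fin κ) ℚ, h.coeff 0 = 1 ∧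
      ∀ᶠ l : ℕ in (X.𝒰 : Filter ℕ),
        ((MvPolynomial.aeval (fun i => vz (X.w l) (q, i)) h : ℚ) : ℝ) = eu q (n l) I

/-- QI (MEDIUM): the powers of the `z_(q, i)` are independent over the sequences free of `q`. Write
`z^μ` for `μ.prod ..`. Suppose `a μ₀` is not negligible, `μ₀ ∈ Λ`: `θ₀^m < |a μ₀|` a.a. (NA).
`μ̂₀ ∈ Ev κ` is the exponent `(q, i) ↦ μ₀ i` (`Finsupp.mapDomain (fun i => (q, i))`, or
`embDomain`); in the same way `μ̂`. Let `c₀` be the constant of C1 (8) for `μ̂₀`, and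
`θ = θ₀ c₀ / 8` (`≤ θ₀/2`, `e < 4`). Take `g_μ` (`μ ∈ Λ`) free of `q` with `|a μ - evw w g_μ| ≤ θ^m` a.a.,
`f = ∑_{μ ∈ Λ} g_μ * monomial μ̂ 1`. As `0 < z^μ ≤ 1`, a.a. `|evw w f| ≤ (1 + #Λ) θ^m`. As
`|evw w g_{μ₀}| ≥ θ₀^m - θ^m ≥ θ₀^m / 2 > 0`, `g_{μ₀} ≠ 0`. For `b ∈ supp g_{μ₀}` the coefficient of `f`
at `b + μ̂₀` is `coeff_b g_{μ₀} ≠ 0`, because all exponents of all `g_μ` are `0` at the `(q, i)` (only
`μ = μ₀` contributes). In particular `f ≠ 0`, and by B0 (`ε = 1`) a.a.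
`exp(-m) mo w b c₀^m ≤ exp(-m) mo w (b + μ̂₀) ≤ |evw w f| ≤ (1 + #Λ) θ^m` for these `b`. So
`θ₀^m / 2 ≤ |evw w g_{μ₀}| ≤ ∑_b |coeff_b| mo w b ≤ A (1 + #Λ) (e θ / c₀)^m ≤ A (1 + #Λ) (θ₀/2)^m`
a.a., `A = ∑ |coeff_b g_{μ₀}|`, a contradiction for large `m`. -/
def QI : Prop :=
  ∀ (κ : ℕ) (X : Cx κ) (q : Nat.Primes) (Λ : Finset (Fin κ →₀ ℕ)) (a : (Fin κ →₀ ℕ) → ℕ → ℝ),
    (∀ μ ∈ Λ, Apx X {q} (a μ)) →
    (Neg X fun l => ∑ μ ∈ Λ,
      a μ l * ((μ.prod fun i s => vz (X.w l) (q, i) ^ s : ℚ) : ℝ)) → ∀ μ ∈ Λ, Neg X (a μ)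

/-- LBa (MEDIUM): separation of an Euler factor. Write `Q' = insert q Q`, `T^I = tI Q n I`,
`T'^I = tI Q' n I`, `z_j = q^(-n_j)`. Multiply the relation by `∏_j (1 + z_j)^d ≤ 2^(kd)`; it remains
negligible (NA). By EU (for all `n_j ≥ m ≥ M`, a.a.)
`T^I ∏_j (1 + z_j)^d = ∏_j ((1 + z_j) val (tq Q) n_j)^(I_j) (1 + z_j)^(d - I_j) = eu q n I * T'^I`. So
`∑_I evw (g_I) (h_I(z)) T'^I` is negligible, where `h_I(z) = ∑_μ coeff_μ(h_I) z^μ`
(`MvPolynomial.aeval_eq_...`, `eval₂_eq`), so with `Λ` the union of the supports of the `h_I` and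
`a μ = ∑_I evw (C (coeff_μ h_I) * g_I) T'^I`, `∑_{μ ∈ Λ} a μ z^μ` is negligible. The `a μ` are in
`Apx X {q}`: `T'^I` is in `Apx X Q'` (TTA, AX), `{q} ⊆ Q'`, `g_I` is free of `q`. QI gives the claim for
`μ ∈ Λ`; for `μ ∉ Λ` all coefficients are `0`. -/
def LBa : Prop :=
  ∀ (κ : ℕ) (X : Cx κ) (k d : ℕ) (n : ℕ → Fin k → ℕ), Arg X n → ∀ (Q : Finset Nat.Primes)
    (q : Nat.Primes) (g : (Fin k → Fin (d + 1)) → Rv κ)
    (h : (Fin k → Fin (d + 1)) → MvPolynomial (Fin κ) ℚ), RQ X n Q g → q ∉ Q →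
    (∀ I, Free {q} (g I)) →
    (∀ I, ∀ᶠ l : ℕ in (X.𝒰 : Filter ℕ),
      ((MvPolynomial.aeval (fun i => vz (X.w l) (q, i)) (h I) : ℚ) : ℝ) = eu q (n l) I) →
    ∀ μ : Fin κ →₀ ℕ, RQ X n (insert q Q) fun I => C ((h I).coeff μ) * g I

/-- SEP (EASY-MEDIUM): the cleared Euler factors at a large prime are different. Put
`z_j = q^(-n_j) ∈ (0, 1/2]`, `ψ_j = log ((1 + z_j)/(1 - z_j)) > 0`. Then `z_j ≤ ψ_j ≤ 3 z_j`
(lower bound: `log (1 + z) - log (1 - z) ≥ - log (1 - z) ≥ z`; upper bound: `log (1 + z) ≤ z` and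
`- log (1 - z) ≤ z/(1 - z) ≤ 2 z`). Dividing by `∏ (1 + z_j)^d` and taking logarithms the
hypothesis becomes `∑_j (I_j - J_j) ψ_j = 0`. If `I ≠ J` let `j₀` have the smallest `n_j` among the `j`
with `I_j ≠ J_j`. Then `q^(-n_{j₀}) ≤ ψ_{j₀} ≤ ∑_{j ≠ j₀, I_j ≠ J_j} |I_j - J_j| ψ_j ≤
k d * 3 * q^(-n_{j₀} - 1)`, because the other `n_j` are larger than `n_{j₀}` (injectivity). So
`q ≤ 3 k d`, a contradiction. -/
def SEP : Prop :=
  ∀ (k d q : ℕ) (n : Fin k → ℕ) (I J : Fin k → Fin (d + 1)), 3 * k * d < q → 2 ≤ q →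
    Function.Injective n → (∀ j, 1 ≤ n j) → eu q n I = eu q n J → I = J

/-- LB (MEDIUM): Lemma B, independence of the products of powers of the `t(n_j)`. We prove for all `Q`
and `g`: `RQ X n Q g` implies `g = 0`, by strong induction on `s = #{I | g I ≠ 0}`. Let `s ≥ 1`.
If `s = 1`, `g I₀ ≠ 0`: `evw w (g I₀) tI Q n I₀` is negligible, and `tI Q n I₀ ≥ 2^(-kd)` a.a. (TTA), so
`evw w (g I₀)` is negligible; but by B0 (`ε = 1`) and C1 (8) `|evw w (g I₀)| ≥ exp(-m) c^m`, a contradiction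
(NA (11)). If `s ≥ 2` let `I₀ ≠ I₁` with `g I₀, g I₁ ≠ 0`, let `q > 3 k d` be a prime, `q ∉ Q`, with all `g I`
free of `q` (infinitely many primes, finitely many are excluded), and take the `h_I` of HQ. By
SEP (at one `l` with all the properties; `n_j ≥ m ≥ 1`) `eu q n I₀ ≠ eu q n I₁`, so `h_{I₀} ≠ h_{I₁}`, so
there is `μ` with `coeff_μ h_{I₀} ≠ coeff_μ h_{I₁}`. LBa for this `μ` and for `μ = 0` (`coeff_0 h_I = 1`)
gives two relations for `Q' = insert q Q`; the first minus `coeff_μ h_{I₀}` times the second is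
`RQ X n Q' g'` with `g' I = C (coeff_μ h_I - coeff_μ h_{I₀}) * g I` (NA). `g' I₀ = 0`, `g' I₁ ≠ 0`, and
`g' I ≠ 0` implies `g I ≠ 0`: the number for `g'` is smaller, so `g' = 0`, a contradiction. Finally
`Q = ∅`. -/
def LB : Prop :=
  ∀ (κ : ℕ) (X : Cx κ) (k d : ℕ) (n : ℕ → Fin k → ℕ), Arg X n →
    ∀ g : (Fin k → Fin (d + 1)) → Rv κ, RQ X n ∅ g → g = 0

/-! ## Part III: the arguments -/

/-- US1 (MEDIUM): a relation between the `w_i` gives a representation with fewer sequences.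
Induction on the triple `(M, a, b)` (lexicographic, well founded), for all
`w, K, A, c, e, c'` such that `M = max |e_i|`, some `e_i` is EQUAL to `M` (`> 0`),
`a = #{i | |e_i| = M}`, `b = #{i | e_i < 0}`. (Given `e ≠ 0`, one of `e`, `-e` is of this form.)
If some `w_i` is constant a.a., drop it (its multiples go to the constants `c_j`; the others are
indexed by `Fin κ` through `Fin.succAbove i`, `Fin.sum_univ_succAbove`). Otherwise for every `i` and `N`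
a.a. `w_i > N` (if a.a. `w_i ≤ N`, it is constant a.a.). Then some `e_j < 0`: otherwise
`w_i ≤ ∑ e_i w_i = c'` for the `i` with `e_i = M ≥ 1`, a contradiction. Let `e_i = M`, `e_j < 0` (so
`i ≠ j`). Case A: `w_j ≤ w_i` a.a. Replace `w_i` by `w_i - w_j`, `A_j'` by `A_j + A_i` (column `j`
of `A` becomes the sum of the columns `i` and `j`, column `i` is unchanged), `e_j` by
`e_j + e_i` (in `[0, M)`), `e_i` unchanged: representation and relation remain true, the bound too.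
`M` is unchanged, `a` does not increase, `b` decreases by one. Case B: `w_i ≤ w_j` a.a. Replace `w_j`
by `w_j - w_i`, column `i` of `A` by the sum of the columns, `e_i` by `e_i + e_j` (in `[0, M)`), `e_j`
unchanged (`≠ 0`): now `max |e'| < M`, or it is `M` and `a` has decreased by one; if no entry of `e'` is
equal to `max |e'|` replace `e'`, `c'` by `-e'`, `-c'`. The triple is smaller. -/
def US1 : Prop :=
  ∀ (𝒰 : Ultrafilter ℕ) (m : ℕ → ℕ) (k : ℕ) (n : ℕ → Fin k → ℕ) (κ : ℕ)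
    (w : ℕ → Fin (κ + 1) → ℕ) (K : ℕ) (A : Fin k → Fin (κ + 1) → ℕ) (c : Fin k → ℤ),
    (∀ᶠ l : ℕ in (𝒰 : Filter ℕ), ∀ i, w l i ≤ K * m l) →
    (∀ᶠ l : ℕ in (𝒰 : Filter ℕ), ∀ j,
      (n l j : ℤ) = ∑ i, (A j i : ℤ) * (w l i : ℤ) + c j) →
    ∀ (e : Fin (κ + 1) → ℤ) (c' : ℤ), e ≠ 0 →
      (∀ᶠ l : ℕ in (𝒰 : Filter ℕ), ∑ i, e i * (w l i : ℤ) = c') → RepU 𝒰 m n κ

/-- US (EASY): existence of the context. `RepU 𝒰 m n k` holds (`w = n`, `K = C`, `A` the identity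
matrix, `c = 0`). Take the smallest `κ` with `RepU 𝒰 m n κ` (`Nat.find`). `κ > 0`: if `κ = 0` then
`n_j = c_j` a.a., but `n_j ≥ m` tends to infinity and there is an index `j` (`k > 0`). If the `w_i`
satisfied a relation with `e ≠ 0` then US1 (`κ = κ' + 1`) would give `RepU 𝒰 m n κ'`. -/
def US : Prop :=
  ∀ (𝒰 : Ultrafilter ℕ) (m : ℕ → ℕ) (k C : ℕ) (n : ℕ → Fin k → ℕ), 0 < k →
    (∀ N : ℕ, ∀ᶠ l : ℕ in (𝒰 : Filter ℕ), N ≤ m l) →
    (∀ᶠ l : ℕ in (𝒰 : Filter ℕ), ∀ j, m l ≤ n l j ∧ n l j ≤ C * m l) →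
    ∃ (κ : ℕ) (X : Cx κ), 0 < κ ∧ X.𝒰 = 𝒰 ∧ X.m = m ∧ ∃ A c, Rep X n A c

/-- MA (MEDIUM): THEOREM T'. If `k = 0`, `P` is a nonzero integer constant and `θ = 1/2`, `M = 0` will
do. Let `k > 0` and suppose it is false. For every `l` the pair `θ = 1/(l+2)`, `M = l` fails: we get
`m_l ≥ l`, `n_l : Fin k → ℕ` injective with `m_l ≤ n_l ≤ C m_l`, and `P_l ≠ 0` of degree `≤ d` in each
variable with coefficients bounded by `B^(m_l)` and `‖P_l(t)‖ < (1/(l+2))^(m_l)`. Let `𝒰` be a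
nonprincipal ultrafilter (`Filter.hyperfilter ℕ`); `m_l ≥ N` a.a. US gives `κ > 0`, `X`, with
`Arg X n`. For `I : Fin k → Fin (d+1)` put `f_I = tI ∅ n I` (`tq ∅ = tau`) and
`x_I = coeff of P_l at the exponent j ↦ I_j`. `f_I` is in `Apx X ∅` (TTA, AX (8), (9)). `x l ≠ 0`: a nonzero
coefficient of `P_l` has all exponents `≤ d` (`MvPolynomial.degreeOf_le_iff`), so it is one of
the `x_I`. `|x_I| ≤ B^m ≤ (max |B| 1)^m`. For `l` with `m_l ≥` the bound of D10a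
`(∑_I x_I f_I : ℂ) = P_l(t)` (`P_l = ∑` of its monomials, all of the form `I`; `MvPolynomial.aeval_def`,
`eval₂_eq'`; `Finset.sum_bij_ne_zero`), so `|∑ x_I f_I| < (1/(l+2))^m ≤ θ^m` as soon as
`l + 2 ≥ 1/θ`: negligible. This contradicts LB1 with LB. -/
def MA : Prop :=
  ∀ (k d C : ℕ) (B : ℝ), ∃ θ : ℝ, 0 < θ ∧ θ < 1 ∧ ∃ M : ℕ, ∀ m ≥ M, ∀ n : Fin k → ℕ,
    Function.Injective n → (∀ j, m ≤ n j ∧ n j ≤ C * m) → ∀ P : MvPolynomial (Fin k) ℤ, P ≠ 0 →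
      (∀ j, P.degreeOf j ≤ d) → (∀ s, |((P.coeff s : ℤ) : ℝ)| ≤ B ^ m) →
      θ ^ m ≤ ‖MvPolynomial.aeval
        (fun j => riemannZeta (2 * (n j : ℂ)) / riemannZeta (n j : ℂ) ^ 2) P‖

end Pool.Agent.Work.MP_f1a024_nt.TU
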