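import Pool.Agent.Work.MP_f1a024_nt.TU.Stmts

/-!
# Block TU, item TPW: `tau` at prime powers
-/

namespace Pool.Agent.Work.MP_f1a024_nt.TU

open Finset
open Pool.Agent.Work.MP_f1a024_nt.AH (tau)

theorem TPW_mu (f : ArithmeticFunction ℚ) (p : ℕ) (hp : p.Prime) (b : ℕ) :
    (f * (ArithmeticFunction.moebius : ArithmeticFunction ℚ)) (p ^ (b + 1)) = f (p ^ (b + 1)) - f (p ^ b) := by
  rw [ArithmeticFunction.mul_apply,
    Nat.sum_divisorsAntidiagonal' (fun i j => f i * (ArithmeticFunction.moebius : ArithmeticFunction ℚ) j),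
    Nat.sum_divisors_prime_pow hp, Finset.sum_range_succ', Finset.sum_range_succ']
  have h0 : ∑ k ∈ range b, f (p ^ (b + 1) / p ^ (k + 1 + 1)) *
      (ArithmeticFunction.moebius : ArithmeticFunction ℚ) (p ^ (k + 1 + 1)) = 0 := by
    refine Finset.sum_eq_zero fun k _ => ?_
    rw [ArithmeticFunction.intCoe_apply, ArithmeticFunction.moebius_apply_prime_pow hp (by omega),
      if_neg (by omega), Int.cast_zero, mul_zero]
  rw [h0, zero_add, ArithmeticFunction.intCoe_apply, ArithmeticFunction.intCoe_apply]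
  rw [zero_add, pow_one, ArithmeticFunction.moebius_apply_prime hp, pow_zero, ArithmeticFunction.moebius_apply_one,
    Nat.div_one, pow_succ, Nat.mul_div_cancel _ hp.pos]
  push_cast
  ring

theorem TPW_mu0 (f : ArithmeticFunction ℚ) :
    (f * (ArithmeticFunction.moebius : ArithmeticFunction ℚ)) 1 = f 1 := by
  rw [ArithmeticFunction.mul_apply, Nat.divisorsAntidiagonal_one, Finset.sum_singleton,
    ArithmeticFunction.intCoe_apply, ArithmeticFunction.moebius_apply_one, Int.cast_one, mul_one]

theorem TPW_sq (p : ℕ) (hp : p.Prime) (a : ℕ) : AH.sq (p ^ a) = if Even a then 1 else 0 := by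
  unfold AH.sq
  show (if p ^ a = 0 then (0 : ℚ) else if IsSquare (p ^ a) then 1 else 0) = _
  rw [if_neg (pow_ne_zero a hp.ne_zero)]
  by_cases h : Even a
  · rw [if_pos h, if_pos (h.isSquare_pow p)]
  · rw [if_neg h, if_neg]
    rintro ⟨r, hr⟩
    apply h
    have h1 : (p ^ a).factorization p = (r * r).factorization p := by rw [← hr]
    have hr0 : r ≠ 0 := by
      rintro rfl
      exact pow_ne_zero a hp.ne_zero (by simpa using hr)
    rw [Nat.factorization_pow, Nat.factorization_mul hr0 hr0] at h1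
    simp only [Finsupp.smul_apply, Finsupp.add_apply, smul_eq_mul] at h1
    rw [hp.factorization_self, mul_one] at h1
    exact ⟨_, h1⟩

theorem TPW_one (p : ℕ) (hp : p.Prime) (a : ℕ) :
    (AH.sq * (ArithmeticFunction.moebius : ArithmeticFunction ℚ)) (p ^ a) = (-1) ^ a := by
  rcases a with _ | b
  · rw [pow_zero, pow_zero, TPW_mu0]
    have := TPW_sq p hp 0
    rw [pow_zero, if_pos (by decide)] at this
    exact this
  · rw [TPW_mu AH.sq p hp b, TPW_sq p hp, TPW_sq p hp]
    rcases Nat.even_or_odd b with h | h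
    · have h1 : ¬ Even (b + 1) := by
        rw [Nat.even_add_one]
        exact fun h2 => h2 h
      rw [if_neg h1, if_pos h, pow_succ, h.neg_one_pow]
      norm_num
    · have h1 : Even (b + 1) := h.add_one
      have h2 : ¬ Even b := Nat.not_even_iff_odd.mpr h
      rw [if_pos h1, if_neg h2, h1.neg_one_pow]
      norm_num

theorem prfTPW : TPW := by
  intro p a hp ha
  obtain ⟨b, rfl⟩ : ∃ b : ℕ, a = b + 1 := ⟨a - 1, by omega⟩
  unfold tau
  rw [TPW_mu _ p hp b, TPW_one p hp, TPW_one p hp, pow_succ]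
  ring

end Pool.Agent.Work.MP_f1a024_nt.TU
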