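import Pool.Agent.Work.MP_f1a024_nt.TU.Stmts

/-!
# Block TU, item TTA: the function `t` at the arguments
-/

namespace Pool.Agent.Work.MP_f1a024_nt.TU

open Finset MvPolynomial Filter
open Pool.Agent.Work.MP_f1a024_nt.AH (tau PG val D1 D2 D4 D10a D10b)

/-- the primes dividing `s` -/
noncomputable def TTA_S (s : ℕ) : Finset Nat.Primes := s.primeFactors.subtype Nat.Prime

theorem TTA_mem_S (s : ℕ) (p : Nat.Primes) : p ∈ TTA_S s ↔ (p : ℕ) ∈ s.primeFactors := by
  unfold TTA_S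
  exact Finset.mem_subtype

/-- the exponent which belongs to `s` -/
noncomputable def TTA_b {κ : ℕ} (A : Fin κ → ℕ) (s : ℕ) : Ev κ :=
  Finsupp.onFinset (TTA_S s ×ˢ (univ : Finset (Fin κ)))
    (fun v => A v.2 * s.factorization (v.1 : ℕ)) (by
      intro v hv
      rw [mem_product, TTA_mem_S]
      refine ⟨?_, mem_univ _⟩
      rw [← Nat.support_factorization, Finsupp.mem_support_iff]
      intro h
      apply hv
      rw [h, mul_zero])

theorem TTA_b_apply {κ : ℕ} (A : Fin κ → ℕ) (s : ℕ) (v : Vr κ) :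
    TTA_b A s v = A v.2 * s.factorization (v.1 : ℕ) := rfl

/-- the product over the primes dividing `s` -/
theorem TTA_prod {s : ℕ} (hs : 0 < s) :
    ∏ p ∈ TTA_S s, (((p : ℕ) : ℚ)) ^ s.factorization (p : ℕ) = (s : ℚ) := by
  unfold TTA_S
  have h1 : ∏ p ∈ s.primeFactors.subtype Nat.Prime, (((p : ℕ) : ℚ)) ^ s.factorization (p : ℕ) =
      ∏ p ∈ s.primeFactors, ((p : ℚ)) ^ s.factorization p :=
    Finset.prod_subtype_of_mem (fun p : ℕ => ((p : ℚ)) ^ s.factorization p)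
      (fun p hp => Nat.prime_of_mem_primeFactors hp)
  have h2 : (∏ p ∈ s.primeFactors, p ^ s.factorization p : ℕ) = s := by
    have h3 := Nat.factorization_prod_pow_eq_self hs.ne'
    rw [Finsupp.prod, Nat.support_factorization] at h3
    exact h3
  refine h1.trans ?_
  exact_mod_cast congrArg (fun x : ℕ => (x : ℚ)) h2

/-- the value of the monomial which belongs to `s` -/
theorem TTA_mo {κ : ℕ} (A : Fin κ → ℕ) (w : Fin κ → ℕ) {s : ℕ} (hs : 0 < s) :
    mo w (TTA_b A s) = ((s : ℚ) ^ (∑ i, A i * w i))⁻¹ := by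
  unfold mo TTA_b
  rw [Finsupp.onFinset_prod _ (fun v => pow_zero _), prod_product_right]
  rw [← prod_pow_eq_pow_sum, ← prod_inv_distrib]
  refine prod_congr rfl fun i _ => ?_
  have h1 : ∀ p ∈ TTA_S s, vz w ((p, i) : Vr κ) ^ (A i * s.factorization (p : ℕ)) =
      (((((p : ℕ) : ℚ)) ^ s.factorization (p : ℕ)) ^ (A i * w i))⁻¹ := by
    intro p _
    unfold vz
    rw [inv_pow, ← pow_mul, ← pow_mul]
    congr 2
    show w i * (A i * s.factorization (p : ℕ)) = _
    ring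
  refine (prod_congr rfl h1).trans ?_
  rw [prod_inv_distrib, prod_pow, TTA_prod hs]

/-- the value of one term -/
theorem TTA_term {κ : ℕ} (A : Fin κ → ℕ) (w : Fin κ → ℕ) (c : ℤ) {n : ℕ}
    (hn : (n : ℤ) = ∑ i, (A i : ℤ) * (w i : ℤ) + c) {s : ℕ} (hs : 0 < s) (x : ℚ) :
    (x * (s : ℚ) ^ (-c)) * mo w (TTA_b A s) = x / (s : ℚ) ^ n := by
  rw [TTA_mo A w hs]
  have hs0 : (s : ℚ) ≠ 0 := by exact_mod_cast hs.ne'
  have h1 : (s : ℚ) ^ n = (s : ℚ) ^ (∑ i, A i * w i) * (s : ℚ) ^ c := by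
    rw [← zpow_natCast, hn, zpow_add₀ hs0, ← zpow_natCast]
    congr 2
    push_cast
    rfl
  rw [h1, zpow_neg]
  have h2 : (s : ℚ) ^ c ≠ 0 := zpow_ne_zero _ hs0
  have h3 : (s : ℚ) ^ (∑ i, A i * w i) ≠ 0 := pow_ne_zero _ hs0
  field_simp

theorem TTA_tq_apply (Q : Finset Nat.Primes) (n : ℕ) :
    tq Q n = if ∀ q ∈ Q, ¬ (q : ℕ) ∣ n then tau n else 0 := rfl

/-- polynomial growth -/
theorem TTA_pg (hD10a : D10a) (Q : Finset Nat.Primes) : PG (tq Q) := by
  obtain ⟨⟨C, A, h⟩, _⟩ := hD10a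
  refine ⟨C, A, fun n => ?_⟩
  rw [TTA_tq_apply]
  split_ifs with h1
  · exact h n
  · rw [Rat.cast_zero, abs_zero]
    positivity

/-- the approximating polynomial contains no variable over `Q` -/
theorem TTA_free {κ : ℕ} (Q : Finset Nat.Primes) (A : Fin κ → ℕ) (c : ℤ) (N : ℕ) :
    Free Q (∑ s ∈ range N, monomial (TTA_b A s) (tq Q s * (s : ℚ) ^ (-c)) : Rv κ) := by
  classical
  intro v hv hvQ
  have h1 := vars_sum_subset _ _ hv
  rw [mem_biUnion] at h1
  obtain ⟨s, _, hs⟩ := h1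
  by_cases h0 : tq Q s * (s : ℚ) ^ (-c) = 0
  · rw [h0, monomial_zero, vars_0] at hs
    exact absurd hs (notMem_empty _)
  · rw [vars_monomial h0, Finsupp.mem_support_iff, TTA_b_apply] at hs
    have h2 : tq Q s ≠ 0 := left_ne_zero_of_mul h0
    have h3 : s.factorization (v.1 : ℕ) ≠ 0 := right_ne_zero_of_mul hs
    have h4 : (v.1 : ℕ) ∣ s := Nat.dvd_of_factorization_pos h3
    rw [TTA_tq_apply] at h2
    split_ifs at h2 with h5
    · exact h5 v.1 hvQ h4
    · exact h2 rfl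

theorem prfTTA (hC1 : C1) (hD4 : D4) (hD10a : D10a) (hD10b : D10b) : TTA := by
  intro κ X k n hArg Q j
  obtain ⟨⟨A, c, hRep⟩, hinj⟩ := hArg
  have hPG := TTA_pg hD10a Q
  have hev : ∀ (w : Fin κ → ℕ) (b : Ev κ) (c : ℚ), evw w (monomial b c) = c * mo w b :=
    (hC1 κ).2.2.2.2.1
  have hbig : ∀ C : ℝ, ∀ᶠ l : ℕ in (X.𝒰 : Filter ℕ), C ≤ 2 ^ X.m l := by
    intro C
    obtain ⟨N₀, hN₀⟩ := pow_unbounded_of_one_lt C (one_lt_two)
    filter_upwards [X.hm N₀] with l hl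
    exact hN₀.le.trans (pow_le_pow_right₀ one_le_two hl)
  constructor
  · intro θ hθ
    obtain ⟨N₁, hN₁⟩ := exists_nat_gt (2 / θ)
    set N := N₁ + 2 with hN
    have hNpos : (0 : ℝ) < (N : ℝ) := by
      rw [hN]
      positivity
    have hNθ : 1 / (N : ℝ) ≤ θ / 2 := by
      have h1 : 2 / θ ≤ (N : ℝ) := by
        rw [hN]
        push_cast
        linarith
      rw [div_le_iff₀ hθ] at h1
      rw [div_le_iff₀ hNpos]
      linarith
    obtain ⟨C, M, hC, hM⟩ := hD4 (tq Q) hPG N (by omega)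
    refine ⟨∑ s ∈ range N, monomial (TTA_b (A j) s) (tq Q s * (s : ℚ) ^ (-(c j))),
      TTA_free Q (A j) (c j) N, ?_⟩
    filter_upwards [hRep, hinj, X.hm M, hbig C] with l h1 h2 h3 h4
    have h5 : ((evw (X.w l) (∑ s ∈ range N, monomial (TTA_b (A j) s)
        (tq Q s * (s : ℚ) ^ (-(c j)))) : ℚ) : ℝ) =
        ∑ s ∈ range N, ((tq Q s : ℚ) : ℝ) / (s : ℝ) ^ n l j := by
      rw [map_sum]
      push_cast
      refine sum_congr rfl fun s _ => ?_
      rw [hev]
      rcases Nat.eq_zero_or_pos s with hs | hs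
      · subst hs
        rw [ArithmeticFunction.map_zero]
        simp
      · rw [TTA_term (A j) (X.w l) (c j) (h1 j) hs]
        push_cast
        rfl
    rw [h5]
    have h6 : X.m l ≤ n l j := h2.2 j
    refine (hM (n l j) (h3.trans h6)).trans ?_
    have h7 : (1 / (N : ℝ)) ^ n l j ≤ (1 / (N : ℝ)) ^ X.m l := by
      refine pow_le_pow_of_le_one (by positivity) ?_ h6
      rw [div_le_one hNpos, hN]
      push_cast
      have : (0 : ℝ) ≤ (N₁ : ℝ) := Nat.cast_nonneg _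
      linarith
    have h8 : (1 / (N : ℝ)) ^ X.m l ≤ (θ / 2) ^ X.m l :=
      pow_le_pow_left₀ (by positivity) hNθ _
    calc C * (1 / (N : ℝ)) ^ n l j ≤ 2 ^ X.m l * (θ / 2) ^ X.m l :=
          mul_le_mul h4 (h7.trans h8) (by positivity) (by positivity)
      _ = θ ^ X.m l := by
          rw [← mul_pow]
          congr 1
          ring
  · obtain ⟨C, M, hC, hM⟩ := hD4 (tq Q) hPG 2 (by norm_num)
    filter_upwards [hinj, X.hm M, hbig (2 * C)] with l h2 h3 h4
    have h6 : X.m l ≤ n l j := h2.2 j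
    have h7 := hM (n l j) (h3.trans h6)
    have h8 : ∑ s ∈ range 2, ((tq Q s : ℚ) : ℝ) / (s : ℝ) ^ n l j = 1 := by
      rw [sum_range_succ, sum_range_succ, sum_range_zero, ArithmeticFunction.map_zero]
      have h9 : tq Q 1 = 1 := by
        rw [TTA_tq_apply, if_pos, hD10b.1.map_one]
        intro q _ hq
        have h10 : (q : ℕ) = 1 := Nat.dvd_one.1 hq
        exact q.2.one_lt.ne' h10
      rw [h9]
      simp
    rw [h8] at h7
    have h9 : C * (1 / ((2 : ℕ) : ℝ)) ^ n l j ≤ 1 / 2 := by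
      have h10 : (1 / ((2 : ℕ) : ℝ)) ^ n l j ≤ (1 / 2 : ℝ) ^ X.m l := by
        push_cast
        exact pow_le_pow_of_le_one (by norm_num) (by norm_num) h6
      have h11 : C * (1 / 2 : ℝ) ^ X.m l ≤ 1 / 2 := by
        have h12 : (1 / 2 : ℝ) ^ X.m l * 2 ^ X.m l = 1 := by
          rw [← mul_pow]
          norm_num
        have h13 : (0 : ℝ) < (1 / 2 : ℝ) ^ X.m l := by positivity
        nlinarith [mul_le_mul_of_nonneg_left h4 h13.le]
      exact (mul_le_mul_of_nonneg_left h10 hC).trans h11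
    have h10 := abs_le.1 (h7.trans h9)
    linarith [h10.1]

end Pool.Agent.Work.MP_f1a024_nt.TU
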