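import Pool.Agent.Work.MP_f1a024_nt.TU.Stmts

/-!
# Block TU, item UQ0: relations between `S`-units over `ℚ`
-/

namespace Pool.Agent.Work.MP_f1a024_nt.TU

theorem prfUQ0 (h0 : Pool.Agent.Work.MP_f1a024_nt.RW.PLC)
    (h1 : Pool.Agent.Work.Tools.Subspace.ClaimU0)
    (h2 : Pool.Agent.Work.Tools.Subspace.ClaimU3) : UQ0 := by
  classical
  intro PP n b hb
  obtain ⟨P, hP⟩ := h0
  obtain ⟨L, hL, h⟩ := h1 ℚ (PP.image P) n (fun m a _ => h2 ℚ (PP.image P) m a) b hb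
  refine ⟨L, hL, fun x hx hs => h x (fun i => ⟨(hx i).1, fun v hv => ?_⟩) hs⟩
  have hq : P.symm v ∉ PP := fun hm =>
    hv (Finset.mem_image.2 ⟨_, hm, P.apply_symm_apply v⟩)
  have h3 := hP (P.symm v) (x i)
  rw [P.apply_symm_apply, (hx i).2 _ hq] at h3
  rw [h3, Rat.cast_one]

end Pool.Agent.Work.MP_f1a024_nt.TU
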