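import Pool.Agent.Work.MP_f1a024_nt.TU.Stmts

/-!
# Block TU, item US: existence of the context
-/

namespace Pool.Agent.Work.MP_f1a024_nt.TU

open Finset MvPolynomial Filter

/-- the trivial representation -/
theorem US_triv (𝒰 : Ultrafilter ℕ) (m : ℕ → ℕ) (k C : ℕ) (n : ℕ → Fin k → ℕ)
    (hn : ∀ᶠ l : ℕ in (𝒰 : Filter ℕ), ∀ j, m l ≤ n l j ∧ n l j ≤ C * m l) : RepU 𝒰 m n k := by
  refine ⟨n, C, fun i j => if i = j then 1 else 0, fun _ => 0, ?_, ?_⟩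
  · filter_upwards [hn] with l hl i
    exact (hl i).2
  · refine Filter.Eventually.of_forall fun l j => ?_
    simp

/-- no sequences: impossible -/
theorem US_zero (𝒰 : Ultrafilter ℕ) (m : ℕ → ℕ) (k C : ℕ) (n : ℕ → Fin k → ℕ) (hk : 0 < k)
    (hm : ∀ N : ℕ, ∀ᶠ l : ℕ in (𝒰 : Filter ℕ), N ≤ m l)
    (hn : ∀ᶠ l : ℕ in (𝒰 : Filter ℕ), ∀ j, m l ≤ n l j ∧ n l j ≤ C * m l) :
    ¬ RepU 𝒰 m n 0 := by
  rintro ⟨w, K, A, c, -, hr⟩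
  have h1 := hm ((c ⟨0, hk⟩).toNat + 1)
  obtain ⟨l, h2, h3, h4⟩ := (hr.and (hn.and h1)).exists
  have h5 := h2 ⟨0, hk⟩
  have h6 := (h3 ⟨0, hk⟩).1
  simp only [univ_eq_empty, sum_empty, zero_add] at h5
  omega

theorem prfUS (hUS1 : US1) : US := by
  classical
  intro 𝒰 m k C n hk hm hn
  have hex : ∃ κ, RepU 𝒰 m n κ := ⟨k, US_triv 𝒰 m k C n hn⟩
  obtain ⟨κ, hκ, hmin⟩ : ∃ κ, RepU 𝒰 m n κ ∧ ∀ κ' < κ, ¬ RepU 𝒰 m n κ' :=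
    ⟨Nat.find hex, Nat.find_spec hex, fun _ h => Nat.find_min hex h⟩
  rcases κ with _ | κ
  · exact absurd hκ (US_zero 𝒰 m k C n hk hm hn)
  · obtain ⟨w, K, A, c, hw, hr⟩ := hκ
    have hind : ∀ (e : Fin (κ + 1) → ℤ) (c' : ℤ),
        (∀ᶠ l : ℕ in (𝒰 : Filter ℕ), ∑ i, e i * (w l i : ℤ) = c') → e = 0 := by
      intro e c' h
      by_contra he
      exact hmin κ (Nat.lt_succ_self κ) (hUS1 𝒰 m k n κ w K A c hw hr e c' he h)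
    exact ⟨κ + 1, ⟨𝒰, m, w, K, hm, hw, hind⟩, Nat.succ_pos κ, rfl, rfl, A, c, hr⟩

end Pool.Agent.Work.MP_f1a024_nt.TU
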