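import Pool.Agent.Work.MP_f1a024_nt.TU.Stmts

/-!
# Block TU, item US1: a relation gives a representation with fewer sequences
-/

set_option autoImplicit false

namespace Pool.Agent.Work.MP_f1a024_nt.TU

open Finset Filter

/-- change of coordinates -/
theorem US1_alg {N : ℕ} (a w : Fin N → ℤ) (i j : Fin N) (hij : i ≠ j) :
    ∑ x, (a x + if x = j then a i else 0) * (w x - if x = i then w j else 0) =
      ∑ x, a x * w x := by
  have h1 : ∀ x, (a x + if x = j then a i else 0) * (w x - if x = i then w j else 0) =
      a x * w x + ((if x = j then a i * w j else 0) - (if x = i then a i * w j else 0)) := by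
    intro x
    by_cases hx : x = j
    · subst hx
      have : x ≠ i := fun h => hij h.symm
      simp only [if_true, this, if_false]
      ring
    · by_cases hx' : x = i
      · subst hx'
        simp only [hx, if_true, if_false]
        ring
      · simp only [hx, hx', if_false]
        ring
  rw [Finset.sum_congr rfl (fun x _ => h1 x), Finset.sum_add_distrib, Finset.sum_sub_distrib,
    Finset.sum_ite_eq' univ j (fun _ => a i * w j), Finset.sum_ite_eq' univ i (fun _ => a i * w j)]
  simp

/-- the cast of the changed sequences -/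
theorem US1_cast {N : ℕ} (w : Fin N → ℕ) (i j : Fin N) (h : w j ≤ w i) (x : Fin N) :
    (((if x = i then w i - w j else w x : ℕ) : ℕ) : ℤ) =
      (w x : ℤ) - if x = i then (w j : ℤ) else 0 := by
  by_cases hx : x = i
  · subst hx
    simp only [if_true]
    push_cast [Nat.cast_sub h]
    ring
  · simp only [hx, if_false]
    ring

/-- a bounded sequence is constant along an ultrafilter -/
theorem US1_const (𝒰 : Ultrafilter ℕ) (u : ℕ → ℕ) (N : ℕ)
    (h : ∀ᶠ l : ℕ in (𝒰 : Filter ℕ), u l ≤ N) : ∃ v, ∀ᶠ l : ℕ in (𝒰 : Filter ℕ), u l = v := by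
  by_contra hc
  push Not at hc
  have h1 : ∀ᶠ l : ℕ in (𝒰 : Filter ℕ), ∀ v ∈ Finset.range (N + 1), u l ≠ v := by
    rw [Filter.eventually_all_finset]
    intro v _
    exact hc v
  obtain ⟨l, h2, h3⟩ := (h.and h1).exists
  exact h3 (u l) (Finset.mem_range.mpr (Nat.lt_succ_of_le h2)) rfl

/-- a constant sequence can be dropped -/
theorem US1_drop (𝒰 : Ultrafilter ℕ) (m : ℕ → ℕ) (k : ℕ) (n : ℕ → Fin k → ℕ) (κ : ℕ)
    (w : ℕ → Fin (κ + 1) → ℕ) (K : ℕ) (A : Fin k → Fin (κ + 1) → ℕ) (c : Fin k → ℤ)
    (hb : ∀ᶠ l : ℕ in (𝒰 : Filter ℕ), ∀ i, w l i ≤ K * m l)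
    (hr : ∀ᶠ l : ℕ in (𝒰 : Filter ℕ), ∀ j,
      (n l j : ℤ) = ∑ i, (A j i : ℤ) * (w l i : ℤ) + c j)
    (i : Fin (κ + 1)) (v : ℕ) (hv : ∀ᶠ l : ℕ in (𝒰 : Filter ℕ), w l i = v) :
    RepU 𝒰 m n κ := by
  refine ⟨fun l x => w l (i.succAbove x), K, fun j x => A j (i.succAbove x),
    fun j => c j + (A j i : ℤ) * v, ?_, ?_⟩
  · filter_upwards [hb] with l hl x
    exact hl _
  · filter_upwards [hr, hv] with l hl hl' j
    rw [hl j, Fin.sum_univ_succAbove _ i, hl']
    ring

/-- the induction step: the new relation is not worse -/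
theorem US1_main (𝒰 : Ultrafilter ℕ) (m : ℕ → ℕ) (k : ℕ) (n : ℕ → Fin k → ℕ) (κ : ℕ) :
    ∀ (μ : ℕ) (w : ℕ → Fin (κ + 1) → ℕ) (K : ℕ) (A : Fin k → Fin (κ + 1) → ℕ) (c : Fin k → ℤ)
      (e : Fin (κ + 1) → ℤ) (c' : ℤ) (M : ℕ),
      (∀ᶠ l : ℕ in (𝒰 : Filter ℕ), ∀ i, w l i ≤ K * m l) →
      (∀ᶠ l : ℕ in (𝒰 : Filter ℕ), ∀ j,
        (n l j : ℤ) = ∑ i, (A j i : ℤ) * (w l i : ℤ) + c j) →
      0 < M → (∀ x, |e x| ≤ (M : ℤ)) → (∃ i, e i = (M : ℤ)) →
      (∀ᶠ l : ℕ in (𝒰 : Filter ℕ), ∑ i, e i * (w l i : ℤ) = c') →
      M * (κ + 2) ^ 2 + (univ.filter fun x => |e x| = (M : ℤ)).card * (κ + 2) +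
        (univ.filter fun x => e x < 0).card < μ →
      RepU 𝒰 m n κ := by
  intro μ
  induction μ with
  | zero => intro w K A c e c' M _ _ _ _ _ _ h; exact absurd h (Nat.not_lt_zero _)
  | succ μ ih =>
    intro w K A c e c' M hb hr hM he ⟨i, hi⟩ hrel hμ
    -- the reduction for an arbitrary nonzero relation
    have key : ∀ (w' : ℕ → Fin (κ + 1) → ℕ) (A' : Fin k → Fin (κ + 1) → ℕ)
        (e' : Fin (κ + 1) → ℤ),
        (∀ᶠ l : ℕ in (𝒰 : Filter ℕ), ∀ i, w' l i ≤ K * m l) →
        (∀ᶠ l : ℕ in (𝒰 : Filter ℕ), ∀ j,
          (n l j : ℤ) = ∑ i, (A' j i : ℤ) * (w' l i : ℤ) + c j) →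
        (∀ᶠ l : ℕ in (𝒰 : Filter ℕ), ∑ i, e' i * (w' l i : ℤ) = c') →
        e' ≠ 0 → (∀ x, |e' x| ≤ (M : ℤ)) →
        (univ.filter fun x => |e' x| = (M : ℤ)).card <
          (univ.filter fun x => |e x| = (M : ℤ)).card → RepU 𝒰 m n κ := by
      intro w' A' e' hb' hr' hrel' hne hle hcard
      obtain ⟨x, -, hx⟩ := Finset.exists_mem_eq_sup' (Finset.univ_nonempty : (univ :
        Finset (Fin (κ + 1))).Nonempty) (fun x => (e' x).natAbs)
      set M' := (e' x).natAbs with hM'
      have hall : ∀ y, (e' y).natAbs ≤ M' := fun y => by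
        rw [← hx]
        exact Finset.le_sup' (fun x => (e' x).natAbs) (Finset.mem_univ y)
      have hpos : 0 < M' := by
        rcases Nat.eq_zero_or_pos M' with h0 | h0
        · exfalso
          refine hne (funext fun y => ?_)
          have := hall y
          rw [h0] at this
          exact Int.natAbs_eq_zero.mp (Nat.le_zero.mp this)
        · exact h0
      have hM'M : M' ≤ M := by
        have := hle x
        rw [Int.abs_eq_natAbs] at this
        exact_mod_cast this
      have hall' : ∀ y, |e' y| ≤ (M' : ℤ) := fun y => by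
        rw [Int.abs_eq_natAbs]
        exact_mod_cast hall y
      -- the measure
      have hmeas : ∀ b : ℕ, b ≤ κ + 1 →
          M' * (κ + 2) ^ 2 + (univ.filter fun x => |e' x| = (M' : ℤ)).card * (κ + 2) + b < μ := by
        intro b hb1
        have hc1 : (univ.filter fun x => |e' x| = (M' : ℤ)).card ≤ κ + 1 := by
          have := Finset.card_le_univ (univ.filter fun x => |e' x| = (M' : ℤ))
          simpa using this
        rcases Nat.lt_or_ge M' M with hlt | hge
        · have h1 : (M' + 1) * (κ + 2) ^ 2 ≤ M * (κ + 2) ^ 2 := Nat.mul_le_mul_right _ hlt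
          have h2 : (univ.filter fun x => |e' x| = (M' : ℤ)).card * (κ + 2) ≤
              (κ + 1) * (κ + 2) := Nat.mul_le_mul_right _ hc1
          have h3 : (univ.filter fun x => |e' x| = (M : ℤ)).card + 1 ≤
            (univ.filter fun x => |e x| = (M : ℤ)).card := hcard
          have h4 : 1 * (κ + 2) ≤ (univ.filter fun x => |e x| = (M : ℤ)).card * (κ + 2) :=
            Nat.mul_le_mul_right _ (by omega)
          nlinarith [h1, h2, h4, hμ, hb1]
        · have hMM : M' = M := le_antisymm hM'M hge
          rw [hMM]
          have h3 : ((univ.filter fun x => |e' x| = (M : ℤ)).card + 1) * (κ + 2) ≤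
            (univ.filter fun x => |e x| = (M : ℤ)).card * (κ + 2) := Nat.mul_le_mul_right _ hcard
          nlinarith [h3, hμ, hb1]
      rcases Int.natAbs_eq (e' x) with hs | hs
      · refine ih w' K A' c e' c' M' hb' hr' hpos hall' ⟨x, hs⟩ hrel' (hmeas _ ?_)
        have := Finset.card_le_univ (univ.filter fun x => e' x < 0)
        simpa using this
      · refine ih w' K A' c (fun y => - e' y) (-c') M' hb' hr' hpos (fun y => ?_) ⟨x, ?_⟩ ?_ ?_
        · rw [abs_neg]
          exact hall' y
        · show - e' x = (M' : ℤ)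
          rw [hM']
          omega
        · filter_upwards [hrel'] with l hl
          rw [← hl, ← Finset.sum_neg_distrib]
          exact Finset.sum_congr rfl fun y _ => by ring
        · have h1 : (univ.filter fun y => |(- e' y)| = (M' : ℤ)) =
              univ.filter fun y => |e' y| = (M' : ℤ) := by
            refine Finset.filter_congr fun y _ => ?_
            rw [abs_neg]
          rw [h1]
          refine hmeas _ ?_
          have := Finset.card_le_univ (univ.filter fun x => - e' x < 0)
          simpa using this
    -- a constant sequence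
    by_cases hconst : ∃ x N, ∀ᶠ l : ℕ in (𝒰 : Filter ℕ), w l x ≤ N
    · obtain ⟨x, N, hN⟩ := hconst
      obtain ⟨v, hv⟩ := US1_const 𝒰 (fun l => w l x) N hN
      exact US1_drop 𝒰 m k n κ w K A c hb hr x v hv
    push Not at hconst
    -- a negative coefficient
    obtain ⟨j, hj⟩ : ∃ j, e j < 0 := by
      by_contra hno
      push Not at hno
      obtain ⟨l, h1, h2⟩ := (hrel.and (hconst i c'.toNat)).exists
      have h3 : e i * (w l i : ℤ) ≤ ∑ x, e x * (w l x : ℤ) :=
        Finset.single_le_sum (f := fun x => e x * (w l x : ℤ))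
          (fun x _ => mul_nonneg (hno x) (Int.natCast_nonneg _)) (Finset.mem_univ i)
      rw [h1, hi] at h3
      have h4 : (1 : ℤ) * (w l i : ℤ) ≤ (M : ℤ) * (w l i : ℤ) :=
        mul_le_mul_of_nonneg_right (by exact_mod_cast hM) (Int.natCast_nonneg _)
      have h5 : (w l i : ℤ) ≤ c' := by linarith
      have h6 : (c'.toNat : ℤ) < (w l i : ℤ) := by exact_mod_cast h2
      have h7 : c' ≤ (c'.toNat : ℤ) := Int.self_le_toNat c'
      linarith
    have hij : i ≠ j := by
      rintro rfl
      have : (0 : ℤ) < (M : ℤ) := by exact_mod_cast hM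
      linarith
    have hMj := abs_le.mp (he j)
    have hM0 : (0 : ℤ) < (M : ℤ) := by exact_mod_cast hM
    rcases Ultrafilter.eventually_or.mp
      (Filter.Eventually.of_forall fun l => le_total (w l j) (w l i)) with hA | hB
    · -- case A
      set e' : Fin (κ + 1) → ℤ := fun x => e x + if x = j then e i else 0 with he'
      have hej : e' j = e j + M := by simp [he', hi]
      have hex : ∀ x, x ≠ j → e' x = e x := fun x hx => by simp [he', hx]
      refine ih (fun l x => if x = i then w l i - w l j else w l x) K
        (fun j0 x => A j0 x + if x = j then A j0 i else 0) c e' c' M ?_ ?_ hM ?_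
        ⟨i, by rw [hex i hij, hi]⟩ ?_ ?_
      · filter_upwards [hb] with l hl x
        by_cases hx : x = i
        · simp only [hx, if_true]
          exact (Nat.sub_le _ _).trans (hl i)
        · simp only [hx, if_false]
          exact hl x
      · filter_upwards [hr, hA] with l hl hl' j0
        rw [hl j0, ← US1_alg (fun x => (A j0 x : ℤ)) (fun x => (w l x : ℤ)) i j hij]
        congr 1
        refine Finset.sum_congr rfl fun x _ => ?_
        rw [US1_cast (w l) i j hl' x]
        push_cast
        rfl
      · intro x
        by_cases hx : x = j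
        · rw [hx, hej, abs_le]
          constructor <;> linarith [hMj.1]
        · rw [hex x hx]
          exact he x
      · filter_upwards [hrel, hA] with l hl hl'
        rw [← hl, ← US1_alg e (fun x => (w l x : ℤ)) i j hij]
        refine Finset.sum_congr rfl fun x _ => ?_
        rw [US1_cast (w l) i j hl' x]
      · have h1 : (univ.filter fun x => |e' x| = (M : ℤ)).card ≤
            (univ.filter fun x => |e x| = (M : ℤ)).card := by
          refine Finset.card_le_card fun x hx => ?_
          rw [Finset.mem_filter] at hx ⊢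
          refine ⟨Finset.mem_univ x, ?_⟩
          by_cases hxj : x = j
          · exfalso
            have h2 := hx.2
            rw [hxj, hej, abs_of_nonneg (by linarith [hMj.1])] at h2
            linarith
          · rw [← hex x hxj]
            exact hx.2
        have h2 : (univ.filter fun x => e' x < 0).card < (univ.filter fun x => e x < 0).card := by
          refine Finset.card_lt_card ?_
          rw [Finset.ssubset_iff_of_subset]
          · refine ⟨j, ?_, ?_⟩
            · rw [Finset.mem_filter]
              exact ⟨Finset.mem_univ j, hj⟩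
            · rw [Finset.mem_filter]
              rintro ⟨-, h3⟩
              rw [hej] at h3
              linarith [hMj.1]
          · intro x hx
            rw [Finset.mem_filter] at hx ⊢
            refine ⟨Finset.mem_univ x, ?_⟩
            by_cases hxj : x = j
            · rw [hxj]
              exact hj
            · rw [← hex x hxj]
              exact hx.2
        have h3 : (univ.filter fun x => |e' x| = (M : ℤ)).card * (κ + 2) ≤
          (univ.filter fun x => |e x| = (M : ℤ)).card * (κ + 2) := Nat.mul_le_mul_right _ h1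
        omega
    · -- case B
      set e' : Fin (κ + 1) → ℤ := fun x => e x + if x = i then e j else 0 with he'
      have hei : e' i = M + e j := by simp [he', hi]
      have hex : ∀ x, x ≠ i → e' x = e x := fun x hx => by simp [he', hx]
      refine key (fun l x => if x = j then w l j - w l i else w l x)
        (fun j0 x => A j0 x + if x = i then A j0 j else 0) e' ?_ ?_ ?_ ?_ ?_ ?_
      · filter_upwards [hb] with l hl x
        by_cases hx : x = j
        · simp only [hx, if_true]
          exact (Nat.sub_le _ _).trans (hl j)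
        · simp only [hx, if_false]
          exact hl x
      · filter_upwards [hr, hB] with l hl hl' j0
        rw [hl j0, ← US1_alg (fun x => (A j0 x : ℤ)) (fun x => (w l x : ℤ)) j i hij.symm]
        congr 1
        refine Finset.sum_congr rfl fun x _ => ?_
        rw [US1_cast (w l) j i hl' x]
        push_cast
        rfl
      · filter_upwards [hrel, hB] with l hl hl'
        rw [← hl, ← US1_alg e (fun x => (w l x : ℤ)) j i hij.symm]
        refine Finset.sum_congr rfl fun x _ => ?_
        rw [US1_cast (w l) j i hl' x]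
      · intro h0
        have h1 := congrFun h0 j
        rw [hex j hij.symm] at h1
        rw [h1] at hj
        exact lt_irrefl _ hj
      · intro x
        by_cases hx : x = i
        · rw [hx, hei, abs_le]
          constructor <;> linarith [hMj.1]
        · rw [hex x hx]
          exact he x
      · refine Finset.card_lt_card ?_
        rw [Finset.ssubset_iff_of_subset]
        · refine ⟨i, ?_, ?_⟩
          · rw [Finset.mem_filter, hi]
            exact ⟨Finset.mem_univ i, abs_of_pos hM0⟩
          · rw [Finset.mem_filter]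
            rintro ⟨-, h3⟩
            rw [hei, abs_of_nonneg (by linarith [hMj.1])] at h3
            linarith
        · intro x hx
          rw [Finset.mem_filter] at hx ⊢
          refine ⟨Finset.mem_univ x, ?_⟩
          by_cases hxi : x = i
          · exfalso
            have h2 := hx.2
            rw [hxi, hei, abs_of_nonneg (by linarith [hMj.1])] at h2
            linarith
          · rw [← hex x hxi]
            exact hx.2

/-- Item US1. -/
theorem prfUS1 : US1 := by
  intro 𝒰 m k n κ w K A c hb hr e c' hne hrel
  obtain ⟨x, -, hx⟩ := Finset.exists_mem_eq_sup' (Finset.univ_nonempty : (univ :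
    Finset (Fin (κ + 1))).Nonempty) (fun x => (e x).natAbs)
  have hall : ∀ y, |e y| ≤ ((e x).natAbs : ℤ) := fun y => by
    rw [Int.abs_eq_natAbs]
    have : (e y).natAbs ≤ (e x).natAbs := by
      rw [← hx]
      exact Finset.le_sup' (fun x => (e x).natAbs) (Finset.mem_univ y)
    exact_mod_cast this
  have hpos : 0 < (e x).natAbs := by
    rcases Nat.eq_zero_or_pos (e x).natAbs with h0 | h0
    · exfalso
      refine hne (funext fun y => ?_)
      have := hall y
      rw [h0] at this
      exact abs_eq_zero.mp (le_antisymm (by exact_mod_cast this) (abs_nonneg _))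
    · exact h0
  rcases Int.natAbs_eq (e x) with hs | hs
  · exact US1_main 𝒰 m k n κ _ w K A c e c' _ hb hr hpos hall ⟨x, hs⟩ hrel (Nat.lt_succ_self _)
  · refine US1_main 𝒰 m k n κ _ w K A c (fun y => - e y) (-c') _ hb hr hpos (fun y => ?_)
      ⟨x, ?_⟩ ?_ (Nat.lt_succ_self _)
    · rw [abs_neg]
      exact hall y
    · show - e x = ((e x).natAbs : ℤ)
      omega
    · filter_upwards [hrel] with l hl
      rw [← hl, ← Finset.sum_neg_distrib]
      exact Finset.sum_congr rfl fun y _ => by ring

end Pool.Agent.Work.MP_f1a024_nt.TU
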